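import Pool.Agent.Lib.MP_627a61_nt.Tower

/-!
# Anisotropic forms over number fields of small degree
-/

open scoped NumberField

namespace Pool.Agent.Lib.MP_627a61_nt

/-- the exponents in the lower bounds for the valuations of the tower forms -/
def cexp (d : ℕ) : ℕ → ℕ
  | 0 => 0
  | N + 1 => cexp d N + d ^ N

section val

variable {L Γ₀ : Type*} [Field L] [LinearOrderedCommGroupWithZero Γ₀]

/-- two is not a `d`-th power for the valuation, even up to units -/
structure TwoNotPow (v : Valuation L Γ₀) (d : ℕ) : Prop where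
  ne_zero : d ≠ 0
  lt_one : v 2 < 1
  ne : ∀ a b : L, a ≠ 0 ∨ b ≠ 0 → v 2 * v a ^ d ≠ v b ^ d

variable {v : Valuation L Γ₀} {d : ℕ}

lemma val_int_le_one (n : ℤ) : v (n : L) ≤ 1 := by
  have h1 : (n : L) ∈ v.valuationSubring := intCast_mem _ n
  exact h1

lemma TwoNotPow.tB_le (h : TwoNotPow v d) {N : ℕ} (x : Fin (N + 2) → L) (i : Fin (N + 2)) :
    ∃ j, v 2 * v (x i) ^ d ≤ v (tB d x j) := by
  have key : ∀ a b : L, v 2 * v a ^ d ≤ v (2 * a ^ d - b ^ d) ∧
      v 2 * v b ^ d ≤ v (2 * a ^ d - b ^ d) := by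
    intro a b
    by_cases hab : a = 0 ∧ b = 0
    · obtain ⟨rfl, rfl⟩ := hab
      simp [h.ne_zero]
    · have hne : v (2 * a ^ d) ≠ v (b ^ d) := by
        rw [map_mul, map_pow, map_pow]
        apply h.ne
        by_contra hcon
        push Not at hcon
        exact hab hcon
      have h1 : v (2 * a ^ d - b ^ d) = max (v (2 * a ^ d)) (v (b ^ d)) := by
        rw [sub_eq_add_neg, v.map_add_of_distinct_val (by rwa [Valuation.map_neg]),
          Valuation.map_neg]
      rw [h1, map_mul, map_pow, map_pow]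
      refine ⟨le_max_left _ _, le_trans ?_ (le_max_right _ _)⟩
      calc v 2 * v b ^ d ≤ 1 * v b ^ d := mul_le_mul_left h.lt_one.le _
        _ = v b ^ d := one_mul _
  refine Fin.lastCases ?_ (fun j => ?_) i
  · exact ⟨Fin.last N, by simpa [tB] using (key (x (Fin.last N).castSucc) (x (Fin.last N).succ)).2⟩
  · exact ⟨j, (key (x j.castSucc) (x j.succ)).1⟩

lemma TwoNotPow.tw_le (h : TwoNotPow v d) (N : ℕ) (x : Fin (N + 1) → L) (i : Fin (N + 1)) :
    v 2 ^ cexp d N * v (x i) ^ (d ^ N) ≤ v (tw d N x) := by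
  induction N with
  | zero =>
    obtain rfl : i = 0 := Fin.ext (by omega)
    simp [cexp, tw]
  | succ N ih =>
    obtain ⟨j, hj⟩ := h.tB_le x i
    refine le_trans ?_ (ih (tB d x) j)
    have h1 : v 2 ^ cexp d (N + 1) * v (x i) ^ (d ^ (N + 1)) =
        v 2 ^ cexp d N * (v 2 * v (x i) ^ d) ^ (d ^ N) := by
      rw [cexp, pow_add, mul_pow, ← pow_mul, ← pow_succ', mul_assoc]
    rw [h1]
    gcongr

/-- robust anisotropy of the tower forms -/
theorem TwoNotPow.anisotropic (h : TwoNotPow v d) {N C : ℕ} (hC : cexp d N < C) {U : ℤ}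
    (hU : Odd U) (u : Fin (N + 1) → ℤ) {x : Fin (N + 1) → L}
    (hx : (U : L) * tw d N x + 2 ^ C * ∑ j, (u j : L) * x j ^ (d ^ N) = 0) : x = 0 := by
  by_contra hx0
  obtain ⟨i, -, hi⟩ := Finset.exists_max_image Finset.univ (fun i => v (x i))
    ⟨0, Finset.mem_univ 0⟩
  have hvi : v (x i) ≠ 0 := by
    intro h0
    apply hx0
    funext j
    have h1 := hi j (Finset.mem_univ j)
    rw [h0] at h1
    exact (Valuation.zero_iff v).1 (le_antisymm h1 zero_le)
  have h2 : v 2 ≠ 0 := by
    intro h0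
    have := h.ne 1 0 (Or.inl one_ne_zero)
    apply this
    simp [h0, h.ne_zero]
  have hvU : v (U : L) = 1 := by
    obtain ⟨m, rfl⟩ := hU
    push_cast
    rw [add_comm]
    apply v.map_one_add_of_lt
    rw [map_mul]
    calc v 2 * v (m : L) ≤ v 2 * 1 := mul_le_mul_right (val_int_le_one m) _
      _ < 1 := by rw [mul_one]; exact h.lt_one
  have hsum : v (∑ j, (u j : L) * x j ^ (d ^ N)) ≤ v (x i) ^ (d ^ N) := by
    apply v.map_sum_le
    intro j _
    rw [map_mul, map_pow]
    calc v (u j : L) * v (x j) ^ (d ^ N) ≤ 1 * v (x i) ^ (d ^ N) := by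
          gcongr
          · exact val_int_le_one _
          · exact hi j (Finset.mem_univ j)
      _ = _ := one_mul _
  have h3 : v (2 ^ C * ∑ j, (u j : L) * x j ^ (d ^ N)) < v (tw d N x) := by
    rw [map_mul, map_pow]
    calc v 2 ^ C * v (∑ j, (u j : L) * x j ^ (d ^ N)) ≤ v 2 ^ C * v (x i) ^ (d ^ N) := by gcongr
      _ < v 2 ^ cexp d N * v (x i) ^ (d ^ N) := by
        apply mul_lt_mul_of_pos_right _ (pow_pos (zero_lt_iff.2 hvi) _)
        exact pow_lt_pow_right_of_lt_one₀ (zero_lt_iff.2 h2) h.lt_one hC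
      _ ≤ _ := h.tw_le N x i
  have h4 : (U : L) * tw d N x = -(2 ^ C * ∑ j, (u j : L) * x j ^ (d ^ N)) := by
    linear_combination hx
  have h5 := congrArg v h4
  rw [map_mul, hvU, one_mul, Valuation.map_neg] at h5
  exact h3.ne h5.symm

end val

open IsDedekindDomain WithZero in
/-- Number fields of degree less than `d` have a valuation for which two is not a `d`-th power. -/
theorem exists_twoNotPow (L : Type*) [Field L] [NumberField L] {d : ℕ}
    (hd : Module.finrank ℚ L < d) :
    ∃ v : Valuation L (WithZero (Multiplicative ℤ)), TwoNotPow v d := by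
  have hn : 0 < Module.finrank ℚ L := Module.finrank_pos
  have hnorm : Algebra.norm ℤ (2 : 𝓞 L) = 2 ^ Module.finrank ℚ L := by
    have h1 := Algebra.coe_norm_int (K := L) (2 : 𝓞 L)
    have h2 : ((2 : 𝓞 L) : L) = algebraMap ℚ L 2 := by
      rw [map_ofNat]
      rfl
    rw [h2, Algebra.norm_algebraMap] at h1
    exact_mod_cast h1
  -- a prime above two
  have hnu : ¬ IsUnit (2 : 𝓞 L) := by
    intro h
    have h1 := h.map (Algebra.norm ℤ : 𝓞 L →* ℤ)
    rw [hnorm, Int.isUnit_iff] at h1
    have h3 : (1 : ℤ) < 2 ^ Module.finrank ℚ L := one_lt_pow₀ (by norm_num) hn.ne'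
    omega
  obtain ⟨M, hM, hle⟩ := Ideal.exists_le_maximal (Ideal.span {(2 : 𝓞 L)}) (by
    rw [Ne, Ideal.span_singleton_eq_top]
    exact hnu)
  have h2M : (2 : 𝓞 L) ∈ M := hle (Ideal.mem_span_singleton_self _)
  have hMbot : M ≠ ⊥ := by
    rintro rfl
    rw [Ideal.mem_bot] at h2M
    exact two_ne_zero h2M
  let P : HeightOneSpectrum (𝓞 L) := ⟨M, hM.isPrime, hMbot⟩
  have hv2 : P.valuation L 2 = P.intValuation 2 := by
    have h1 : (2 : L) = algebraMap (𝓞 L) L 2 := by rw [map_ofNat]
    rw [h1, P.valuation_of_algebraMap]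
  have hlt : P.valuation L 2 < 1 := by
    rw [hv2, P.intValuation_lt_one_iff_mem]
    exact h2M
  have hgt : ¬ P.valuation L 2 ≤ exp (-((Module.finrank ℚ L + 1 : ℕ) : ℤ)) := by
    rw [hv2, P.intValuation_le_pow_iff_mem]
    intro hmem
    have h1 : Ideal.span {(2 : 𝓞 L)} ≤ P.asIdeal ^ (Module.finrank ℚ L + 1) := by
      rw [Ideal.span_singleton_le_iff_mem]
      exact hmem
    have h2 := Ideal.absNorm_dvd_absNorm_of_le h1
    rw [map_pow, Ideal.absNorm_span_singleton, hnorm] at h2
    have h3 : ((2 : ℤ) ^ Module.finrank ℚ L).natAbs = 2 ^ Module.finrank ℚ L := by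
      rw [Int.natAbs_pow]
      rfl
    rw [h3] at h2
    have h4 := Nat.le_of_dvd (by positivity) h2
    have h5 : 2 ≤ Ideal.absNorm P.asIdeal := by
      have h6 : Ideal.absNorm P.asIdeal ≠ 1 := by
        rw [Ne, Ideal.absNorm_eq_one_iff]
        exact hM.ne_top
      have h7 : Ideal.absNorm P.asIdeal ≠ 0 := by
        intro h0
        rw [h0, zero_pow (by omega), zero_dvd_iff] at h2
        exact absurd h2 (by positivity)
      omega
    have h8 := Nat.pow_le_pow_left h5 (Module.finrank ℚ L + 1)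
    have h9 : 2 ^ Module.finrank ℚ L < 2 ^ (Module.finrank ℚ L + 1) :=
      Nat.pow_lt_pow_right (by norm_num) (Nat.lt_succ_self _)
    omega
  have h20 : P.valuation L 2 ≠ 0 := by
    rw [Ne, Valuation.zero_iff]
    exact two_ne_zero
  refine ⟨P.valuation L, by omega, hlt, ?_⟩
  intro a b hab heq
  by_cases ha : a = 0
  · subst ha
    have hb : b ≠ 0 := hab.resolve_left (by simp)
    rw [map_zero, zero_pow (by omega), mul_zero] at heq
    exact pow_ne_zero d ((Valuation.ne_zero_iff _).2 hb) heq.symm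
  · by_cases hb : b = 0
    · subst hb
      rw [map_zero, zero_pow (by omega)] at heq
      exact mul_ne_zero h20 (pow_ne_zero d ((Valuation.ne_zero_iff _).2 ha)) heq
    · have hva := (Valuation.ne_zero_iff (P.valuation L)).2 ha
      have hvb := (Valuation.ne_zero_iff (P.valuation L)).2 hb
      have h1 := congrArg log heq
      rw [log_mul h20 (pow_ne_zero _ hva), log_pow, log_pow] at h1
      have h2 : log (P.valuation L 2) < 0 := by
        have h2' := (log_lt_log h20 one_ne_zero).2 hlt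
        rwa [log_one] at h2'
      have h3 : -((Module.finrank ℚ L + 1 : ℕ) : ℤ) < log (P.valuation L 2) := by
        rw [not_le] at hgt
        have h3' := (log_lt_log exp_ne_zero h20).2 hgt
        rwa [log_exp] at h3'
      have h4 : (d : ℤ) ∣ log (P.valuation L 2) := by
        refine ⟨log (P.valuation L b) - log (P.valuation L a), ?_⟩
        simp only [nsmul_eq_mul] at h1
        linear_combination h1
      have h5 := Int.le_of_dvd (by omega) ((dvd_neg).2 h4)
      omega

end Pool.Agent.Lib.MP_627a61_nt
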