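import Pool.Agent.Lib.MP_627a61_nt.SquaresDefs

/-!
# The box variety of a linear system of quadratic forms
-/

open scoped LinearAlgebra.Projectivization

namespace Pool.Agent.Lib.MP_627a61_nt

/-- The box variety of a linear system `Φ` of quadratic forms in `n` variables over `k`, over the
extension field `K` of `k`: projective space has one coordinate `z v` for every point `v` of the
box `{0, ..., B} ^ n`, and the points of the box variety are those `z` for which one form `φ` in
the `K`-linear span of `Φ` satisfies `z v ^ 2 = φ(v)` for all `v` in the box. -/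
def boxVariety {n : ℕ} {k K : Type*} [Field k] [Field K] (τ : k →+* K) (B : ℕ)
    (Φ : Submodule k (Fin n → Fin n → k)) : Set (ℙ K ((Fin n → Fin (B + 1)) → K)) :=
  {z | ∃ φ ∈ Submodule.span K ((fun (φ : Fin n → Fin n → k) i j => τ (φ i j)) '' Φ),
    ∀ v, z.rep v ^ 2 = formVal φ v}

end Pool.Agent.Lib.MP_627a61_nt
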