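import Pool.Agent.Lib.MP_627a61_nt.Curve

/-!
# Brody's reparametrisation lemma
-/

open scoped LinearAlgebra.Projectivization Topology ComplexConjugate
open Filter Metric

namespace Pool.Agent.Lib.MP_627a61_nt

variable {ι : Type*} [Fintype ι] {κ : Type*} [Fintype κ]

/-- pointwise convergence of uniformly Lipschitz functions on a compact set is uniform -/
lemma tendstoUniformlyOn_of_lipschitz {E : Type*} [NormedAddCommGroup E] {F : ℕ → ℂ → E}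
    {f : ℂ → E} {l : Filter ℕ} [l.NeBot] {K : Set ℂ} (hK : IsCompact K) {C : ℝ} (hC : 0 ≤ C)
    (hF : ∀ᶠ i in l, ∀ x ∈ K, ∀ y ∈ K, ‖F i x - F i y‖ ≤ C * ‖x - y‖)
    (hlim : ∀ x ∈ K, Tendsto (fun i => F i x) l (𝓝 (f x))) :
    TendstoUniformlyOn F f l K := by
  have hf : ∀ x ∈ K, ∀ y ∈ K, ‖f x - f y‖ ≤ C * ‖x - y‖ := by
    intro x hx y hy
    have h1 : Tendsto (fun i => ‖F i x - F i y‖) l (𝓝 ‖f x - f y‖) :=
      ((hlim x hx).sub (hlim y hy)).norm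
    exact le_of_tendsto h1 (by filter_upwards [hF] with i hi using hi x hx y hy)
  rw [Metric.tendstoUniformlyOn_iff]
  intro ε hε
  have hη : 0 < ε / (3 * (C + 1)) := by positivity
  obtain ⟨t, htK, htf, hcov⟩ := hK.finite_cover_balls hη
  have h1 : ∀ᶠ i in l, ∀ y ∈ t, ‖f y - F i y‖ < ε / 3 := by
    rw [Filter.eventually_all_finite htf]
    intro y hy
    have h2 : Tendsto (fun i => ‖f y - F i y‖) l (𝓝 0) := by
      have := (tendsto_const_nhds (x := f y)).sub (hlim y (htK hy))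
      simpa using this.norm
    exact h2.eventually_lt_const (by positivity)
  filter_upwards [h1, hF] with i h2 h3 x hx
  obtain ⟨y, hy, hxy⟩ : ∃ y ∈ t, x ∈ ball y (ε / (3 * (C + 1))) := by
    have := hcov hx
    simpa using this
  have hyK := htK hy
  rw [mem_ball, dist_eq_norm] at hxy
  have hCx : C * ‖x - y‖ ≤ ε / 3 := by
    have h4 : C * ‖x - y‖ ≤ (C + 1) * (ε / (3 * (C + 1))) :=
      mul_le_mul (by linarith) hxy.le (norm_nonneg _) (by linarith)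
    have h5 : (C + 1) * (ε / (3 * (C + 1))) = ε / 3 := by field_simp
    linarith
  have h6 := hf x hx y hyK
  have h7 := h3 x hx y hyK
  have h8 := h2 y hy
  rw [dist_eq_norm]
  calc ‖f x - F i x‖ = ‖(f x - f y) + (f y - F i y) - (F i x - F i y)‖ := by congr 1; abel
    _ ≤ ‖(f x - f y) + (f y - F i y)‖ + ‖F i x - F i y‖ := norm_sub_le _ _
    _ ≤ (‖f x - f y‖ + ‖f y - F i y‖) + ‖F i x - F i y‖ := by gcongr; exact norm_add_le _ _
    _ < ε := by linarith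

/-- Lipschitz estimate for the column map -/
lemma norm_col_sub_le {N : ℝ} (hN : 0 < N) {j : ι} {P Q : ι → ι → ℂ}
    (hQ : ‖Q‖ ≤ 1) (hPj : 1 / (2 * N) ≤ ‖P j j‖) (hQj : 1 / (2 * N) ≤ ‖Q j j‖) :
    ‖col j P - col j Q‖ ≤ 8 * N ^ 2 * ‖P - Q‖ := by
  refine (pi_norm_le_iff_of_nonneg (by positivity)).2 fun a => ?_
  have hP0 : P j j ≠ 0 := by
    intro h
    rw [h, norm_zero] at hPj
    exact absurd hPj (not_le.2 (by positivity))
  have hQ0 : Q j j ≠ 0 := by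
    intro h
    rw [h, norm_zero] at hQj
    exact absurd hQj (not_le.2 (by positivity))
  have e1 : ∀ b c, ‖P b c - Q b c‖ ≤ ‖P - Q‖ := fun b c =>
    (norm_le_pi_norm ((P - Q) b) c).trans (norm_le_pi_norm (P - Q) b)
  have e2 : ∀ b c, ‖Q b c‖ ≤ 1 := fun b c =>
    ((norm_le_pi_norm (Q b) c).trans (norm_le_pi_norm Q b)).trans hQ
  have e3 : col j P a - col j Q a
      = ((P a j - Q a j) * Q j j - Q a j * (P j j - Q j j)) / (P j j * Q j j) := by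
    simp only [col]
    field_simp
    ring
  rw [Pi.sub_apply, e3, norm_div, norm_mul]
  have e4 : ‖(P a j - Q a j) * Q j j - Q a j * (P j j - Q j j)‖ ≤ 2 * ‖P - Q‖ := by
    calc _ ≤ ‖(P a j - Q a j) * Q j j‖ + ‖Q a j * (P j j - Q j j)‖ := norm_sub_le _ _
      _ = ‖P a j - Q a j‖ * ‖Q j j‖ + ‖Q a j‖ * ‖P j j - Q j j‖ := by rw [norm_mul, norm_mul]
      _ ≤ ‖P - Q‖ * 1 + 1 * ‖P - Q‖ := by
          gcongr
          · exact e1 a j
          · exact e2 j j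
          · exact e2 a j
          · exact e1 j j
      _ = 2 * ‖P - Q‖ := by ring
  have e5 : (1 / (2 * N)) * (1 / (2 * N)) ≤ ‖P j j‖ * ‖Q j j‖ := by gcongr
  rw [div_le_iff₀ (by positivity)]
  calc _ ≤ 2 * ‖P - Q‖ := e4
    _ = 8 * N ^ 2 * ‖P - Q‖ * ((1 / (2 * N)) * (1 / (2 * N))) := by field_simp; ring
    _ ≤ 8 * N ^ 2 * ‖P - Q‖ * (‖P j j‖ * ‖Q j j‖) := by gcongr

/-- the speed of a curve in projective space, measured through the projector embedding -/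
noncomputable def spd (φ : ℂ → ℙ ℂ (ι → ℂ)) (z : ℂ) : ℝ := ‖fderiv ℝ (fun w => pm (φ w)) z‖

/-- Rescaling a curve -/
lemma spd_comp {φ : ℂ → ℙ ℂ (ι → ℂ)} {z₀ : ℂ} {ρ : ℝ} (hρ : 0 ≤ ρ) {w : ℂ}
    (h : HolomorphicAt φ (z₀ + ρ * w)) :
    spd (fun w => φ (z₀ + ρ * w)) w = ρ * spd φ (z₀ + ρ * w) := by
  unfold spd
  have h1 : HasFDerivAt (fun w => pm (φ w)) (fderiv ℝ (fun w => pm (φ w)) (z₀ + ρ * w))
      (z₀ + ρ * w) := ((h.contDiffAt (n := 1)).differentiableAt (by norm_num)).hasFDerivAt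
  have h2 : HasFDerivAt (fun w : ℂ => z₀ + ρ * w) ((ρ : ℝ) • (ContinuousLinearMap.id ℝ ℂ)) w := by
    have h3 : HasFDerivAt (fun w : ℂ => (ρ : ℝ) • w) ((ρ : ℝ) • (ContinuousLinearMap.id ℝ ℂ)) w :=
      (hasFDerivAt_id w).const_smul (ρ : ℝ)
    have h4 := h3.const_add z₀
    simpa [Complex.real_smul] using h4
  have h5 := (h1.comp w h2).fderiv
  have h6 : (fun w : ℂ => pm (φ (z₀ + ρ * w))) = (fun w => pm (φ w)) ∘ fun w : ℂ => z₀ + ρ * w := rfl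
  rw [h6, h5]
  rw [ContinuousLinearMap.comp_smul, ContinuousLinearMap.comp_id, norm_smul,
    Real.norm_of_nonneg hρ]

/-- Brody reparametrisation on a disc -/
lemma exists_reparam {φ : ℂ → ℙ ℂ (ι → ℂ)} (hφ : ∀ z ∈ ball (0 : ℂ) 1, HolomorphicAt φ z)
    (h0 : 0 < spd φ 0) :
    ∃ (z₀ : ℂ) (ρ : ℝ), 0 < ρ ∧ (∀ w ∈ ball (0 : ℂ) (spd φ 0 / 4), z₀ + ρ * w ∈ ball (0 : ℂ) 1) ∧
      (∀ w ∈ ball (0 : ℂ) (spd φ 0 / 4), spd (fun w => φ (z₀ + ρ * w)) w ≤ 2) ∧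
      spd (fun w => φ (z₀ + ρ * w)) 0 = 1 := by
  have hsub : closedBall (0 : ℂ) (1 / 2) ⊆ ball (0 : ℂ) 1 :=
    closedBall_subset_ball (by norm_num)
  have hcont : ContinuousOn (fun z => (1 / 2 - ‖z‖) * spd φ z) (closedBall (0 : ℂ) (1 / 2)) := by
    intro z hz
    apply ContinuousAt.continuousWithinAt
    have h1 : ContinuousAt (fun z => fderiv ℝ (fun w => pm (φ w)) z) z :=
      ((hφ z (hsub hz)).contDiffAt (n := 2)).continuousAt_fderiv (by norm_num)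
    exact (continuousAt_const.sub continuous_norm.continuousAt).mul h1.norm
  obtain ⟨z₀, hz₀, hmax⟩ := (isCompact_closedBall (0 : ℂ) (1 / 2)).exists_isMaxOn
    ⟨0, by simp⟩ hcont
  have hmax' : ∀ z ∈ closedBall (0 : ℂ) (1 / 2),
      (1 / 2 - ‖z‖) * spd φ z ≤ (1 / 2 - ‖z₀‖) * spd φ z₀ := fun z hz => hmax hz
  have hM : spd φ 0 / 2 ≤ (1 / 2 - ‖z₀‖) * spd φ z₀ := by
    have := hmax' 0 (by simp)
    simp only [norm_zero, sub_zero] at this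
    linarith
  have hz₀' : ‖z₀‖ ≤ 1 / 2 := by simpa using hz₀
  have hspd0 : 0 ≤ spd φ z₀ := norm_nonneg _
  have hr : 0 < 1 / 2 - ‖z₀‖ := by
    by_contra hcon
    have : 1 / 2 - ‖z₀‖ = 0 := by linarith
    rw [this, zero_mul] at hM
    linarith
  have hs : 0 < spd φ z₀ := by
    by_contra hcon
    have : spd φ z₀ = 0 := le_antisymm (not_lt.1 hcon) hspd0
    rw [this, mul_zero] at hM
    linarith
  have hρ : 0 < (spd φ z₀)⁻¹ := inv_pos.2 hs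
  have hmem : ∀ w ∈ ball (0 : ℂ) (spd φ 0 / 4),
      (spd φ z₀)⁻¹ * ‖w‖ ≤ (1 / 2 - ‖z₀‖) / 2 := by
    intro w hw
    have hw' : ‖w‖ < spd φ 0 / 4 := by simpa using hw
    rw [inv_mul_le_iff₀ hs]
    nlinarith
  have hnorm : ∀ w ∈ ball (0 : ℂ) (spd φ 0 / 4),
      ‖z₀ + ((spd φ z₀)⁻¹ : ℝ) * w‖ ≤ ‖z₀‖ + (1 / 2 - ‖z₀‖) / 2 := by
    intro w hw
    calc ‖z₀ + ((spd φ z₀)⁻¹ : ℝ) * w‖ ≤ ‖z₀‖ + ‖((spd φ z₀)⁻¹ : ℝ) * w‖ := norm_add_le _ _
      _ = ‖z₀‖ + (spd φ z₀)⁻¹ * ‖w‖ := by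
          rw [norm_mul, Complex.norm_real, Real.norm_of_nonneg hρ.le]
      _ ≤ ‖z₀‖ + (1 / 2 - ‖z₀‖) / 2 := by linarith [hmem w hw]
  have hmem2 : ∀ w ∈ ball (0 : ℂ) (spd φ 0 / 4),
      z₀ + ((spd φ z₀)⁻¹ : ℝ) * w ∈ closedBall (0 : ℂ) (1 / 2) := by
    intro w hw
    rw [mem_closedBall_zero_iff]
    linarith [hnorm w hw]
  refine ⟨z₀, (spd φ z₀)⁻¹, hρ, fun w hw => hsub (hmem2 w hw), ?_, ?_⟩
  · intro w hw
    rw [spd_comp hρ.le (hφ _ (hsub (hmem2 w hw)))]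
    have h1 := hmax' _ (hmem2 w hw)
    have h2 := hnorm w hw
    have h3 : (1 / 2 - ‖z₀‖) / 2 ≤ 1 / 2 - ‖z₀ + ((spd φ z₀)⁻¹ : ℝ) * w‖ := by linarith
    have h4 : 0 ≤ spd φ (z₀ + ((spd φ z₀)⁻¹ : ℝ) * w) := norm_nonneg _
    have h5 : (1 / 2 - ‖z₀‖) / 2 * spd φ (z₀ + ((spd φ z₀)⁻¹ : ℝ) * w)
        ≤ (1 / 2 - ‖z₀‖) * spd φ z₀ := le_trans (by gcongr) h1
    have h6 : spd φ (z₀ + ((spd φ z₀)⁻¹ : ℝ) * w) ≤ 2 * spd φ z₀ := by
      by_contra hcon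
      push Not at hcon
      nlinarith
    rw [inv_mul_le_iff₀ hs]
    linarith
  · have h1 : (0 : ℂ) ∈ ball (0 : ℂ) (spd φ 0 / 4) := by
      simp only [mem_ball, dist_self]; linarith
    rw [spd_comp hρ.le (hφ _ (hsub (hmem2 0 h1)))]
    simp only [mul_zero, add_zero]
    exact inv_mul_cancel₀ hs.ne'

end Pool.Agent.Lib.MP_627a61_nt
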