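import Pool.Agent.Lib.MP_627a61_nt.Limit

/-!
# Consequences of Brody's lemma
-/

open scoped LinearAlgebra.Projectivization Topology ComplexConjugate
open Filter Metric

namespace Pool.Agent.Lib.MP_627a61_nt

variable {ι : Type*} [Fintype ι] {κ : Type*} [Fintype κ]

lemma HolomorphicAt.comp_affine {φ : ℂ → ℙ ℂ (ι → ℂ)} {z₀ ρ w : ℂ}
    (h : HolomorphicAt φ (z₀ + ρ * w)) : HolomorphicAt (fun w => φ (z₀ + ρ * w)) w :=
  HolomorphicAt.comp (g := fun w => z₀ + ρ * w) h (by fun_prop)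

/-- Brody's lemma: a sequence of holomorphic discs whose speed at the origin tends to infinity
can be reparametrised to converge to a nonconstant entire curve of bounded speed. -/
theorem brody_lemma (l : Ultrafilter ℕ) (φ : ℕ → ℂ → ℙ ℂ (ι → ℂ))
    (hφ : ∀ i, ∀ z ∈ ball (0 : ℂ) 1, HolomorphicAt (φ i) z)
    (hpos : ∀ i, 0 < spd (φ i) 0)
    (hspd : Tendsto (fun i => spd (φ i) 0) l atTop) :
    ∃ χ : ℂ → ℙ ℂ (ι → ℂ), (∀ w, HolomorphicAt χ w) ∧ (∀ w, spd χ w ≤ 2) ∧ spd χ 0 = 1 ∧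
      ∀ w, ∃ z : ℕ → ℂ, (∀ i, z i ∈ ball (0 : ℂ) 1) ∧
        Tendsto (fun i => pm (φ i (z i))) l (𝓝 (pm (χ w))) := by
  choose z₀ ρ hρ hmem hspd2 hspd0 using fun i => exists_reparam (hφ i) (hpos i)
  have hR : Tendsto (fun i => spd (φ i) 0 / 4) l atTop := hspd.atTop_div_const (by norm_num)
  obtain ⟨χ, h1, h2, h3, h4⟩ := exists_limit_curve l (fun i w => φ i (z₀ i + ρ i * w))
    (fun i => spd (φ i) 0 / 4) hR
    (fun i w hw => (hφ i _ (hmem i w hw)).comp_affine) hspd2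
  refine ⟨χ, h1, h2, ?_, ?_⟩
  · have h5 : Tendsto (fun i => spd (fun w => φ i (z₀ i + ρ i * w)) 0) l (𝓝 1) := by
      simp only [hspd0]
      exact tendsto_const_nhds
    exact tendsto_nhds_unique h4 h5
  · intro w
    classical
    refine ⟨fun i => if z₀ i + ρ i * w ∈ ball (0 : ℂ) 1 then z₀ i + ρ i * w else 0, ?_, ?_⟩
    · intro i
      dsimp only
      split_ifs with h
      · exact h
      · exact mem_ball_self one_pos
    · refine (h3 w).congr' ?_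
      filter_upwards [hR.eventually_gt_atTop ‖w‖] with i hi
      have : z₀ i + ρ i * w ∈ ball (0 : ℂ) 1 := hmem i w (by simpa using hi)
      rw [if_pos this]

/-- a curve of positive speed is not constant -/
lemma exists_ne_of_spd {χ : ℂ → ℙ ℂ (ι → ℂ)} (h : spd χ 0 ≠ 0) : ¬ ∀ z w, χ z = χ w := by
  intro hc
  apply h
  unfold spd
  have : (fun w => pm (χ w)) = fun _ => pm (χ 0) := by
    funext w
    rw [hc w 0]
  rw [this]
  simp

/-- a curve with zero speed everywhere is constant -/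
lemma eq_of_spd_eq_zero {χ : ℂ → ℙ ℂ (ι → ℂ)} (hχ : ∀ w, HolomorphicAt χ w)
    (h : ∀ z, spd χ z = 0) : ∀ z w, χ z = χ w := by
  intro z w
  apply pm_injective
  have := lipschitz_of_spd (C := 0) convex_univ (fun z _ => hχ z) (fun z _ => (h z).le)
    (Set.mem_univ w) (Set.mem_univ z)
  rw [zero_mul] at this
  exact sub_eq_zero.1 (norm_le_zero_iff.1 this)

/-- from a nonconstant entire curve, discs with large speed at the origin -/
lemma exists_large_speed {φ : ℂ → ℙ ℂ (ι → ℂ)} (hφ : ∀ z, HolomorphicAt φ z)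
    (hne : ¬ ∀ z w, φ z = φ w) (M : ℝ) :
    ∃ (z₀ : ℂ) (ρ : ℝ), 0 < spd (fun w => φ (z₀ + ρ * w)) 0 ∧
      M ≤ spd (fun w => φ (z₀ + ρ * w)) 0 := by
  obtain ⟨z₀, hz₀⟩ : ∃ z₀, spd φ z₀ ≠ 0 := by
    by_contra h
    push Not at h
    exact hne (eq_of_spd_eq_zero hφ h)
  have hpos : 0 < spd φ z₀ := lt_of_le_of_ne (norm_nonneg _) (Ne.symm hz₀)
  refine ⟨z₀, (|M| + 1) / spd φ z₀, ?_⟩
  have h1 : spd (fun w => φ (z₀ + ((|M| + 1) / spd φ z₀ : ℝ) * w)) 0 = |M| + 1 := by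
    rw [spd_comp (by positivity) (hφ _)]
    simp only [mul_zero, add_zero]
    field_simp
  rw [h1]
  exact ⟨by positivity, by linarith [le_abs_self M]⟩

/-- Openness of hyperbolicity: if `Y` is Brody hyperbolic and limits of points of `Y (n k)` lie
in `Y`, then `Y n` is Brody hyperbolic for all large `n`. -/
theorem eventually_brodyHyperbolic {Y : Set (ℙ ℂ (ι → ℂ))} (hY : BrodyHyperbolic Y)
    (Z : ℕ → Set (ℙ ℂ (ι → ℂ)))
    (hclosed : ∀ (l : Ultrafilter ℕ) (n : ℕ → ℕ), Tendsto n l atTop → ∀ (q : ℕ → ℙ ℂ (ι → ℂ)) p,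
      (∀ k, q k ∈ Z (n k)) → Tendsto (fun k => pm (q k)) l (𝓝 (pm p)) → p ∈ Y) :
    ∀ᶠ n in atTop, BrodyHyperbolic (Z n) := by
  by_contra hcon
  rw [Filter.not_eventually] at hcon
  obtain ⟨n, hn, hZ⟩ := Filter.extraction_of_frequently_atTop hcon
  have hex : ∀ k, ∃ φ : ℂ → ℙ ℂ (ι → ℂ), (∀ z, HolomorphicAt φ z) ∧ (∀ z, φ z ∈ Z (n k)) ∧
      0 < spd φ 0 ∧ (k : ℝ) ≤ spd φ 0 := by
    intro k
    have h1 := hZ k
    unfold BrodyHyperbolic at h1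
    push Not at h1
    obtain ⟨φ, h2, h3, z, w, h4⟩ := h1
    obtain ⟨z₀, ρ, h5, h6⟩ := exists_large_speed h2 (fun h => h4 (h z w)) k
    exact ⟨fun w => φ (z₀ + ρ * w), fun z => (h2 _).comp_affine, fun z => h3 _, h5, h6⟩
  choose φ h1 h2 h3 h4 using hex
  obtain ⟨χ, c1, c2, c3, c4⟩ := brody_lemma (hyperfilter ℕ) φ (fun i z _ => h1 i z) h3
    (tendsto_atTop_mono h4
      ((tendsto_natCast_atTop_atTop (R := ℝ)).mono_left Nat.hyperfilter_le_atTop))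
  refine exists_ne_of_spd (by rw [c3]; norm_num) (hY χ c1 ?_)
  intro w
  obtain ⟨z, hz, hlim⟩ := c4 w
  exact hclosed (hyperfilter ℕ) n (hn.tendsto_atTop.mono_left Nat.hyperfilter_le_atTop) _ _
    (fun k => h2 k (z k)) hlim

/-- limits of points of a set which is closed (in the projector embedding) -/
def PClosed (Y : Set (ℙ ℂ (ι → ℂ))) : Prop := IsClosed (pm '' Y)

lemma PClosed.mem {Y : Set (ℙ ℂ (ι → ℂ))} (hY : PClosed Y) {l : Filter ℕ} [l.NeBot]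
    {q : ℕ → ℙ ℂ (ι → ℂ)} {p : ℙ ℂ (ι → ℂ)} (hq : ∀ i, q i ∈ Y)
    (hlim : Tendsto (fun i => pm (q i)) l (𝓝 (pm p))) : p ∈ Y := by
  have h1 : pm p ∈ pm '' Y :=
    IsClosed.mem_of_tendsto hY hlim (Filter.Eventually.of_forall fun i => ⟨q i, hq i, rfl⟩)
  obtain ⟨p', hp', h2⟩ := h1
  rwa [← pm_injective h2]

/-- Uniform bound for the speed of discs in a closed Brody hyperbolic set. -/
theorem exists_speed_bound {Y : Set (ℙ ℂ (ι → ℂ))} (hY : BrodyHyperbolic Y) (hc : PClosed Y) :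
    ∃ C : ℝ, 0 < C ∧ ∀ φ : ℂ → ℙ ℂ (ι → ℂ), (∀ z ∈ ball (0 : ℂ) 1, HolomorphicAt φ z ∧ φ z ∈ Y) →
      spd φ 0 ≤ C := by
  by_contra hcon
  push Not at hcon
  have h : ∀ i : ℕ, ∃ φ : ℂ → ℙ ℂ (ι → ℂ), (∀ z ∈ ball (0 : ℂ) 1, HolomorphicAt φ z ∧ φ z ∈ Y) ∧
      (i + 1 : ℝ) < spd φ 0 := fun i => hcon (i + 1) (by positivity)
  choose φ h1 h2 using h
  obtain ⟨χ, c1, c2, c3, c4⟩ := brody_lemma (hyperfilter ℕ) φ (fun i z hz => (h1 i z hz).1)
    (fun i => lt_trans (by positivity) (h2 i))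
    (tendsto_atTop_mono (fun i => le_trans (by linarith) (h2 i).le)
      ((tendsto_natCast_atTop_atTop (R := ℝ)).mono_left Nat.hyperfilter_le_atTop))
  refine exists_ne_of_spd (by rw [c3]; norm_num) (hY χ c1 ?_)
  intro w
  obtain ⟨z, hz, hlim⟩ := c4 w
  exact hc.mem (fun i => (h1 i _ (hz i)).2) hlim

/-- If a closed set contains a nonconstant entire curve it contains one of bounded speed. -/
theorem exists_bounded_speed_curve {Y : Set (ℙ ℂ (ι → ℂ))} (hc : PClosed Y)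
    (hY : ¬ BrodyHyperbolic Y) :
    ∃ χ : ℂ → ℙ ℂ (ι → ℂ), (∀ w, HolomorphicAt χ w) ∧ (∀ w, χ w ∈ Y) ∧ (∀ w, spd χ w ≤ 2) ∧
      ¬ ∀ z w, χ z = χ w := by
  unfold BrodyHyperbolic at hY
  push Not at hY
  obtain ⟨φ, h2, h3, z, w, h4⟩ := hY
  have h : ∀ i : ℕ, ∃ φ : ℂ → ℙ ℂ (ι → ℂ), (∀ z, HolomorphicAt φ z) ∧ (∀ z, φ z ∈ Y) ∧
      0 < spd φ 0 ∧ (i : ℝ) ≤ spd φ 0 := by
    intro i
    obtain ⟨z₀, ρ, h5, h6⟩ := exists_large_speed h2 (fun h => h4 (h z w)) i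
    exact ⟨fun w => φ (z₀ + ρ * w), fun z => (h2 _).comp_affine, fun z => h3 _, h5, h6⟩
  choose φ' k1 k2 k3 k4 using h
  obtain ⟨χ, c1, c2, c3, c4⟩ := brody_lemma (hyperfilter ℕ) φ' (fun i z _ => k1 i z) k3
    (tendsto_atTop_mono k4
      ((tendsto_natCast_atTop_atTop (R := ℝ)).mono_left Nat.hyperfilter_le_atTop))
  refine ⟨χ, c1, ?_, c2, exists_ne_of_spd (by rw [c3]; norm_num)⟩
  intro w
  obtain ⟨z, hz, hlim⟩ := c4 w
  exact hc.mem (fun i => k2 i _) hlim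

end Pool.Agent.Lib.MP_627a61_nt
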