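import Pool.Agent.Lib.MP_627a61_nt.SmoothEmbed

/-!
# Products of conjugates: linear independence and norm forms
-/

open scoped LinearAlgebra.Projectivization Topology IntermediateField
open Filter

namespace Pool.Agent.Lib.MP_627a61_nt

variable {ι k₀ k : Type*} [Field k₀] [CharZero k₀] [Algebra k₀ ℂ] [Field k] [Algebra k₀ k]
  [FiniteDimensional k₀ k]

variable (k₀) in
omit [CharZero k₀] in
/-- the multiplicative character `x ↦ ∏ τ, τ (x (j τ))` on `k^ι` -/
noncomputable def chr (j : (k →ₐ[k₀] ℂ) → ι) : (ι → k) →* ℂ where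
  toFun x := ∏ τ : k →ₐ[k₀] ℂ, τ (x (j τ))
  map_one' := by simp
  map_mul' x y := by simp [Finset.prod_mul_distrib]

omit [CharZero k₀] in
lemma chr_apply (j : (k →ₐ[k₀] ℂ) → ι) (x : ι → k) :
    chr k₀ j x = ∏ τ : k →ₐ[k₀] ℂ, τ (x (j τ)) := rfl

lemma chr_injective : Function.Injective (chr (k₀ := k₀) (k := k) (ι := ι)) := by
  classical
  intro j j' h
  by_contra hne
  obtain ⟨τ₀, hτ₀⟩ : ∃ τ₀, j τ₀ ≠ j' τ₀ := Function.ne_iff.1 hne
  obtain ⟨α, hα⟩ := Field.exists_primitive_element k₀ k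
  have hinj : ∀ τ τ' : k →ₐ[k₀] ℂ, τ α = τ' α → τ = τ' := by
    intro τ τ' hh
    have h1 : k₀⟮α⟯ ≤ (AlgHom.equalizer τ τ').toIntermediateField (by
        intro x hx
        rw [AlgHom.mem_equalizer] at hx ⊢
        rw [map_inv₀, map_inv₀, hx]) := by
      rw [IntermediateField.adjoin_simple_le_iff]
      exact hh
    rw [hα] at h1
    ext x
    exact h1 (x := x) trivial
  set P : ((k →ₐ[k₀] ℂ) → ι) → Polynomial ℂ := fun i =>
    ∏ τ, if i τ = j τ₀ then (Polynomial.X + Polynomial.C (τ α)) else 1 with hPdef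
  have hP : ∀ (c : ℕ) i, (P i).eval (c : ℂ) =
      chr k₀ i (Function.update 1 (j τ₀) ((c : k) + α)) := by
    intro c i
    rw [hPdef, chr_apply]
    simp only [Polynomial.eval_prod]
    refine Finset.prod_congr rfl fun τ _ => ?_
    by_cases hi : i τ = j τ₀
    · simp [hi]
    · simp [hi]
  have hPP : P j = P j' := by
    apply Polynomial.eq_of_infinite_eval_eq
    refine Set.Infinite.mono (s := Set.range (fun c : ℕ => (c : ℂ))) ?_
      (Set.infinite_range_of_injective Nat.cast_injective)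
    rintro _ ⟨c, rfl⟩
    simp only [Set.mem_ofPred_eq]
    rw [hP, hP, h]
  have h1 : (P j).eval (-(τ₀ α)) = 0 := by
    rw [hPdef]
    simp only [Polynomial.eval_prod]
    exact Finset.prod_eq_zero (Finset.mem_univ τ₀) (by simp)
  have h2 : (P j').eval (-(τ₀ α)) ≠ 0 := by
    rw [hPdef]
    simp only [Polynomial.eval_prod]
    rw [Finset.prod_ne_zero_iff]
    intro τ _
    by_cases hi : j' τ = j τ₀
    · simp only [hi, if_true, Polynomial.eval_add, Polynomial.eval_X, Polynomial.eval_C]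
      intro h3
      have h4 : τ α = τ₀ α := by linear_combination h3
      exact hτ₀ (by rw [← hi, hinj τ τ₀ h4])
    · simp [hi]
  exact h2 (hPP ▸ h1)

variable (k₀ k) in
/-- finitely many points suffice to separate the characters -/
lemma exists_points [Finite ι] : ∃ (r : ℕ) (a : Fin r → (ι → k)),
    ∀ c : ((k →ₐ[k₀] ℂ) → ι) → ℂ, (∀ i, ∑ᶠ j, c j * chr k₀ j (a i) = 0) → c = 0 := by
  classical
  have := Fintype.ofFinite ι
  set v : (ι → k) → (((k →ₐ[k₀] ℂ) → ι) → ℂ) := fun a j => chr k₀ j a with hv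
  have hlin : LinearIndependent ℂ
      (fun j : (k →ₐ[k₀] ℂ) → ι => (chr k₀ (k := k) j : (ι → k) → ℂ)) :=
    (linearIndependent_monoidHom (ι → k) ℂ).comp _ chr_injective
  rw [Fintype.linearIndependent_iff] at hlin
  have hfg : (Submodule.span ℂ (Set.range v)).FG := IsNoetherian.noetherian _
  rw [Submodule.fg_span_iff_fg_span_finset_subset] at hfg
  obtain ⟨A, hA, hspan⟩ := hfg
  have hA' : ∀ i : Fin A.card, ∃ a, v a = (A.equivFin.symm i : ((k →ₐ[k₀] ℂ) → ι) → ℂ) :=
    fun i => hA (A.equivFin.symm i).2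
  choose a ha using hA'
  refine ⟨A.card, a, fun c hc => ?_⟩
  -- the functional given by `c`
  let f : (((k →ₐ[k₀] ℂ) → ι) → ℂ) →ₗ[ℂ] ℂ := ∑ j, c j • LinearMap.proj j
  have hf : ∀ w, f w = ∑ j, c j * w j := by
    intro w
    simp [f, LinearMap.sum_apply]
  have h1 : Submodule.span ℂ (Set.range v) ≤ LinearMap.ker f := by
    rw [hspan, Submodule.span_le]
    intro w hw
    rw [SetLike.mem_coe, LinearMap.mem_ker, hf]
    have h2 := ha (A.equivFin ⟨w, hw⟩)
    rw [Equiv.symm_apply_apply] at h2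
    have h3 := hc (A.equivFin ⟨w, hw⟩)
    rw [finsum_eq_sum_of_fintype] at h3
    rw [← h3]
    refine Finset.sum_congr rfl fun j _ => ?_
    have h4 : v (a (A.equivFin ⟨w, hw⟩)) j = w j := congrFun h2 j
    rw [← h4]
  funext j
  refine hlin c ?_ j
  funext x
  have h4 := h1 (Submodule.subset_span ⟨x, rfl⟩)
  rw [LinearMap.mem_ker, hf] at h4
  simpa using h4

/-- expansion of the norm of a linear form -/
lemma norm_linear [Fintype ι] (a x : ι → k) :
    algebraMap k₀ ℂ (Algebra.norm k₀ (∑ l, a l * x l)) = ∑ᶠ j, chr k₀ j x * chr k₀ j a := by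
  classical
  have h1 := Algebra.norm_eq_prod_embeddings k₀ ℂ (∑ l, a l * x l)
  rw [finsum_eq_sum_of_fintype, h1]
  simp only [map_sum, map_mul]
  rw [Finset.prod_univ_sum]
  rw [Fintype.piFinset_univ]
  refine Finset.sum_congr rfl fun j _ => ?_
  rw [chr_apply, chr_apply, ← Finset.prod_mul_distrib]
  refine Finset.prod_congr rfl fun τ _ => ?_
  exact mul_comm _ _

end Pool.Agent.Lib.MP_627a61_nt
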