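import Pool.Agent.Lib.MP_627a61_nt.PM

/-!
# Holomorphic curves in projective space
-/

open scoped LinearAlgebra.Projectivization Topology ComplexConjugate
open Filter

namespace Pool.Agent.Lib.MP_627a61_nt

variable {ι : Type*} [Fintype ι] {κ : Type*} [Fintype κ]

/-- existence of a scalar between the chosen representative and a given one -/
lemma exists_rep_eq {L V : Type*} [Field L] [AddCommGroup V] [Module L V] {p : ℙ L V} {v : V}
    {hv : v ≠ 0} (h : p = Projectivization.mk L v hv) :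
    ∃ t : L, t ≠ 0 ∧ p.rep = t • v := by
  obtain ⟨a, ha⟩ := Projectivization.exists_smul_eq_mk_rep L v hv
  exact ⟨a, a.ne_zero, by rw [h, ← ha]; rfl⟩

lemma HolomorphicAt.pm_eventually {φ : ℂ → ℙ ℂ (ι → ℂ)} {z : ℂ} (h : HolomorphicAt φ z) :
    ∃ f : ℂ → ι → ℂ, AnalyticAt ℂ f z ∧ f z ≠ 0 ∧
      (∀ᶠ w in 𝓝 z, pm (φ w) = pmv (f w)) := by
  obtain ⟨f, hf, hw⟩ := h
  obtain ⟨h0, -⟩ := hw.self_of_nhds
  refine ⟨f, hf, h0, ?_⟩
  filter_upwards [hw] with w hw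
  obtain ⟨h1, h2⟩ := hw
  rw [h2, pm_mk]

lemma HolomorphicAt.contDiffAt {φ : ℂ → ℙ ℂ (ι → ℂ)} {z : ℂ} (h : HolomorphicAt φ z)
    {n : WithTop ℕ∞} : ContDiffAt ℝ n (fun w => pm (φ w)) z := by
  obtain ⟨f, hf, h0, hw⟩ := h.pm_eventually
  have h1 : ContDiffAt ℝ n f z := (hf.restrictScalars (𝕜 := ℝ)).contDiffAt
  have h2 : ContDiffAt ℝ n (fun w => pmv (f w)) z := (contDiffAt_pmv h0).comp z h1
  exact h2.congr_of_eventuallyEq hw

lemma HolomorphicAt.continuousAt {φ : ℂ → ℙ ℂ (ι → ℂ)} {z : ℂ} (h : HolomorphicAt φ z) :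
    ContinuousAt (fun w => pm (φ w)) z :=
  (h.contDiffAt (n := 0)).continuousAt

lemma HolomorphicAt.col {φ : ℂ → ℙ ℂ (ι → ℂ)} {z : ℂ} (h : HolomorphicAt φ z) {j : ι}
    (hj : pm (φ z) j j ≠ 0) :
    AnalyticAt ℂ (fun w => col j (pm (φ w))) z := by
  obtain ⟨f, hf, h0, hw⟩ := h.pm_eventually
  have hfj : f z j ≠ 0 := by
    rw [hw.self_of_nhds] at hj
    exact (pmv_diag_ne_zero_iff h0 j).1 hj
  have hfa : ∀ a, AnalyticAt ℂ (fun w => f w a) z := fun a =>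
    ((ContinuousLinearMap.proj (R := ℂ) (φ := fun _ : ι => ℂ) a).analyticAt (f z)).comp hf
  have h1 : AnalyticAt ℂ (fun w => (f w j)⁻¹ • f w) z :=
    ((hfa j).inv hfj).smul hf
  refine h1.congr ?_
  have hne : ∀ᶠ w in 𝓝 z, f w j ≠ 0 := (hfa j).continuousAt.eventually_ne hfj
  filter_upwards [hw, hne] with w h2 h3
  rw [h2, col_pmv _ h3]
  exact fun h => h3 (by simp [h])

lemma HolomorphicAt.of_eventuallyEq {φ ψ : ℂ → ℙ ℂ (ι → ℂ)} {z : ℂ} (h : HolomorphicAt φ z)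
    (h' : ψ =ᶠ[𝓝 z] φ) : HolomorphicAt ψ z := by
  obtain ⟨f, hf, hw⟩ := h
  refine ⟨f, hf, ?_⟩
  filter_upwards [hw, h'] with w h1 h2
  obtain ⟨h3, h4⟩ := h1
  exact ⟨h3, h2.trans h4⟩

lemma HolomorphicAt.comp {φ : ℂ → ℙ ℂ (ι → ℂ)} {g : ℂ → ℂ} {z : ℂ}
    (h : HolomorphicAt φ (g z)) (hg : AnalyticAt ℂ g z) :
    HolomorphicAt (fun w => φ (g w)) z := by
  obtain ⟨f, hf, hw⟩ := h
  exact ⟨fun w => f (g w), hf.comp hg, hg.continuousAt.eventually hw⟩

/-- a holomorphic curve which is locally constant near one point is constant -/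
lemma eq_of_eventually_const {φ : ℂ → ℙ ℂ (ι → ℂ)} (hφ : ∀ z, HolomorphicAt φ z)
    {p : ℙ ℂ (ι → ℂ)} {z₀ : ℂ} (h : ∃ᶠ w in 𝓝[≠] z₀, φ w = p) : ∀ z, φ z = p := by
  -- local statement
  have key : ∀ z, (∃ᶠ w in 𝓝[≠] z, φ w = p) → ∀ᶠ w in 𝓝 z, φ w = p := by
    intro z hz
    obtain ⟨f, hf, hw⟩ := hφ z
    have hfa : ∀ a, AnalyticAt ℂ (fun w => f w a) z := fun a =>
      ((ContinuousLinearMap.proj (R := ℂ) (φ := fun _ : ι => ℂ) a).analyticAt (f z)).comp hf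
    have hab : ∀ a b, ∀ᶠ w in 𝓝 z, f w a * p.rep b - f w b * p.rep a = 0 := by
      intro a b
      have han : AnalyticAt ℂ (fun w => f w a * p.rep b - f w b * p.rep a) z :=
        ((hfa a).mul analyticAt_const).sub ((hfa b).mul analyticAt_const)
      rw [← han.frequently_zero_iff_eventually_zero]
      have hw' : ∀ᶠ w in 𝓝[≠] z, ∃ h : f w ≠ 0, φ w = Projectivization.mk ℂ (f w) h :=
        hw.filter_mono nhdsWithin_le_nhds
      refine (hz.and_eventually hw').mono ?_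
      rintro w ⟨h1, h2, h3⟩
      rw [h1] at h3
      obtain ⟨t, ht, hrep⟩ := exists_rep_eq h3
      rw [hrep]
      simp only [Pi.smul_apply, smul_eq_mul]
      ring
    have hall : ∀ᶠ w in 𝓝 z, ∀ a b, f w a * p.rep b - f w b * p.rep a = 0 := by
      rw [Filter.eventually_all]
      intro a
      rw [Filter.eventually_all]
      exact hab a
    filter_upwards [hall, hw] with w h1 h2
    obtain ⟨h3, h4⟩ := h2
    rw [h4]
    conv_rhs => rw [← p.mk_rep]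
    rw [Projectivization.mk_eq_mk_iff']
    obtain ⟨c, hc⟩ : ∃ c, p.rep c ≠ 0 := by
      by_contra h
      push Not at h
      exact p.rep_nonzero (funext h)
    refine ⟨f w c / p.rep c, ?_⟩
    funext a
    have := h1 a c
    simp only [Pi.smul_apply, smul_eq_mul]
    field_simp
    linear_combination -this
  have hopen : IsOpen {z | ∀ᶠ w in 𝓝 z, φ w = p} := isOpen_setOf_eventually_nhds
  have hclosed : IsClosed {z | ∀ᶠ w in 𝓝 z, φ w = p} := by
    rw [← isOpen_compl_iff, isOpen_iff_mem_nhds]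
    intro z hz
    have h1 : ¬ ∃ᶠ w in 𝓝[≠] z, φ w = p := fun h => hz (key z h)
    rw [Filter.not_frequently, eventually_nhdsWithin_iff] at h1
    filter_upwards [h1] with w hw
    simp only [Set.mem_compl_iff, Set.mem_setOf_eq]
    by_cases hwz : w = z
    · rw [hwz]
      exact hz
    · intro h2
      exact hw hwz h2.self_of_nhds
  have huniv := IsClopen.eq_univ (s := {z | ∀ᶠ w in 𝓝 z, φ w = p}) ⟨hclosed, hopen⟩
    ⟨z₀, key z₀ h⟩
  intro z
  have : z ∈ {z | ∀ᶠ w in 𝓝 z, φ w = p} := huniv ▸ Set.mem_univ z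
  exact this.self_of_nhds

/-- The division lemma: composing a holomorphic curve with a homogeneous map `G` (which may have
a base locus) gives a holomorphic curve, unless the curve lies in the base locus. -/
theorem exists_division {φ : ℂ → ℙ ℂ (ι → ℂ)} (hφ : ∀ z, HolomorphicAt φ z)
    (G : (ι → ℂ) → (κ → ℂ)) (hG : ∀ x, AnalyticAt ℂ G x) (e : ℕ)
    (hom : ∀ (t : ℂ) x, G (t • x) = t ^ e • G x) {z₀ : ℂ} (h0 : G (φ z₀).rep ≠ 0) :
    ∃ ψ : ℂ → ℙ ℂ (κ → ℂ), (∀ z, HolomorphicAt ψ z) ∧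
      (∀ z (h : G (φ z).rep ≠ 0), ψ z = Projectivization.mk ℂ (G (φ z).rep) h) ∧
      (∀ z, ∀ᶠ w in 𝓝[≠] z, G (φ w).rep ≠ 0) := by
  choose f hf hw using hφ
  -- relation between the representative and the lift
  have hrel : ∀ z, ∀ᶠ w in 𝓝 z, ∃ t : ℂ, t ≠ 0 ∧ G (φ w).rep = t • G (f z w) := by
    intro z
    filter_upwards [hw z] with w h1
    obtain ⟨h2, h3⟩ := h1
    obtain ⟨t, ht, hrep⟩ := exists_rep_eq h3
    exact ⟨t ^ e, pow_ne_zero _ ht, by rw [hrep, hom]⟩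
  have han : ∀ z, AnalyticAt ℂ (fun w => G (f z w)) z := fun z => (hG _).comp (hf z)
  have hzero : ∀ z, (∀ᶠ w in 𝓝 z, G (φ w).rep = 0) ↔ ∀ᶠ w in 𝓝 z, G (f z w) = 0 := by
    intro z
    constructor
    · intro h
      filter_upwards [h, hrel z] with w h1 h2
      obtain ⟨t, ht, h3⟩ := h2
      rw [h3] at h1
      exact (smul_eq_zero.1 h1).resolve_left ht
    · intro h
      filter_upwards [h, hrel z] with w h1 h2
      obtain ⟨t, ht, h3⟩ := h2
      rw [h3, h1, smul_zero]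
  have hne : ∀ z, (¬ ∀ᶠ w in 𝓝 z, G (φ w).rep = 0) → ∀ᶠ w in 𝓝[≠] z, G (φ w).rep ≠ 0 := by
    intro z hz
    rw [hzero] at hz
    have h1 := (han z).eventually_eq_zero_or_eventually_ne_zero.resolve_left hz
    filter_upwards [h1, (hrel z).filter_mono nhdsWithin_le_nhds] with w h2 h3
    obtain ⟨t, ht, h4⟩ := h3
    rw [h4]
    exact smul_ne_zero ht h2
  -- connectedness
  have hopen : IsOpen {z | ∀ᶠ w in 𝓝 z, G (φ w).rep = 0} := isOpen_setOf_eventually_nhds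
  have hclosed : IsClosed {z | ∀ᶠ w in 𝓝 z, G (φ w).rep = 0} := by
    rw [← isOpen_compl_iff, isOpen_iff_mem_nhds]
    intro z hz
    have h1 := hne z hz
    rw [eventually_nhdsWithin_iff] at h1
    filter_upwards [h1] with w hw
    simp only [Set.mem_compl_iff, Set.mem_setOf_eq]
    by_cases hwz : w = z
    · rw [hwz]
      exact hz
    · intro h2
      exact hw hwz h2.self_of_nhds
  have hall : ∀ z, ¬ ∀ᶠ w in 𝓝 z, G (φ w).rep = 0 := by
    intro z hz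
    have huniv := IsClopen.eq_univ (s := {z | ∀ᶠ w in 𝓝 z, G (φ w).rep = 0}) ⟨hclosed, hopen⟩
      ⟨z, hz⟩
    have : z₀ ∈ {z | ∀ᶠ w in 𝓝 z, G (φ w).rep = 0} := huniv ▸ Set.mem_univ z₀
    exact h0 this.self_of_nhds
  have hfac : ∀ z, ∃ (n : ℕ) (g : ℂ → κ → ℂ), AnalyticAt ℂ g z ∧ g z ≠ 0 ∧
      ∀ᶠ w in 𝓝 z, G (f z w) = (w - z) ^ n • g w := fun z =>
    (han z).exists_eventuallyEq_pow_smul_nonzero_iff.2 (fun h => hall z ((hzero z).2 h))
  choose n g hg hgz hfac using hfac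
  have hval : ∀ z (h : G (φ z).rep ≠ 0),
      Projectivization.mk ℂ (g z z) (hgz z) = Projectivization.mk ℂ (G (φ z).rep) h := by
    intro z h
    obtain ⟨t, ht, h3⟩ := (hrel z).self_of_nhds
    have h4 := (hfac z).self_of_nhds
    rw [h4, smul_smul] at h3
    symm
    rw [Projectivization.mk_eq_mk_iff']
    exact ⟨_, h3.symm⟩
  refine ⟨fun z => Projectivization.mk ℂ (g z z) (hgz z), ?_, fun z h => hval z h,
    fun z => hne z (hall z)⟩
  intro z
  refine ⟨g z, hg z, ?_⟩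
  have h1 := hne z (hall z)
  rw [eventually_nhdsWithin_iff] at h1
  filter_upwards [h1, hrel z, hfac z, (hg z).continuousAt.eventually_ne (hgz z)] with w h2 h3 h4 h5
  refine ⟨h5, ?_⟩
  by_cases hwz : w = z
  · subst hwz
    rfl
  · have h6 := h2 hwz
    rw [hval w h6]
    obtain ⟨t, ht, h7⟩ := h3
    rw [Projectivization.mk_eq_mk_iff']
    exact ⟨t * (w - z) ^ n z, by rw [h7, h4, smul_smul]⟩

/-- a closed homogeneous condition that holds in a punctured neighbourhood holds at the point -/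
lemma HolomorphicAt.zero_of_punctured {ψ : ℂ → ℙ ℂ (ι → ℂ)} {z : ℂ} (h : HolomorphicAt ψ z)
    (P : (ι → ℂ) → ℂ) (hP : Continuous P) (hs : ∀ (t : ℂ) x, t ≠ 0 → (P (t • x) = 0 ↔ P x = 0))
    (h0 : ∀ᶠ w in 𝓝[≠] z, P (ψ w).rep = 0) : P (ψ z).rep = 0 := by
  obtain ⟨f, hf, hw⟩ := h
  have hiff : ∀ᶠ w in 𝓝 z, (P (ψ w).rep = 0 ↔ P (f w) = 0) := by
    filter_upwards [hw] with w h1
    obtain ⟨h2, h3⟩ := h1
    obtain ⟨t, ht, h4⟩ := exists_rep_eq h3
    rw [h4, hs t _ ht]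
  rw [hiff.self_of_nhds]
  have h1 : ∀ᶠ w in 𝓝[≠] z, P (f w) = 0 := by
    filter_upwards [h0, hiff.filter_mono nhdsWithin_le_nhds] with w h2 h3
    exact h3.1 h2
  have hc : Tendsto (fun w => P (f w)) (𝓝[≠] z) (𝓝 (P (f z))) :=
    ((hP.continuousAt).comp hf.continuousAt).tendsto.mono_left nhdsWithin_le_nhds
  have hc' : Tendsto (fun w => P (f w)) (𝓝[≠] z) (𝓝 0) :=
    tendsto_const_nhds.congr' (by filter_upwards [h1] with w h using h.symm)
  exact tendsto_nhds_unique hc hc'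

end Pool.Agent.Lib.MP_627a61_nt
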