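import Pool.Agent.Lib.MP_627a61_nt.BrodyCor

/-!
# The Fermat quartic is Brody hyperbolic
-/

open scoped LinearAlgebra.Projectivization Topology ComplexConjugate
open Filter Metric

namespace Pool.Agent.Lib.MP_627a61_nt

variable {ι : Type*} [Fintype ι] {κ : Type*} [Fintype κ]

/-- chain rule for the projector of a curve in terms of a normalised lift -/
lemma fderiv_pm_eq {θ : ℂ → ℙ ℂ (ι → ℂ)} {z : ℂ} (h : HolomorphicAt θ z) {j : ι}
    (hj : pm (θ z) j j ≠ 0) :
    fderiv ℝ (fun w => pm (θ w)) z =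
      (fderiv ℝ (pmv : (ι → ℂ) → ι → ι → ℂ) (col j (pm (θ z)))).comp
        ((ContinuousLinearMap.toSpanSingleton ℂ
          (deriv (fun w => col j (pm (θ w))) z)).restrictScalars ℝ) := by
  have hcont : ContinuousAt (fun w => pm (θ w) j j) z :=
    (continuousAt_pi.1 ((continuousAt_pi.1 h.continuousAt) j)) j
  have e1 : (fun w => pm (θ w)) =ᶠ[𝓝 z] fun w => pmv (col j (pm (θ w))) := by
    filter_upwards [hcont.eventually_ne hj] with w hw
    conv_lhs => rw [mk_col_pm (θ w) hw, pm_mk]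
  rw [e1.fderiv_eq]
  have e2 : HasFDerivAt (pmv : (ι → ℂ) → ι → ι → ℂ)
      (fderiv ℝ (pmv : (ι → ℂ) → ι → ι → ℂ) (col j (pm (θ z)))) (col j (pm (θ z))) :=
    ((contDiffAt_pmv (n := 1) (col_ne_zero hj)).differentiableAt (by norm_num)).hasFDerivAt
  have e3 : HasDerivAt (fun w => col j (pm (θ w)))
      (deriv (fun w => col j (pm (θ w))) z) z :=
    (h.col hj).differentiableAt.hasDerivAt
  have e4 := e3.hasFDerivAt.restrictScalars ℝ
  exact (HasFDerivAt.comp (g := pmv) (f := fun w => col j (pm (θ w))) z e2 e4).fderiv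

lemma spd_eq_zero_of_deriv {θ : ℂ → ℙ ℂ (ι → ℂ)} {z : ℂ} (h : HolomorphicAt θ z) {j : ι}
    (hj : pm (θ z) j j ≠ 0) (hd : deriv (fun w => col j (pm (θ w))) z = 0) : spd θ z = 0 := by
  unfold spd
  rw [fderiv_pm_eq h hj, hd]
  simp

/-- derivative bound for a normalised lift -/
lemma norm_deriv_col_le {θ : ℂ → ℙ ℂ (ι → ℂ)} (h : ∀ w, HolomorphicAt θ w)
    (hs : ∀ w, spd θ w ≤ 2) {z : ℂ} {j : ι} (hj : 1 / (Fintype.card ι : ℝ) ≤ ‖pm (θ z) j j‖) :
    ‖deriv (fun w => col j (pm (θ w))) z‖ ≤ 16 * (Fintype.card ι : ℝ) ^ 2 := by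
  have hN := card_pos_of_point (θ z)
  have hlip : ∀ x y, ‖pm (θ x) - pm (θ y)‖ ≤ 2 * ‖x - y‖ := fun x y =>
    lipschitz_of_spd (C := 2) convex_univ (fun z _ => h z) (fun z _ => hs z)
      (Set.mem_univ y) (Set.mem_univ x)
  have hlt : 1 / (2 * (Fintype.card ι : ℝ)) < ‖pm (θ z) j j‖ := by
    refine lt_of_lt_of_le ?_ hj
    rw [div_lt_div_iff₀ (by positivity) hN]
    linarith
  have hcont : ContinuousAt (fun w => pm (θ w) j j) z :=
    (continuousAt_pi.1 ((continuousAt_pi.1 (h z).continuousAt) j)) j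
  have hev : ∀ᶠ w in 𝓝 z, 1 / (2 * (Fintype.card ι : ℝ)) < ‖pm (θ w) j j‖ :=
    hcont.norm.eventually_const_lt hlt
  have h0 : pm (θ z) j j ≠ 0 := by
    intro h
    rw [h, norm_zero] at hlt
    exact absurd hlt (not_lt.2 (by positivity))
  have hd : DifferentiableAt ℂ (fun w => col j (pm (θ w))) z := ((h z).col h0).differentiableAt
  refine hd.hasDerivAt.le_of_lip' (by positivity) ?_
  filter_upwards [hev] with w hw
  have h4 := norm_col_sub_le hN (j := j) (P := pm (θ w)) (Q := pm (θ z))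
    (norm_pm_le_one _) hw.le hlt.le
  calc _ ≤ 8 * (Fintype.card ι : ℝ) ^ 2 * ‖pm (θ w) - pm (θ z)‖ := h4
    _ ≤ 8 * (Fintype.card ι : ℝ) ^ 2 * (2 * ‖w - z‖) := by gcongr; exact hlip w z
    _ = 16 * (Fintype.card ι : ℝ) ^ 2 * ‖w - z‖ := by ring

/-- components of the cross product -/
def crs (i : Fin 3) (f g : Fin 3 → ℂ) : ℂ := f (i + 1) * g (i + 2) - f (i + 2) * g (i + 1)

lemma crs_rel {f g : Fin 3 → ℂ} (h1 : f 0 ^ 4 + f 1 ^ 4 + f 2 ^ 4 = 0)
    (h2 : f 0 ^ 3 * g 0 + f 1 ^ 3 * g 1 + f 2 ^ 3 * g 2 = 0) (i j : Fin 3) :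
    crs i f g * f j ^ 3 = crs j f g * f i ^ 3 := by
  have e01 : (f 1 * g 2 - f 2 * g 1) * f 1 ^ 3 = (f 2 * g 0 - f 0 * g 2) * f 0 ^ 3 := by
    linear_combination g 2 * h1 - f 2 * h2
  have e12 : (f 2 * g 0 - f 0 * g 2) * f 2 ^ 3 = (f 0 * g 1 - f 1 * g 0) * f 1 ^ 3 := by
    linear_combination g 0 * h1 - f 0 * h2
  have e20 : (f 0 * g 1 - f 1 * g 0) * f 0 ^ 3 = (f 1 * g 2 - f 2 * g 1) * f 2 ^ 3 := by
    linear_combination g 1 * h1 - f 1 * h2
  fin_cases i <;> fin_cases j <;> simp [crs] <;>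
    first
      | exact e01
      | exact e12
      | exact e20
      | exact e01.symm
      | exact e12.symm
      | exact e20.symm

lemma crs_smul (i : Fin 3) (f g : Fin 3 → ℂ) (t s : ℂ) :
    crs i (t • f) (s • f + t • g) = t ^ 2 * crs i f g := by
  simp only [crs, Pi.smul_apply, Pi.add_apply, smul_eq_mul]
  ring

/-- The Fermat quartic. -/
def fermat4 : Set (ℙ ℂ (Fin 3 → ℂ)) := {x | x.rep 0 ^ 4 + x.rep 1 ^ 4 + x.rep 2 ^ 4 = 0}

lemma fermat4_of_smul {x : ℙ ℂ (Fin 3 → ℂ)} (hx : x ∈ fermat4) (t : ℂ) :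
    (t • x.rep) 0 ^ 4 + (t • x.rep) 1 ^ 4 + (t • x.rep) 2 ^ 4 = 0 := by
  have : x.rep 0 ^ 4 + x.rep 1 ^ 4 + x.rep 2 ^ 4 = 0 := hx
  simp only [Pi.smul_apply, smul_eq_mul]
  linear_combination t ^ 4 * this

lemma col_fermat4 {x : ℙ ℂ (Fin 3 → ℂ)} (hx : x ∈ fermat4) {j : Fin 3} (hj : pm x j j ≠ 0) :
    col j (pm x) 0 ^ 4 + col j (pm x) 1 ^ 4 + col j (pm x) 2 ^ 4 = 0 := by
  have h1 : x.rep j ≠ 0 := (pmv_diag_ne_zero_iff x.rep_nonzero j).1 hj
  rw [pm, col_pmv x.rep_nonzero h1]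
  exact fermat4_of_smul hx _

lemma pclosed_fermat4 : PClosed fermat4 := by
  apply isClosed_of_closure_subset
  intro P hP
  rw [mem_closure_iff_seq_limit] at hP
  obtain ⟨Q, hQ, hlim⟩ := hP
  choose q hq hqQ using hQ
  have hlim' : Tendsto (fun i => pm (q i)) (hyperfilter ℕ : Filter ℕ) (𝓝 P) := by
    have : (fun i => pm (q i)) = Q := funext hqQ
    rw [this]
    exact hlim.mono_left Nat.hyperfilter_le_atTop
  obtain ⟨p, hp⟩ := exists_pm_limit (hyperfilter ℕ) q
  have hPp : P = pm p := tendsto_nhds_unique hlim' hp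
  refine ⟨p, ?_, hPp.symm⟩
  obtain ⟨j, hj⟩ := exists_diag_pm p
  have hN := card_pos_of_point p
  have hj0 : pm p j j ≠ 0 := by
    intro h
    rw [h, norm_zero] at hj
    exact absurd hj (not_le.2 (by positivity))
  have hcol : ContinuousAt (fun Q : Fin 3 → Fin 3 → ℂ =>
      col j Q 0 ^ 4 + col j Q 1 ^ 4 + col j Q 2 ^ 4) (pm p) := by
    have h2 : ∀ a, ContinuousAt (fun Q : Fin 3 → Fin 3 → ℂ => col j Q a) (pm p) := by
      intro a
      have ha : Continuous fun Q : Fin 3 → Fin 3 → ℂ => Q a j := by fun_prop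
      have hb : Continuous fun Q : Fin 3 → Fin 3 → ℂ => Q j j := by fun_prop
      exact ha.continuousAt.div hb.continuousAt hj0
    exact (((h2 0).pow 4).add ((h2 1).pow 4)).add ((h2 2).pow 4)
  have h5 := hcol.tendsto.comp hp
  have hne : ∀ᶠ i in (hyperfilter ℕ : Filter ℕ), pm (q i) j j ≠ 0 := by
    have hjj : Tendsto (fun i => pm (q i) j j) (hyperfilter ℕ : Filter ℕ) (𝓝 (pm p j j)) :=
      (tendsto_pi_nhds.1 ((tendsto_pi_nhds.1 hp) j)) j
    exact hjj.eventually_ne hj0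
  have h6 : Tendsto (fun _ : ℕ => (0 : ℂ)) (hyperfilter ℕ : Filter ℕ)
      (𝓝 (col j (pm p) 0 ^ 4 + col j (pm p) 1 ^ 4 + col j (pm p) 2 ^ 4)) := by
    refine h5.congr' ?_
    filter_upwards [hne] with i hi
    exact col_fermat4 (hq i) hi
  have h7 := tendsto_nhds_unique h6 tendsto_const_nhds
  have h8 : p.rep j ≠ 0 := (pmv_diag_ne_zero_iff p.rep_nonzero j).1 hj0
  rw [pm, col_pmv p.rep_nonzero h8] at h7
  simp only [Pi.smul_apply, smul_eq_mul] at h7
  have h9 : ((p.rep j)⁻¹) ^ 4 * (p.rep 0 ^ 4 + p.rep 1 ^ 4 + p.rep 2 ^ 4) = 0 := by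
    linear_combination h7
  exact (mul_eq_zero.1 h9).resolve_left (pow_ne_zero _ (inv_ne_zero h8))

/-- The Fermat quartic contains no nonconstant entire curve. -/
theorem brodyHyperbolic_fermat4 : BrodyHyperbolic fermat4 := by
  by_contra hcon
  obtain ⟨χ, hχ, hχY, hs, hnc⟩ := exists_bounded_speed_curve pclosed_fermat4 hcon
  apply hnc
  -- normalised lifts
  set g : Fin 3 → ℂ → Fin 3 → ℂ := fun j w => col j (pm (χ w)) with hg
  have hcont : ∀ j z, ContinuousAt (fun w => pm (χ w) j j) z := fun j z =>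
    (continuousAt_pi.1 ((continuousAt_pi.1 (hχ z).continuousAt) j)) j
  have hgj : ∀ j z, pm (χ z) j j ≠ 0 → g j z j = 1 := fun j z h => by
    simp [hg, col, h]
  have hga : ∀ j z, pm (χ z) j j ≠ 0 → AnalyticAt ℂ (g j) z := fun j z h => (hχ z).col h
  -- the relation and its derivative
  have hrel : ∀ j z, pm (χ z) j j ≠ 0 →
      g j z 0 ^ 4 + g j z 1 ^ 4 + g j z 2 ^ 4 = 0 := fun j z h => col_fermat4 (hχY z) h
  have hcomp : ∀ j z, pm (χ z) j j ≠ 0 → ∀ a,
      HasDerivAt (fun w => g j w a) (deriv (g j) z a) z := by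
    intro j z h a
    exact (hasDerivAt_pi.1 (hga j z h).differentiableAt.hasDerivAt) a
  have hrel' : ∀ j z, pm (χ z) j j ≠ 0 →
      g j z 0 ^ 3 * deriv (g j) z 0 + g j z 1 ^ 3 * deriv (g j) z 1
        + g j z 2 ^ 3 * deriv (g j) z 2 = 0 := by
    intro j z h
    have h1 := (((hcomp j z h 0).pow 4).add ((hcomp j z h 1).pow 4)).add ((hcomp j z h 2).pow 4)
    have h2 : (fun w => g j w 0 ^ 4 + g j w 1 ^ 4 + g j w 2 ^ 4) =ᶠ[𝓝 z] fun _ => 0 := by
      filter_upwards [(hcont j z).eventually_ne h] with w hw using hrel j w hw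
    have h3 := h1.unique ((hasDerivAt_const z (0 : ℂ)).congr_of_eventuallyEq h2)
    simp only [Nat.cast_ofNat, Nat.add_one_sub_one] at h3
    linear_combination h3 / 4
  have hcrs : ∀ j z, pm (χ z) j j ≠ 0 → ∀ a b,
      crs a (g j z) (deriv (g j) z) * g j z b ^ 3 = crs b (g j z) (deriv (g j) z) * g j z a ^ 3 :=
    fun j z h a b => crs_rel (hrel j z h) (hrel' j z h) a b
  -- transition between lifts
  have htrans : ∀ i j z, pm (χ z) i i ≠ 0 → pm (χ z) j j ≠ 0 → ∀ b,
      g i z b * crs i (g i z) (deriv (g i) z) = g j z b * crs j (g j z) (deriv (g j) z) := by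
    intro i j z hi hj b
    have hne : g j z i ≠ 0 := by
      have h1 : (χ z).rep i ≠ 0 := (pmv_diag_ne_zero_iff (χ z).rep_nonzero i).1 hi
      have h2 : (χ z).rep j ≠ 0 := (pmv_diag_ne_zero_iff (χ z).rep_nonzero j).1 hj
      simp only [hg, pm, col_pmv (χ z).rep_nonzero h2, Pi.smul_apply, smul_eq_mul]
      exact mul_ne_zero (inv_ne_zero h2) h1
    have heq : g i =ᶠ[𝓝 z] fun w => (g j w i)⁻¹ • g j w := by
      filter_upwards [(hcont i z).eventually_ne hi, (hcont j z).eventually_ne hj] with w h1 h2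
      have h3 : (χ w).rep i ≠ 0 := (pmv_diag_ne_zero_iff (χ w).rep_nonzero i).1 h1
      have h4 : (χ w).rep j ≠ 0 := (pmv_diag_ne_zero_iff (χ w).rep_nonzero j).1 h2
      simp only [hg, pm, col_pmv (χ w).rep_nonzero h3, col_pmv (χ w).rep_nonzero h4]
      funext a
      simp only [Pi.smul_apply, smul_eq_mul]
      field_simp
    have hd : HasDerivAt (fun w => (g j w i)⁻¹ • g j w)
        ((g j z i)⁻¹ • deriv (g j) z + (-deriv (g j) z i / g j z i ^ 2) • g j z) z :=
      ((hcomp j z hj i).inv hne).smul (hga j z hj).differentiableAt.hasDerivAt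
    have hd' : deriv (g i) z = (-deriv (g j) z i / g j z i ^ 2) • g j z
        + (g j z i)⁻¹ • deriv (g j) z := by
      rw [heq.deriv_eq, hd.deriv, add_comm]
    have hv : g i z = (g j z i)⁻¹ • g j z := heq.self_of_nhds
    rw [hd', hv, crs_smul]
    simp only [Pi.smul_apply, smul_eq_mul]
    have h5 := hcrs j z hj i j
    rw [hgj j z hj, one_pow, mul_one] at h5
    rw [h5]
    field_simp
  -- the differential forms
  choose J hJ using fun z => exists_diag_pm (χ z)
  have hJ0 : ∀ z, pm (χ z) (J z) (J z) ≠ 0 := by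
    intro z h
    have h1 := hJ z
    rw [h, norm_zero] at h1
    exact absurd h1 (not_le.2 (by simp))
  set ω : Fin 3 → ℂ → ℂ := fun b z =>
    g (J z) z b * crs (J z) (g (J z) z) (deriv (g (J z)) z) with hω
  have hωd : ∀ b, Differentiable ℂ (ω b) := by
    intro b z
    have h1 : ω b =ᶠ[𝓝 z] fun w => g (J z) w b * crs (J z) (g (J z) w) (deriv (g (J z)) w) := by
      filter_upwards [(hcont (J z) z).eventually_ne (hJ0 z)] with w hw
      exact htrans (J w) (J z) w (hJ0 w) hw b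
    refine DifferentiableAt.congr_of_eventuallyEq ?_ h1
    have h2 : ∀ a, AnalyticAt ℂ (fun w => g (J z) w a) z := fun a =>
      ((ContinuousLinearMap.proj (R := ℂ) (φ := fun _ : Fin 3 => ℂ) a).analyticAt _).comp
        (hga (J z) z (hJ0 z))
    have h3 : ∀ a, AnalyticAt ℂ (fun w => deriv (g (J z)) w a) z := fun a =>
      ((ContinuousLinearMap.proj (R := ℂ) (φ := fun _ : Fin 3 => ℂ) a).analyticAt _).comp
        (hga (J z) z (hJ0 z)).deriv
    exact ((h2 b).mul (((h2 _).mul (h3 _)).sub ((h2 _).mul (h3 _)))).differentiableAt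
  have hωb : ∀ b z, ‖ω b z‖ ≤ 3 * (2 * (3 * (16 * 3 ^ 2))) := by
    intro b z
    have h1 : ∀ a, ‖g (J z) z a‖ ≤ 3 := by
      intro a
      simp only [hg, col, norm_div]
      have h2 := hJ z
      have h3 : ‖pm (χ z) a (J z)‖ ≤ 1 :=
        ((norm_le_pi_norm (pm (χ z) a) (J z)).trans (norm_le_pi_norm (pm (χ z)) a)).trans
          (norm_pm_le_one _)
      simp only [Fintype.card_fin, Nat.cast_ofNat] at h2
      rw [div_le_iff₀ (lt_of_lt_of_le (by norm_num) h2)]
      linarith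
    have h4 : ∀ a, ‖deriv (g (J z)) z a‖ ≤ 16 * 3 ^ 2 := by
      intro a
      have h5 := norm_deriv_col_le hχ hs (hJ z)
      simp only [Fintype.card_fin, Nat.cast_ofNat] at h5
      exact (norm_le_pi_norm _ a).trans h5
    have h6 : ‖crs (J z) (g (J z) z) (deriv (g (J z)) z)‖ ≤ 2 * (3 * (16 * 3 ^ 2)) := by
      unfold crs
      calc _ ≤ ‖g (J z) z (J z + 1) * deriv (g (J z)) z (J z + 2)‖
            + ‖g (J z) z (J z + 2) * deriv (g (J z)) z (J z + 1)‖ := norm_sub_le _ _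
        _ ≤ 3 * (16 * 3 ^ 2) + 3 * (16 * 3 ^ 2) := by
            rw [norm_mul, norm_mul]
            gcongr
            · exact h1 _
            · exact h4 _
            · exact h1 _
            · exact h4 _
        _ = 2 * (3 * (16 * 3 ^ 2)) := by ring
    simp only [hω, norm_mul]
    gcongr
    exact h1 b
  have hconst : ∀ b z, ω b z = ω b 0 := by
    intro b z
    refine (hωd b).apply_eq_apply_of_bounded ?_ z 0
    rw [Metric.isBounded_iff_subset_closedBall 0]
    refine ⟨3 * (2 * (3 * (16 * 3 ^ 2))), ?_⟩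
    rintro _ ⟨w, rfl⟩
    simpa using hωb b w
  by_cases hall : ∀ b, ω b 0 = 0
  · -- all differential forms vanish: zero speed
    apply eq_of_spd_eq_zero hχ
    intro z
    refine spd_eq_zero_of_deriv (hχ z) (hJ0 z) ?_
    have h1 : crs (J z) (g (J z) z) (deriv (g (J z)) z) = 0 := by
      have h2 := (hconst (J z) z).trans (hall (J z))
      simp only [hω] at h2
      rwa [hgj _ _ (hJ0 z), one_mul] at h2
    have h3 : ∀ a, crs a (g (J z) z) (deriv (g (J z)) z) = 0 := by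
      intro a
      have h4 := hcrs (J z) z (hJ0 z) a (J z)
      rw [h1, zero_mul, hgj _ _ (hJ0 z)] at h4
      simpa using h4
    have h5 : deriv (g (J z)) z (J z) = 0 := by
      have h6 : (fun w => g (J z) w (J z)) =ᶠ[𝓝 z] fun _ => 1 := by
        filter_upwards [(hcont (J z) z).eventually_ne (hJ0 z)] with w hw using hgj _ _ hw
      exact (hcomp (J z) z (hJ0 z) (J z)).unique
        ((hasDerivAt_const z (1 : ℂ)).congr_of_eventuallyEq h6)
    have h7 := hgj _ _ (hJ0 z)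
    change deriv (g (J z)) z = 0
    generalize J z = j at h3 h5 h7
    funext a
    have k0 := h3 0
    have k1 := h3 1
    have k2 := h3 2
    simp only [crs, Fin.isValue, zero_add, Fin.reduceAdd] at k0 k1 k2
    fin_cases j <;> simp only [Fin.zero_eta, Fin.mk_one, Fin.reduceFinMk] at h5 h7 <;>
      fin_cases a <;> simp_all
  · -- some form is nonzero: the curve is constant
    push Not at hall
    obtain ⟨b, hb⟩ := hall
    have hc : (fun a => ω a 0) ≠ 0 := fun h => hb (congrFun h b)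
    have hpt : ∀ z, χ z = Projectivization.mk ℂ (fun a => ω a 0) hc := by
      intro z
      rw [mk_col_pm (χ z) (hJ0 z)]
      symm
      rw [Projectivization.mk_eq_mk_iff']
      refine ⟨crs (J z) (g (J z) z) (deriv (g (J z)) z), ?_⟩
      funext a
      rw [← hconst a z]
      simp only [hω, Pi.smul_apply, smul_eq_mul]
      exact mul_comm _ _
    intro z w
    rw [hpt z, hpt w]

end Pool.Agent.Lib.MP_627a61_nt
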