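import Pool.Agent.Lib.MP_627a61_nt.Defs

/-!
# Definitions for the reduction to cyclic covers of projective spaces
-/

open scoped LinearAlgebra.Projectivization

namespace Pool.Agent.Lib.MP_627a61_nt

/-- The vector with the coordinate `y` and all products of `m` of the coordinates of `x`. -/
def coverVec {ι K : Type*} [CommMonoid K] (m : ℕ) (x : ι → K) (y : K) : Option (Fin m → ι) → K
  | none => y
  | some α => ∏ a, x (α a)

/-- The `e`-fold cyclic cover `y ^ e = F(x)` of projective space, for `F` homogeneous of degree
`e * m` with coefficients mapped by `τ`, embedded in projective space by `y` and all products of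
`m` of the coordinates of `x`. -/
def cyclicCover {ι k K : Type*} [CommSemiring k] [Field K] (τ : k →+* K) (e m : ℕ)
    (F : MvPolynomial ι k) : Set (ℙ K (Option (Fin m → ι) → K)) :=
  {p | ∃ (x : ι → K) (y : K) (h : coverVec m x y ≠ 0), y ^ e = F.eval₂ τ x ∧
    p = Projectivization.mk K (coverVec m x y) h}

end Pool.Agent.Lib.MP_627a61_nt
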