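import Pool.Agent.Lib.MP_627a61_nt.CyclicRelDefs

/-!
# Definitions for the dimension-explicit reduction to cyclic covers, absolute form
-/

open scoped LinearAlgebra.Projectivization

namespace Pool.Agent.Lib.MP_627a61_nt

/-- The question over `k` in dimension at most `d`, for varieties which are Kobayashi hyperbolic
at all embeddings of `k` in the complex numbers. -/
def FiniteInDim (k : Type) [Field k] (d : ℕ) : Prop :=
  ∀ (N : ℕ) (S : Set (MvPolynomial (Fin (N + 1)) k)), (∀ P ∈ S, ∃ a, P.IsHomogeneous a) →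
    ringKrullDim (MvPolynomial (Fin (N + 1)) k ⧸ Ideal.span S) ≤ ((d + 1 : ℕ) : WithBot ℕ∞) →
    (∀ σ : k →+* ℂ, KobayashiHyperbolic (points σ S)) → (points (RingHom.id k) S).Finite

end Pool.Agent.Lib.MP_627a61_nt
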