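import Pool.Agent.Lib.MP_627a61_nt.Embed

/-!
# Smooth members of the pencil `M F₀ + E`
-/

open scoped LinearAlgebra.Projectivization Topology
open Filter Metric MvPolynomial

namespace Pool.Agent.Lib.MP_627a61_nt

section pencil

variable {V k K : Type*} [Fintype V] [DecidableEq V] [Field k] [Field K] [Algebra k K]

omit [Fintype V] [DecidableEq V] in
lemma isHomogeneous_pderiv {F : MvPolynomial V k} {m : ℕ} (hF : F.IsHomogeneous m) (i : V) :
    (pderiv i F).IsHomogeneous (m - 1) := hF.pderiv

/-- evaluation of a homogeneous polynomial through its coefficients -/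
lemma aeval_eq_sum_antidiag {H : MvPolynomial V k} {R : ℕ} (hH : H.IsHomogeneous R) (x : V → K) :
    aeval x H = ∑ γ : (Finset.univ : Finset V).finsuppAntidiag R,
      algebraMap k K (coeff γ.1 H) * ∏ i, x i ^ γ.1 i := by
  rw [aeval_def, eval₂_eq']
  rw [Finset.sum_coe_sort ((Finset.univ : Finset V).finsuppAntidiag R)
    (fun γ => algebraMap k K (coeff γ H) * ∏ i, x i ^ γ i)]
  apply Finset.sum_subset
  · intro d hd
    rw [Finset.mem_finsuppAntidiag]
    refine ⟨?_, Finset.subset_univ _⟩
    have h1 := hH.degree_eq_sum_deg_support hd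
    rw [h1]
    symm
    apply Finset.sum_subset (Finset.subset_univ _)
    intro i _ hi
    simpa using hi
  · intro d _ hd
    rw [MvPolynomial.notMem_support_iff.1 hd, map_zero, zero_mul]

/-- The linear algebra argument for generic smoothness in a pencil. -/
theorem finite_singular [CharZero K] {F₀ E : MvPolynomial V k} {m R : ℕ}
    (hF₀ : F₀.IsHomogeneous m) (hR : m - 1 ≤ R)
    (hdec : ∀ α ∈ (Finset.univ : Finset V).finsuppAntidiag R, ∃ A : V → MvPolynomial V k,
      (∀ i, (A i).IsHomogeneous (R - (m - 1))) ∧ ∑ i, A i * pderiv i E = monomial α 1) :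
    {M : ℕ | ∃ x : V → K, x ≠ 0 ∧
      ∀ i, aeval x (pderiv i ((M : MvPolynomial V k) * F₀ + E)) = 0}.Finite := by
  classical
  set 𝓜 := (Finset.univ : Finset V).finsuppAntidiag R with h𝓜
  choose A hA1 hA2 using hdec
  set H : 𝓜 → MvPolynomial V k := fun α => ∑ i, A α.1 α.2 i * pderiv i F₀ with hH
  have hHhom : ∀ α, (H α).IsHomogeneous R := by
    intro α
    apply IsHomogeneous.sum
    intro i _
    have h1 := (hA1 α.1 α.2 i).mul (isHomogeneous_pderiv hF₀ i)
    rwa [Nat.sub_add_cancel hR] at h1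
  let T : Module.End K (𝓜 → K) :=
    { toFun := fun v α => ∑ γ : 𝓜, algebraMap k K (coeff γ.1 (H α)) * v γ
      map_add' := by
        intro v w
        funext α
        simp only [Pi.add_apply, mul_add, Finset.sum_add_distrib]
      map_smul' := by
        intro c v
        funext α
        simp only [Pi.smul_apply, smul_eq_mul, RingHom.id_apply, Finset.mul_sum]
        exact Finset.sum_congr rfl fun γ _ => by ring }
  have hfin := T.finite_hasEigenvalue
  have hsub : {M : ℕ | ∃ x : V → K, x ≠ 0 ∧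
      ∀ i, aeval x (pderiv i ((M : MvPolynomial V k) * F₀ + E)) = 0} ⊆
      {0} ∪ (fun M : ℕ => -(M : K)⁻¹) ⁻¹' {μ | T.HasEigenvalue μ} := by
    rintro M ⟨x, hx, hM⟩
    by_cases hM0 : M = 0
    · left; exact hM0
    right
    have hMK : (M : K) ≠ 0 := by exact_mod_cast hM0
    simp only [Set.mem_preimage]
    set v : 𝓜 → K := fun γ => ∏ i, x i ^ γ.1 i with hv
    have hv0 : v ≠ 0 := by
      obtain ⟨a, ha⟩ : ∃ a, x a ≠ 0 := by
        by_contra h
        push Not at h
        exact hx (funext h)
      have hmem : Finsupp.single a R ∈ 𝓜 := by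
        rw [h𝓜, Finset.mem_finsuppAntidiag]
        refine ⟨?_, Finset.subset_univ _⟩
        simp [Finsupp.single_apply]
      intro h
      have h1 := congrFun h ⟨_, hmem⟩
      simp only [hv, Pi.zero_apply] at h1
      rw [Finset.prod_eq_zero_iff] at h1
      obtain ⟨i, -, hi⟩ := h1
      by_cases hia : a = i
      · subst hia
        rw [Finsupp.single_eq_same] at hi
        have hR0 : R ≠ 0 := by
          rintro hR0
          rw [hR0, pow_zero] at hi
          exact one_ne_zero hi
        exact ha ((pow_eq_zero_iff hR0).1 hi)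
      · rw [Finsupp.single_eq_of_ne (Ne.symm hia), pow_zero] at hi
        exact one_ne_zero hi
    have hTv : T v = (-(M : K)⁻¹) • v := by
      funext α
      have e1 : T v α = aeval x (H α) := by
        rw [aeval_eq_sum_antidiag (hHhom α) x]
        rfl
      have e2 : v α = aeval x (monomial α.1 (1 : k)) := by
        rw [aeval_monomial]
        simp only [map_one, one_mul, hv]
        rw [Finsupp.prod_fintype]
        intro i
        exact pow_zero _
      have e3 : (M : K) * aeval x (H α) + aeval x (monomial α.1 (1 : k)) = 0 := by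
        rw [← hA2 α.1 α.2]
        simp only [hH, map_sum, map_mul, Finset.mul_sum]
        rw [← Finset.sum_add_distrib]
        apply Finset.sum_eq_zero
        intro i _
        have h2 := hM i
        have h3 : pderiv i ((M : MvPolynomial V k) * F₀ + E) =
            (M : MvPolynomial V k) * pderiv i F₀ + pderiv i E := by
          rw [map_add, pderiv_mul]
          have : pderiv i (M : MvPolynomial V k) = 0 := by
            rw [← map_natCast (C : k →+* MvPolynomial V k) M]
            exact pderiv_C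
          rw [this]
          ring
        rw [h3, map_add, map_mul, map_natCast] at h2
        linear_combination (aeval x (A α.1 α.2 i)) * h2
      rw [e1, Pi.smul_apply, smul_eq_mul, e2]
      field_simp
      linear_combination e3
    exact Module.End.hasEigenvalue_of_hasEigenvector
      ⟨Module.End.mem_eigenspace_iff.2 hTv, hv0⟩
  refine Set.Finite.subset ?_ hsub
  refine (Set.finite_singleton 0).union (hfin.preimage ?_)
  intro a _ b _ hab
  simp only at hab
  have h1 := neg_injective hab
  have h2 := inv_injective h1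
  exact_mod_cast h2

end pencil

section explicit

variable {ι κ k : Type*} [Fintype ι] [Fintype κ] [Field k]

/-- The smooth hypersurface `∑_l y_l ^ m + ∑_j y_(f j) x_j ^ (m-1) = 0` containing the linear
space `y = 0`. -/
noncomputable def smE (k : Type*) [Field k] (f : ι ↪ κ) (m : ℕ) : MvPolynomial (ι ⊕ κ) k :=
  (∑ j : ι, X (Sum.inr (f j)) * X (Sum.inl j) ^ (m - 1)) + ∑ l : κ, X (Sum.inr l) ^ m

lemma smE_homog {f : ι ↪ κ} {m : ℕ} (hm : 1 ≤ m) : (smE k f m).IsHomogeneous m := by
  apply IsHomogeneous.add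
  · apply IsHomogeneous.sum
    intro j _
    have h1 := (isHomogeneous_X k (Sum.inr (f j) : ι ⊕ κ)).mul
      (isHomogeneous_X_pow (R := k) (Sum.inl j : ι ⊕ κ) (m - 1))
    rwa [Nat.add_sub_cancel' hm] at h1
  · apply IsHomogeneous.sum
    intro j _
    exact isHomogeneous_X_pow (R := k) (Sum.inr j : ι ⊕ κ) m

lemma pderiv_inl_smE (f : ι ↪ κ) (m : ℕ) (j : ι) : pderiv (Sum.inl j) (smE k f m) =
    C ((m - 1 : ℕ) : k) * X (Sum.inr (f j)) * X (Sum.inl j) ^ (m - 2) := by
  have h2 : pderiv (Sum.inl j) (∑ l : κ, (X (Sum.inr l) ^ m : MvPolynomial (ι ⊕ κ) k)) = 0 := by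
    rw [map_sum]
    apply Finset.sum_eq_zero
    intro l _
    rw [pderiv_pow, pderiv_X_of_ne (by simp), mul_zero]
  rw [smE, map_add, h2, add_zero, map_sum, Finset.sum_eq_single j]
  · rw [pderiv_mul, pderiv_X_of_ne (by simp), pderiv_pow, pderiv_X_self]
    have : m - 1 - 1 = m - 2 := by omega
    rw [this, map_natCast]
    ring
  · intro b _ hb
    rw [pderiv_mul, pderiv_X_of_ne (by simp), pderiv_pow,
      pderiv_X_of_ne (by simpa using hb)]
    ring
  · intro h; exact absurd (Finset.mem_univ j) h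

lemma pderiv_inr_sum (m : ℕ) (l : κ) :
    pderiv (Sum.inr l) (∑ l : κ, (X (Sum.inr l) ^ m : MvPolynomial (ι ⊕ κ) k)) =
      C (m : k) * X (Sum.inr l) ^ (m - 1) := by
  rw [map_sum, Finset.sum_eq_single l]
  · rw [pderiv_pow, pderiv_X_self, map_natCast]
    ring
  · intro b _ hb
    rw [pderiv_pow, pderiv_X_of_ne (by simpa using hb)]
    ring
  · intro h; exact absurd (Finset.mem_univ l) h

lemma pderiv_inr_smE (f : ι ↪ κ) (m : ℕ) (j : ι) :
    pderiv (Sum.inr (f j)) (smE k f m) =
      X (Sum.inl j) ^ (m - 1) + C (m : k) * X (Sum.inr (f j)) ^ (m - 1) := by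
  rw [smE, map_add, pderiv_inr_sum]
  congr 1
  rw [map_sum, Finset.sum_eq_single j]
  · rw [pderiv_mul, pderiv_X_self, pderiv_pow, pderiv_X_of_ne (by simp)]
    ring
  · intro b _ hb
    rw [pderiv_mul, pderiv_X_of_ne (by simpa using hb), pderiv_pow,
      pderiv_X_of_ne (by simp)]
    ring
  · intro h; exact absurd (Finset.mem_univ j) h

lemma pderiv_inr_smE_of_notMem (f : ι ↪ κ) (m : ℕ) {l : κ} (hl : ∀ j, f j ≠ l) :
    pderiv (Sum.inr l) (smE k f m) = C (m : k) * X (Sum.inr l) ^ (m - 1) := by
  rw [smE, map_add, pderiv_inr_sum, map_sum, Finset.sum_eq_zero, zero_add]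
  intro b _
  rw [pderiv_mul, pderiv_X_of_ne (by simpa using hl b), pderiv_pow,
    pderiv_X_of_ne (by simp)]
  ring

/-- Every monomial of large degree is in the Jacobian ideal, with homogeneous coefficients. -/
lemma smE_dec [DecidableEq ι] [DecidableEq κ] [CharZero k] [Nonempty ι] {f : ι ↪ κ} {m : ℕ}
    (hm : 2 ≤ m) {R : ℕ} (hR : Fintype.card (ι ⊕ κ) * (2 * m) ≤ R) :
    ∀ α ∈ (Finset.univ : Finset (ι ⊕ κ)).finsuppAntidiag R, ∃ A : ι ⊕ κ → MvPolynomial (ι ⊕ κ) k,
      (∀ i, (A i).IsHomogeneous (R - (m - 1))) ∧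
        ∑ i, A i * pderiv i (smE k f m) = monomial α 1 := by
  intro α hα
  rw [Finset.mem_finsuppAntidiag] at hα
  have hsum : ∑ i, α i = R := hα.1
  obtain ⟨i, hi⟩ : ∃ i, 2 * m ≤ α i := by
    by_contra h
    push Not at h
    have h1 : ∑ i, α i < ∑ _i : ι ⊕ κ, 2 * m := by
      obtain ⟨i₀⟩ : Nonempty (ι ⊕ κ) := inferInstance
      exact Finset.sum_lt_sum_of_nonempty ⟨i₀, Finset.mem_univ _⟩ fun i _ => h i
    rw [Finset.sum_const, Finset.card_univ, smul_eq_mul] at h1
    omega
  have hdeg : α.degree = R := by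
    rw [← hsum]
    apply Finset.sum_subset (Finset.subset_univ _)
    intro i _ hi
    simpa using hi
  -- general assembly
  have key : ∀ (c₁ c₂ : ι ⊕ κ) (_ : c₁ ≠ c₂) (a b : MvPolynomial (ι ⊕ κ) k),
      a.IsHomogeneous (R - (m - 1)) → b.IsHomogeneous (R - (m - 1)) →
      a * pderiv c₁ (smE k f m) + b * pderiv c₂ (smE k f m) = monomial α 1 →
      ∃ A : ι ⊕ κ → MvPolynomial (ι ⊕ κ) k,
      (∀ i, (A i).IsHomogeneous (R - (m - 1))) ∧
        ∑ i, A i * pderiv i (smE k f m) = monomial α 1 := by
    intro c₁ c₂ hc a b ha hb hab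
    refine ⟨fun i => if i = c₁ then a else if i = c₂ then b else 0, ?_, ?_⟩
    · intro i
      dsimp only
      split_ifs
      · exact ha
      · exact hb
      · exact isHomogeneous_zero _ _ _
    · rw [← hab]
      rw [Finset.sum_eq_add c₁ c₂ hc]
      · simp [hc.symm]
      · intro c _ hc
        simp [hc.1, hc.2]
      · intro h; exact absurd (Finset.mem_univ _) h
      · intro h; exact absurd (Finset.mem_univ _) h
  have hmono : ∀ (i : ι ⊕ κ) (s : ℕ), s ≤ α i →
      (monomial (α - Finsupp.single i s) (1 : k)) * X i ^ s = monomial α 1 ∧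
      (monomial (α - Finsupp.single i s) (1 : k)).IsHomogeneous (R - s) := by
    intro i s hs
    have h1 : α - Finsupp.single i s + Finsupp.single i s = α := by
      ext l
      simp only [Finsupp.coe_add, Finsupp.coe_tsub, Pi.add_apply, Pi.sub_apply]
      by_cases hl : i = l
      · subst hl
        simp only [Finsupp.single_eq_same]
        omega
      · rw [Finsupp.single_eq_of_ne (Ne.symm hl)]
        simp
    constructor
    · rw [X_pow_eq_monomial, monomial_mul, h1, one_mul]
    · apply isHomogeneous_monomial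
      have h2 : (α - Finsupp.single i s).degree + s = R := by
        rw [← hdeg]
        conv_rhs => rw [← h1]
        simp [map_add]
      omega
  have hmk : ((m - 1 : ℕ) : k) ≠ 0 := by
    have : m - 1 ≠ 0 := by omega
    exact_mod_cast this
  have hm0 : (m : k) ≠ 0 := by
    have : m ≠ 0 := by omega
    exact_mod_cast this
  have hRm : 2 * m ≤ R := by
    have h2 : 1 ≤ Fintype.card (ι ⊕ κ) := Fintype.card_pos
    nlinarith
  rcases i with j | l
  · -- a power of `x_j`
    obtain ⟨h1, h2⟩ := hmono (Sum.inl j) (2 * m - 3) (by omega)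
    refine key (Sum.inl j) (Sum.inr (f j)) (by simp)
      (-(C ((m : k) / ((m - 1 : ℕ) : k)) * (monomial (α - Finsupp.single (Sum.inl j) (2 * m - 3)) 1 *
        X (Sum.inr (f j)) ^ (m - 2))))
      (monomial (α - Finsupp.single (Sum.inl j) (2 * m - 3)) 1 * X (Sum.inl j) ^ (m - 2))
      ?_ ?_ ?_
    · have h3 := ((h2.mul (isHomogeneous_X_pow (R := k) (Sum.inr (f j) : ι ⊕ κ) (m - 2))).C_mul
        ((m : k) / ((m - 1 : ℕ) : k))).neg
      have h4 : R - (2 * m - 3) + (m - 2) = R - (m - 1) := by omega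
      rwa [h4] at h3
    · have h3 := h2.mul (isHomogeneous_X_pow (R := k) (Sum.inl j : ι ⊕ κ) (m - 2))
      have h4 : R - (2 * m - 3) + (m - 2) = R - (m - 1) := by omega
      rwa [h4] at h3
    · rw [pderiv_inl_smE, pderiv_inr_smE, ← h1]
      have h5 : C ((m : k) / ((m - 1 : ℕ) : k)) * C ((m - 1 : ℕ) : k) =
          (C (m : k) : MvPolynomial (ι ⊕ κ) k) := by
        rw [← C_mul, div_mul_cancel₀ _ hmk]
      obtain ⟨n, rfl⟩ : ∃ n, m = n + 2 := ⟨m - 2, by omega⟩
      have h6 : n + 2 - 1 = n + 1 := by omega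
      have h7 : n + 2 - 2 = n := by omega
      have h8 : 2 * (n + 2) - 3 = n + (n + 1) := by omega
      rw [h8, h7]
      rw [h6] at h5 ⊢
      linear_combination (-(monomial (α - Finsupp.single (Sum.inl j) (n + (n + 1))) (1 : k)) *
        X (Sum.inr (f j)) ^ n * X (Sum.inr (f j)) * X (Sum.inl j) ^ n) * h5
  · by_cases hl : ∃ j, f j = l
    · -- a power of `y_(f j)`
      obtain ⟨j, rfl⟩ := hl
      obtain ⟨h1, h2⟩ := hmono (Sum.inr (f j)) m (by omega)
      refine key (Sum.inl j) (Sum.inr (f j)) (by simp)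
        (-(C (1 / ((m : k) * ((m - 1 : ℕ) : k))) *
          (monomial (α - Finsupp.single (Sum.inr (f j)) m) 1 * X (Sum.inl j))))
        (C (1 / (m : k)) * (monomial (α - Finsupp.single (Sum.inr (f j)) m) 1 * X (Sum.inr (f j))))
        ?_ ?_ ?_
      · have h3 := ((h2.mul (isHomogeneous_X k (Sum.inl j : ι ⊕ κ))).C_mul
          (1 / ((m : k) * ((m - 1 : ℕ) : k)))).neg
        have h4 : R - m + 1 = R - (m - 1) := by omega
        rwa [h4] at h3
      · have h3 := (h2.mul (isHomogeneous_X k (Sum.inr (f j) : ι ⊕ κ))).C_mul (1 / (m : k))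
        have h4 : R - m + 1 = R - (m - 1) := by omega
        rwa [h4] at h3
      · rw [pderiv_inl_smE, pderiv_inr_smE, ← h1]
        have h5 : C (1 / ((m : k) * ((m - 1 : ℕ) : k))) * C ((m - 1 : ℕ) : k) =
            (C (1 / (m : k)) : MvPolynomial (ι ⊕ κ) k) := by
          rw [← C_mul]
          congr 1
          field_simp
        have h9 : C (1 / (m : k)) * C (m : k) = (1 : MvPolynomial (ι ⊕ κ) k) := by
          rw [← C_mul, one_div_mul_cancel hm0, C_1]
        obtain ⟨n, rfl⟩ : ∃ n, m = n + 2 := ⟨m - 2, by omega⟩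
        have h6 : n + 2 - 1 = n + 1 := by omega
        have h7 : n + 2 - 2 = n := by omega
        rw [h7]
        rw [h6] at h5 ⊢
        set mo := (monomial (α - Finsupp.single (Sum.inr (f j)) (n + 2)) (1 : k)) with hmo
        linear_combination (-mo * X (Sum.inl j) * X (Sum.inr (f j)) * X (Sum.inl j) ^ n) * h5 +
          (mo * X (Sum.inr (f j)) * X (Sum.inr (f j)) ^ (n + 1)) * h9
    · -- a power of another `y_l`
      push Not at hl
      obtain ⟨h1, h2⟩ := hmono (Sum.inr l) (m - 1) (by omega)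
      obtain ⟨j⟩ : Nonempty ι := inferInstance
      refine key (Sum.inl j) (Sum.inr l) (by simp) 0
        (C (1 / (m : k)) * (monomial (α - Finsupp.single (Sum.inr l) (m - 1)) 1))
        (isHomogeneous_zero _ _ _) (h2.C_mul (1 / (m : k))) ?_
      rw [pderiv_inr_smE_of_notMem f m hl, ← h1]
      have h9 : C (1 / (m : k)) * C (m : k) = (1 : MvPolynomial (ι ⊕ κ) k) := by
        rw [← C_mul, one_div_mul_cancel hm0, C_1]
      linear_combination (monomial (α - Finsupp.single (Sum.inr l) (m - 1)) 1 *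
        X (Sum.inr l) ^ (m - 1)) * h9

end explicit

end Pool.Agent.Lib.MP_627a61_nt
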