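import Pool.Agent.Lib.MP_627a61_nt.Deriv

/-!
# Singular members of pencils: finiteness outside the base locus
-/

open Filter MvPolynomial

namespace Pool.Agent.Lib.MP_627a61_nt

universe u v

/-- the constant germs -/
noncomputable def cgerm (K : Type u) [Field K] : K →+* Germ (hyperfilter ℕ : Filter ℕ) K where
  toFun a := (a : Germ (hyperfilter ℕ : Filter ℕ) K)
  map_one' := rfl
  map_mul' _ _ := rfl
  map_zero' := rfl
  map_add' _ _ := rfl

/-- **Generic smoothness in pencils.** In characteristic zero, for all but finitely many natural
numbers `M`, the singular points of `M F + H` lie on `F = 0`. -/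
theorem finite_singular_pencil {V : Type v} {K : Type u} [Fintype V] [Field K] [CharZero K]
    {F H : MvPolynomial V K} {m : ℕ} (hm : m ≠ 0) (hF : F.IsHomogeneous m)
    (hH : H.IsHomogeneous m) :
    {M : ℕ | ∃ x : V → K, (∀ v, eval x (pderiv v ((M : MvPolynomial V K) * F + H)) = 0) ∧
      eval x F ≠ 0}.Finite := by
  classical
  by_contra hinf
  have hinf' : Set.Infinite {M : ℕ | ∃ x : V → K,
      (∀ v, eval x (pderiv v ((M : MvPolynomial V K) * F + H)) = 0) ∧ eval x F ≠ 0} := hinf
  let M' := hinf'.natEmbedding
  let M : ℕ → ℕ := fun i => (M' i : ℕ)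
  have hMinj : Function.Injective M := fun i j h => M'.injective (Subtype.ext h)
  have hM : ∀ i, ∃ x : V → K,
      (∀ v, eval x (pderiv v ((M i : MvPolynomial V K) * F + H)) = 0) ∧ eval x F ≠ 0 :=
    fun i => (M' i).2
  choose x hx1 hx2 using hM
  let E := Germ (hyperfilter ℕ : Filter ℕ) K
  let _ : Algebra K E := (cgerm K).toAlgebra
  have halg : ∀ a : K, algebraMap K E a = ((fun _ => a : ℕ → K) : E) := fun a => rfl
  let xs : V → E := fun v => ((fun i => x i v : ℕ → K) : E)
  let t : E := ((fun i => (M i : K) : ℕ → K) : E)
  have hev : ∀ P : MvPolynomial V K, aeval xs P = ((fun i => eval (x i) P : ℕ → K) : E) := by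
    intro P
    induction P using MvPolynomial.induction_on with
    | C a => simp only [algHom_C, eval_C, halg]
    | add p q hp hq =>
      rw [map_add, hp, hq]
      simp only [map_add]
      rfl
    | mul_X p i hp =>
      rw [map_mul, hp, aeval_X]
      simp only [map_mul, eval_X]
      rfl
  have htr : Transcendental K t := by
    rw [transcendental_iff]
    intro p hp
    by_contra hp0
    have h1 : ∀ q : Polynomial K, Polynomial.aeval t q =
        ((fun i => q.eval (M i : K) : ℕ → K) : E) := by
      intro q
      induction q using Polynomial.induction_on' with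
      | add p q hp hq =>
        rw [map_add, hp, hq]
        simp only [Polynomial.eval_add]
        rfl
      | monomial n a =>
        rw [Polynomial.aeval_monomial, halg]
        simp only [Polynomial.eval_monomial]
        have : t ^ n = ((fun i => (M i : K) ^ n : ℕ → K) : E) := rfl
        rw [this]
        rfl
    rw [h1] at hp
    have h2 : ∀ᶠ i in (hyperfilter ℕ : Filter ℕ), p.eval (M i : K) = 0 := Germ.coe_eq.1 hp
    have h3 : {i | p.eval (M i : K) = 0}.Finite := by
      have h4 : (p.rootSet K).Finite := p.rootSet_finite K
      refine (h4.preimage (f := fun i : ℕ => (M i : K)) ?_).subset ?_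
      · intro i _ j _ hij
        have hij' : (M i : K) = (M j : K) := hij
        exact hMinj (by exact_mod_cast hij')
      · intro i hi
        rw [Set.mem_preimage, Polynomial.mem_rootSet]
        exact ⟨hp0, by simpa using hi⟩
    exact Filter.notMem_hyperfilter_of_finite h3 h2
  obtain ⟨D, hD⟩ := exists_derivation htr
  have hDC : ∀ P : MvPolynomial V K, D (aeval xs P) =
      ∑ v, aeval xs (pderiv v P) * D (xs v) := by
    intro P
    induction P using MvPolynomial.induction_on with
    | C a =>
      rw [algHom_C, Derivation.map_algebraMap]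
      simp
    | add p q hp hq =>
      simp only [map_add, add_mul, Finset.sum_add_distrib, hp, hq]
    | mul_X p i hp =>
      rw [map_mul, Derivation.leibniz, hp, aeval_X]
      simp only [pderiv_mul, map_add, map_mul, aeval_X, pderiv_X, add_mul,
        Finset.sum_add_distrib, smul_eq_mul]
      have h1 : ∑ v, aeval xs p * aeval xs ((Pi.single v 1 : V → MvPolynomial V K) i) *
          D (xs v) =
          aeval xs p * D (xs i) := by
        rw [Finset.sum_eq_single i]
        · simp
        · intro b _ hb
          simp [Pi.single_apply, hb.symm]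
        · intro h; exact absurd (Finset.mem_univ i) h
      rw [h1, add_comm, Finset.mul_sum]
      congr 1
      refine Finset.sum_congr rfl fun v _ => ?_
      ring
  -- the two relations
  have hrel : ∀ v, t * aeval xs (pderiv v F) + aeval xs (pderiv v H) = 0 := by
    intro v
    rw [hev, hev]
    have : (fun i => (M i : K) * eval (x i) (pderiv v F) + eval (x i) (pderiv v H)) =
        fun _ : ℕ => (0 : K) := by
      funext i
      have h1 := hx1 i v
      rw [map_add, pderiv_mul] at h1
      have h2 : pderiv v (M i : MvPolynomial V K) = 0 := by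
        rw [← map_natCast (C : K →+* MvPolynomial V K) (M i)]
        exact pderiv_C
      rw [h2, zero_mul, zero_add, map_add, map_mul, map_natCast] at h1
      exact h1
    exact congrArg (fun f : ℕ → K => (f : E)) this
  have hchar : (m : E) ≠ 0 := by
    have h1 : (m : K) ≠ 0 := by exact_mod_cast hm
    intro h2
    apply h1
    apply (algebraMap K E).injective
    rw [map_natCast, h2, map_zero]
  have hEuler : t * aeval xs F + aeval xs H = 0 := by
    have h1 := hF.sum_X_mul_pderiv
    have h2 := hH.sum_X_mul_pderiv
    have h3 := congrArg (aeval xs) h1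
    have h4 := congrArg (aeval xs) h2
    simp only [map_sum, map_mul, aeval_X, nsmul_eq_mul, map_natCast] at h3 h4
    apply mul_left_cancel₀ hchar
    rw [mul_zero]
    calc (m : E) * (t * aeval xs F + aeval xs H) =
        t * (m * aeval xs F) + m * aeval xs H := by ring
      _ = t * (∑ v, xs v * aeval xs (pderiv v F)) + ∑ v, xs v * aeval xs (pderiv v H) := by
        rw [← h3, ← h4]
      _ = ∑ v, xs v * (t * aeval xs (pderiv v F) + aeval xs (pderiv v H)) := by
        rw [Finset.mul_sum, ← Finset.sum_add_distrib]
        refine Finset.sum_congr rfl fun v _ => ?_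
        ring
      _ = 0 := by
        apply Finset.sum_eq_zero
        intro v _
        rw [hrel, mul_zero]
  have hA : aeval xs F = 0 := by
    have h1 := congrArg D hEuler
    rw [map_zero, map_add, Derivation.leibniz, hDC, hDC, hD] at h1
    simp only [smul_eq_mul, mul_one] at h1
    have h2 : t * ∑ v, aeval xs (pderiv v F) * D (xs v) + ∑ v, aeval xs (pderiv v H) * D (xs v) =
        0 := by
      rw [Finset.mul_sum, ← Finset.sum_add_distrib]
      apply Finset.sum_eq_zero
      intro v _
      have := hrel v
      linear_combination D (xs v) * this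
    linear_combination h1 - h2
  rw [hev] at hA
  have h5 : ∀ᶠ i in (hyperfilter ℕ : Filter ℕ), eval (x i) F = 0 := Germ.coe_eq.1 hA
  obtain ⟨i, hi⟩ := h5.exists
  exact hx2 i hi

end Pool.Agent.Lib.MP_627a61_nt
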