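import Pool.Agent.Lib.MP_627a61_nt.Segre

/-!
# Weil restriction of hyperbolic varieties through norm forms
-/

open scoped LinearAlgebra.Projectivization Topology
open Filter MvPolynomial

namespace Pool.Agent.Lib.MP_627a61_nt

/-- a linear functional as a polynomial -/
noncomputable def lf {κ : Type*} [Fintype κ] [DecidableEq κ] (f : (κ → ℂ) →ₗ[ℂ] ℂ) :
    MvPolynomial κ ℂ :=
  ∑ i, C (f (Pi.single i 1)) * X i

lemma eval_lf {κ : Type*} [Fintype κ] [DecidableEq κ] (f : (κ → ℂ) →ₗ[ℂ] ℂ) (y : κ → ℂ) :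
    MvPolynomial.eval y (lf f) = f y := by
  rw [lf, map_sum]
  simp only [map_mul, eval_C, eval_X]
  conv_rhs => rw [LinearMap.pi_apply_eq_sum_univ f y]
  refine Finset.sum_congr rfl fun i _ => ?_
  rw [smul_eq_mul, mul_comm]
  congr 2
  funext j
  simp [Pi.single_apply, eq_comm]

lemma lf_homog {κ : Type*} [Fintype κ] [DecidableEq κ] (f : (κ → ℂ) →ₗ[ℂ] ℂ) :
    (lf f).IsHomogeneous 1 := by
  apply IsHomogeneous.sum
  intro i _
  exact (isHomogeneous_X ℂ i).C_mul _

variable {ι k₀ k : Type*} [Field k₀] [CharZero k₀] [Algebra k₀ ℂ] [Field k] [Algebra k₀ k]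
  [FiniteDimensional k₀ k]

lemma chr_update [DecidableEq (k →ₐ[k₀] ℂ)] (j : (k →ₐ[k₀] ℂ) → ι) (e : k →ₐ[k₀] ℂ) (l : ι)
    (x : ι → k) : chr k₀ (Function.update j e l) x =
      e (x l) * ∏ e' ∈ Finset.univ.erase e, e' (x (j e')) := by
  rw [chr_apply, ← Finset.mul_prod_erase _ _ (Finset.mem_univ e), Function.update_self]
  congr 1
  refine Finset.prod_congr rfl fun e' he' => ?_
  rw [Function.update_of_ne (Finset.ne_of_mem_erase he')]

lemma chr_eq [DecidableEq (k →ₐ[k₀] ℂ)] (j : (k →ₐ[k₀] ℂ) → ι) (e : k →ₐ[k₀] ℂ)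
    (x : ι → k) : chr k₀ j x = e (x (j e)) * ∏ e' ∈ Finset.univ.erase e, e' (x (j e')) := by
  conv_lhs => rw [← Function.update_eq_self e j]
  rw [chr_update]

/-- **Weil restriction.** -/
theorem exists_weil_model [Fintype ι]
    (S : Set (MvPolynomial ι k)) (hS : Homog S)
    (hZ : ∀ σ : k →ₐ[k₀] ℂ, BrodyHyperbolic (points (σ : k →+* ℂ) S)) :
    ∃ (r : ℕ) (S' : Set (MvPolynomial (Fin r) k₀)) (Ψ : (ι → k) → (Fin r → k₀)),
      Homog S' ∧ BrodyHyperbolic (points (algebraMap k₀ ℂ) S') ∧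
      (∀ x, x ≠ 0 → Ψ x ≠ 0) ∧
      (∀ x y, x ≠ 0 → y ≠ 0 → (∃ t : k₀, Ψ x = t • Ψ y) → ∃ s : k, x = s • y) ∧
      (∀ x, (∀ F ∈ S, F.eval₂ (RingHom.id k) x = 0) →
        ∀ Q ∈ S', Q.eval₂ (RingHom.id k₀) (Ψ x) = 0) := by
  classical
  obtain ⟨r, a, ha⟩ := exists_points k₀ k (ι := ι)
  -- the linear map
  let M : (((k →ₐ[k₀] ℂ) → ι) → ℂ) →ₗ[ℂ] (Fin r → ℂ) :=
    LinearMap.pi fun i => ∑ j, (chr k₀ j (a i)) • LinearMap.proj j
  have hM : ∀ w i, M w i = ∑ j, w j * chr k₀ j (a i) := by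
    intro w i
    simp only [M, LinearMap.pi_apply, LinearMap.sum_apply, LinearMap.smul_apply,
      LinearMap.proj_apply, smul_eq_mul]
    refine Finset.sum_congr rfl fun j _ => mul_comm _ _
  have hker : LinearMap.ker M = ⊥ := by
    rw [LinearMap.ker_eq_bot']
    intro w hw
    apply ha
    intro i
    rw [finsum_eq_sum_of_fintype, ← hM, hw]
    rfl
  obtain ⟨L, hL⟩ := LinearMap.exists_leftInverse_of_injective M hker
  have hLM : ∀ w, L (M w) = w := fun w => LinearMap.congr_fun hL w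
  -- the norm forms
  let Ψ : (ι → k) → (Fin r → k₀) := fun x i => Algebra.norm k₀ (∑ l, a i l * x l)
  have hΨ : ∀ x, (fun i => algebraMap k₀ ℂ (Ψ x i)) = M (fun j => chr k₀ j x) := by
    intro x
    funext i
    rw [hM, norm_linear, finsum_eq_sum_of_fintype]
  let Sg : Set (Fin r → k₀) := Ψ '' {x | ∀ F ∈ S, F.eval₂ (RingHom.id k) x = 0}
  let S' : Set (MvPolynomial (Fin r) k₀) := {Q | (∃ n, Q.IsHomogeneous n) ∧
    ∀ y ∈ Sg, MvPolynomial.eval y Q = 0}
  -- consequences of descent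
  have hdesc : ∀ p ∈ points (algebraMap k₀ ℂ) S', ∀ (n : ℕ) (G : MvPolynomial (Fin r) ℂ),
      G.IsHomogeneous n → (∀ x : ι → k, (∀ F ∈ S, F.eval₂ (RingHom.id k) x = 0) →
        MvPolynomial.eval (M (fun j => chr k₀ j x)) G = 0) → MvPolynomial.eval p.rep G = 0 := by
    intro p hp n G hG h0
    refine descent Sg p.rep (fun m Q hQ hQ0 => hp Q ⟨⟨m, hQ⟩, hQ0⟩) G hG ?_
    rintro _ ⟨x, hx, rfl⟩
    rw [hΨ]
    exact h0 x hx
  have hML : ∀ p ∈ points (algebraMap k₀ ℂ) S', M (L p.rep) = p.rep := by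
    intro p hp
    funext i
    have h1 := hdesc p hp 1 (lf (LinearMap.proj i - (LinearMap.proj i).comp (M.comp L)))
      (lf_homog _) (by
        intro x _
        rw [eval_lf]
        simp [hLM])
    rw [eval_lf] at h1
    simp only [LinearMap.sub_apply, LinearMap.proj_apply, LinearMap.comp_apply] at h1
    linear_combination -h1
  have hSC : ∀ p ∈ points (algebraMap k₀ ℂ) S',
      SegreCond (fun e : k →ₐ[k₀] ℂ => (e : k →+* ℂ)) S (L p.rep) := by
    intro p hp
    constructor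
    · intro j j' e
      have h1 := hdesc p hp 2 (lf ((LinearMap.proj j).comp L) * lf ((LinearMap.proj j').comp L) -
        lf ((LinearMap.proj (Function.update j e (j' e))).comp L) *
        lf ((LinearMap.proj (Function.update j' e (j e))).comp L))
        (((lf_homog _).mul (lf_homog _)).sub ((lf_homog _).mul (lf_homog _))) (by
          intro x _
          simp only [map_sub, map_mul, eval_lf, LinearMap.comp_apply, LinearMap.proj_apply, hLM]
          rw [chr_update, chr_update, chr_eq j e, chr_eq j' e]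
          ring)
      simp only [map_sub, map_mul, eval_lf, LinearMap.comp_apply, LinearMap.proj_apply] at h1
      linear_combination h1
    · intro j e F hF
      obtain ⟨n, hn⟩ := hS F hF
      have hev : ∀ y : Fin r → ℂ, MvPolynomial.eval y
          (F.eval₂ ((C : ℂ →+* MvPolynomial (Fin r) ℂ).comp (e : k →+* ℂ))
            (fun l => lf ((LinearMap.proj (Function.update j e l)).comp L))) =
          F.eval₂ (e : k →+* ℂ) (fun l => L y (Function.update j e l)) := by
        intro y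
        rw [MvPolynomial.eval₂_comp_left]
        congr 1
        · ext c
          simp
        · funext l
          rw [Function.comp_apply, eval_lf]
          rfl
      have h1 := hdesc p hp (1 * n) (F.eval₂ ((C : ℂ →+* MvPolynomial (Fin r) ℂ).comp
            (e : k →+* ℂ)) (fun l => lf ((LinearMap.proj (Function.update j e l)).comp L)))
        (hn.eval₂ _ _ (fun c => isHomogeneous_C _ _) (fun l => lf_homog _)) (by
          intro x hx
          rw [hev, hLM]
          simp only [chr_update]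
          have h2 : (fun l => e (x l) * ∏ e' ∈ Finset.univ.erase e, e' (x (j e'))) =
              (∏ e' ∈ Finset.univ.erase e, e' (x (j e'))) • fun l => e (x l) := by
            funext l
            simp only [Pi.smul_apply, smul_eq_mul]
            ring
          rw [h2, eval₂_smul_homog hn]
          have h3 := MvPolynomial.eval₂_comp_left (e : k →+* ℂ) (RingHom.id k) x F
          rw [hx F hF, map_zero] at h3
          have h4 : (e : k →+* ℂ) ∘ x = fun l => e (x l) := rfl
          rw [RingHom.comp_id, h4] at h3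
          rw [← h3, mul_zero])
      rw [hev] at h1
      exact h1
  have hw : ∀ x y : ι → k, (∃ t : k₀, Ψ x = t • Ψ y) → ∃ t : ℂ, ∀ j, chr k₀ j x = t * chr k₀ j y := by
    rintro x y ⟨t, ht⟩
    refine ⟨algebraMap k₀ ℂ t, fun j => ?_⟩
    have h1 : M (fun j => chr k₀ j x) = (algebraMap k₀ ℂ t) • M (fun j => chr k₀ j y) := by
      rw [← hΨ, ← hΨ, ht]
      funext i
      simp
    have h2 := congrArg L h1
    rw [hLM, map_smul, hLM] at h2
    exact congrFun h2 j
  have hconst : ∀ (x : ι → k) (l : ι), x l ≠ 0 →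
      chr k₀ (fun _ : k →ₐ[k₀] ℂ => l) x ≠ 0 := by
    intro x l hl
    rw [chr_apply, Finset.prod_ne_zero_iff]
    intro e _
    rw [map_ne_zero]
    exact hl
  refine ⟨r, S', Ψ, fun Q hQ => hQ.1, ?_, ?_, ?_, ?_⟩
  · refine brodyHyperbolic_segre (fun e : k →ₐ[k₀] ℂ => (e : k →+* ℂ)) S hS
      (fun e => hZ _) L _ ?_ ?_ hSC
    · rintro p hp q hq ⟨t, ht⟩
      have h1 : p.rep = t • q.rep := by
        rw [← hML p hp, ht, map_smul, hML q hq]
      rw [← p.mk_rep, ← q.mk_rep, Projectivization.mk_eq_mk_iff']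
      exact ⟨t, h1.symm⟩
    · intro p hp h0
      apply p.rep_nonzero
      rw [← hML p hp, h0, map_zero]
  · intro x hx h0
    obtain ⟨l, hl⟩ := Function.ne_iff.1 hx
    apply hconst x l hl
    have h1 : M (fun j => chr k₀ j x) = 0 := by
      rw [← hΨ, h0]
      funext i
      simp
    have h2 := congrArg L h1
    rw [hLM, map_zero] at h2
    exact congrFun h2 _
  · intro x y hx hy h
    obtain ⟨t, ht⟩ := hw x y h
    obtain ⟨l₀, hl₀⟩ := Function.ne_iff.1 hx
    let e : k →ₐ[k₀] ℂ := IsAlgClosed.lift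
    have hcx := hconst x l₀ hl₀
    have hcy : chr k₀ (fun _ : k →ₐ[k₀] ℂ => l₀) y ≠ 0 := by
      intro h0
      rw [ht, h0, mul_zero] at hcx
      exact hcx rfl
    have ht0 : t ≠ 0 := by
      rintro rfl
      rw [ht, zero_mul] at hcx
      exact hcx rfl
    have hy0 : y l₀ ≠ 0 := by
      intro h0
      apply hcy
      rw [chr_eq _ e, h0, map_zero, zero_mul]
    refine ⟨x l₀ / y l₀, ?_⟩
    funext l
    rw [Pi.smul_apply, smul_eq_mul, div_mul_eq_mul_div, eq_div_iff hy0]
    apply (e : k →+* ℂ).injective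
    have h1 := ht (Function.update (fun _ => l₀) e l)
    rw [chr_update, chr_update] at h1
    have h2 := ht (fun _ => l₀)
    rw [chr_eq _ e, chr_eq (fun _ => l₀) e y] at h2
    have h3 : ∏ e' ∈ Finset.univ.erase e, e' (y l₀) ≠ 0 := by
      intro h0
      apply hcy
      rw [chr_eq _ e, h0, mul_zero]
    have h4 : ∏ e' ∈ Finset.univ.erase e, e' (x l₀) ≠ 0 := by
      intro h0
      apply hcx
      rw [chr_eq _ e, h0, mul_zero]
    generalize (∏ e' ∈ Finset.univ.erase e, e' (y l₀)) = B at h1 h2 h3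
    generalize (∏ e' ∈ Finset.univ.erase e, e' (x l₀)) = A at h1 h2 h4
    simp only [RingHom.coe_coe, map_mul]
    apply mul_left_cancel₀ (mul_ne_zero (mul_ne_zero ht0 h3) h4)
    linear_combination t * e (y l₀) * B * h1 - t * e (y l) * B * h2
  · intro x hx Q hQ
    have h1 : MvPolynomial.eval (Ψ x) Q = 0 := hQ.2 _ ⟨x, hx, rfl⟩
    exact h1

/-- Weil restriction to the rational numbers. -/
theorem exists_rational_model {ι k : Type*} [Field k] [NumberField k] [Fintype ι]
    (S : Set (MvPolynomial ι k)) (hS : Homog S)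
    (hZ : ∀ σ : k →+* ℂ, BrodyHyperbolic (points σ S)) :
    ∃ (r : ℕ) (S' : Set (MvPolynomial (Fin r) ℚ)) (Ψ : (ι → k) → (Fin r → ℚ)),
      Homog S' ∧ BrodyHyperbolic (points (algebraMap ℚ ℂ) S') ∧
      (∀ x, x ≠ 0 → Ψ x ≠ 0) ∧
      (∀ x y, x ≠ 0 → y ≠ 0 → (∃ t : ℚ, Ψ x = t • Ψ y) → ∃ s : k, x = s • y) ∧
      (∀ x, (∀ F ∈ S, F.eval₂ (RingHom.id k) x = 0) →
        ∀ Q ∈ S', Q.eval₂ (RingHom.id ℚ) (Ψ x) = 0) :=
  exists_weil_model S hS fun σ => hZ _

end Pool.Agent.Lib.MP_627a61_nt
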