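import Pool.Agent.Lib.MP_627a61_nt.Weil

/-!
# Reduction to smooth hypersurfaces of prescribed degrees
-/

open scoped LinearAlgebra.Projectivization Topology
open Filter MvPolynomial

namespace Pool.Agent.Lib.MP_627a61_nt

section rename

variable {V V' k : Type*} [Fintype V] [Fintype V'] [Field k]

lemma brodyHyperbolic_rename (e : V ≃ V') {F : MvPolynomial V k} {m : ℕ}
    (hF : F.IsHomogeneous m) (σ : k →+* ℂ) (h : BrodyHyperbolic (points σ {F})) :
    BrodyHyperbolic (points σ {rename e F}) := by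
  intro φ hφ hφY
  have hne : ∀ z, (fun i => (φ z).rep (e i)) ≠ (0 : V → ℂ) := by
    intro z h
    apply (φ z).rep_nonzero
    funext c
    have := congrFun h (e.symm c)
    simpa using this
  obtain ⟨ψ, hψ, hψ1, -⟩ := exists_division hφ (fun x i => x (e i) : (V' → ℂ) → (V → ℂ))
    (by
      intro x
      rw [analyticAt_pi_iff]
      intro i
      exact analyticAt_proj _ x) 1
    (by
      intro t x
      funext i
      simp) (hne 0)
  have hψZ : ∀ z, ψ z ∈ points σ {F} := by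
    intro z
    rw [hψ1 z (hne z), mem_points_mk _ σ]
    · intro P hP
      rw [Set.mem_singleton_iff] at hP
      subst hP
      have h1 := hφY z _ rfl
      rw [eval₂_rename] at h1
      exact h1
    · intro P hP
      rw [Set.mem_singleton_iff] at hP
      exact ⟨m, hP ▸ hF⟩
  have hψc := h ψ hψ hψZ
  intro z w
  have h1 := hψc z w
  rw [hψ1 z (hne z), hψ1 w (hne w), Projectivization.mk_eq_mk_iff'] at h1
  obtain ⟨t, ht⟩ := h1
  rw [← (φ z).mk_rep, ← (φ w).mk_rep, Projectivization.mk_eq_mk_iff']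
  refine ⟨t, ?_⟩
  funext c
  have := congrFun ht (e.symm c)
  simpa using this

omit [Fintype V] [Fintype V'] in
lemma smoothHypersurface_rename (e : V ≃ V') {F : MvPolynomial V k}
    (h : SmoothHypersurface F) : SmoothHypersurface (rename e F) := by
  intro x hx hx0
  rw [aeval_rename] at hx0
  obtain ⟨i, hi⟩ := h (x ∘ e) (by
    intro h0
    apply hx
    funext c
    have := congrFun h0 (e.symm c)
    simpa using this) hx0
  refine ⟨e i, ?_⟩
  rw [pderiv_rename e.injective, aeval_rename]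
  exact hi

end rename

/-- transfer of finiteness along an injection of the cones -/
lemma finite_transfer {ι κ k K : Type*} [Field k] [Field K] (Ψ : (ι → k) → (κ → K))
    (h0 : ∀ x, x ≠ 0 → Ψ x ≠ 0)
    (hinj : ∀ x y, x ≠ 0 → y ≠ 0 → (∃ t : K, Ψ x = t • Ψ y) → ∃ s : k, x = s • y)
    {S : Set (MvPolynomial ι k)} {S' : Set (MvPolynomial κ K)} (hS' : Homog S')
    (hmap : ∀ x, (∀ P ∈ S, P.eval₂ (RingHom.id k) x = 0) →
      ∀ Q ∈ S', Q.eval₂ (RingHom.id K) (Ψ x) = 0)
    (hfin : (points (RingHom.id K) S').Finite) : (points (RingHom.id k) S).Finite := by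
  let g : ℙ k (ι → k) → ℙ K (κ → K) := fun p =>
    Projectivization.mk K (Ψ p.rep) (h0 _ p.rep_nonzero)
  refine Set.Finite.of_injOn (f := g) (t := points (RingHom.id K) S') ?_ ?_ hfin
  · intro p hp
    rw [mem_points_mk hS']
    exact hmap _ hp
  · intro p _ q _ hpq
    rw [Projectivization.mk_eq_mk_iff'] at hpq
    obtain ⟨t, ht⟩ := hpq
    obtain ⟨s, hs⟩ := hinj _ _ p.rep_nonzero q.rep_nonzero ⟨t, ht.symm⟩
    rw [← p.mk_rep, ← q.mk_rep, Projectivization.mk_eq_mk_iff']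
    exact ⟨s, hs.symm⟩

/-- the universal sequence of degrees -/
def dseq (g : ℕ → ℕ) (n : ℕ) : ℕ := (g n + n + 2) * 4 ^ ((n + 1) ^ 4)

lemma le_dseq (g : ℕ → ℕ) (n : ℕ) : g n ≤ dseq g n := by
  have h1 : 1 ≤ 4 ^ ((n + 1) ^ 4) := Nat.one_le_pow _ _ (by norm_num)
  have h2 : g n ≤ g n + n + 2 := by omega
  calc g n ≤ g n + n + 2 := h2
    _ = (g n + n + 2) * 1 := (mul_one _).symm
    _ ≤ _ := Nat.mul_le_mul_left _ h1

/-- **Embedding theorem with prescribed degrees.** -/
theorem exists_smooth_hypersurface_fin {k : Type*} [Field k] [CharZero k] (g : ℕ → ℕ) {n₀ : ℕ}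
    (S : Set (MvPolynomial (Fin (n₀ + 1)) k)) (hS : Homog S) (T : Set (k →+* ℂ)) (hT : T.Finite)
    (hZ : ∀ σ ∈ T, BrodyHyperbolic (points σ S)) :
    ∃ n₁, ∀ n, n₁ ≤ n → ∃ F : MvPolynomial (Fin (n + 1)) k, F.IsHomogeneous (dseq g n) ∧
      SmoothHypersurface F ∧ (∀ σ ∈ T, BrodyHyperbolic (points σ {F})) ∧
      ∃ Ψ : (Fin (n₀ + 1) → k) → (Fin (n + 1) → k),
        (∀ x, x ≠ 0 → Ψ x ≠ 0) ∧
        (∀ x y, x ≠ 0 → y ≠ 0 → (∃ t : k, Ψ x = t • Ψ y) → ∃ s : k, x = s • y) ∧
        (∀ x, (∀ P ∈ S, P.eval₂ (RingHom.id k) x = 0) →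
          ∀ Q ∈ ({F} : Set (MvPolynomial (Fin (n + 1)) k)), Q.eval₂ (RingHom.id k) (Ψ x) = 0) := by
  classical
  obtain ⟨S', hS', hS'2⟩ := exists_finite_equations S
  let P : {F // F ∈ S'} → MvPolynomial (Fin (n₀ + 1)) k := fun F => F.1
  have hP : ∀ c : {F // F ∈ S'}, ∃ n, (P c).IsHomogeneous n := fun c => hS _ (hS' c.2)
  choose δ hδ using hP
  have hZ' : ∀ σ ∈ T, BrodyHyperbolic (points σ (Set.range P)) := by
    intro σ hσ
    have : points σ (Set.range P) = points σ S := by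
      ext x
      constructor
      · intro h F hF
        exact hS'2 ℂ σ x.rep (fun G hG => h G ⟨⟨G, hG⟩, rfl⟩) F hF
      · rintro h _ ⟨c, rfl⟩
        exact h _ (hS' c.2)
    rw [this]
    exact hZ σ hσ
  obtain ⟨B, hB⟩ := (Set.finite_range δ).bddAbove
  refine ⟨2 * n₀ + 1 + S'.card + B, fun n hn => ?_⟩
  -- the embedding of index sets
  let f : Fin (n₀ + 1) ↪ Fin (n - n₀) := Fin.castLEEmb (by omega)
  have hdeg : ∀ c, δ c < g n + n + 2 := by
    intro c
    have := hB ⟨c, rfl⟩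
    omega
  have hN : Fintype.card (({F // F ∈ S'} ⊕ Fin (n - n₀)) × (Fin (n₀ + 1) ⊕ Fin (n - n₀)) ×
      (Fin (n₀ + 1) ⊕ Fin (n - n₀))) ≤ (n + 1) ^ 4 + 1 := by
    simp only [Fintype.card_prod, Fintype.card_sum, Fintype.card_coe, Fintype.card_fin]
    have h1 : n₀ + 1 + (n - n₀) = n + 1 := by omega
    rw [h1]
    have h2 : S'.card + (n - n₀) ≤ (n + 1) ^ 2 := by
      have : S'.card + (n - n₀) ≤ 2 * n := by omega
      nlinarith
    calc (S'.card + (n - n₀)) * ((n + 1) * (n + 1)) ≤ (n + 1) ^ 2 * ((n + 1) * (n + 1)) :=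
          Nat.mul_le_mul_right _ h2
      _ = (n + 1) ^ 4 := by ring
      _ ≤ _ := Nat.le_succ _
  obtain ⟨F, hF1, hF2, hF3, hF4⟩ := exists_smooth_hypersurface f P hδ T hT hZ'
    (e := g n + n + 2) (N := (n + 1) ^ 4) (by omega) hdeg hN
  let eq : Fin (n₀ + 1) ⊕ Fin (n - n₀) ≃ Fin (n + 1) :=
    finSumFinEquiv.trans (finCongr (by omega))
  refine ⟨rename eq F, hF1.rename_isHomogeneous, smoothHypersurface_rename eq hF2,
    fun σ hσ => brodyHyperbolic_rename eq hF1 σ (hF3 σ hσ),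
    fun x => Sum.elim x 0 ∘ eq.symm, ?_, ?_, ?_⟩
  · intro x hx h0
    apply hx
    funext i
    have := congrFun h0 (eq (Sum.inl i))
    simpa using this
  · rintro x y - - ⟨t, ht⟩
    refine ⟨t, ?_⟩
    funext i
    have := congrFun ht (eq (Sum.inl i))
    simpa using this
  · intro x hx Q hQ
    rw [Set.mem_singleton_iff] at hQ
    subst hQ
    rw [eval₂_rename]
    have h1 : (Sum.elim x 0 ∘ eq.symm) ∘ eq = (Sum.elim x 0 : _ → k) := by
      funext c
      simp
    rw [h1]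
    exact hF4 x fun c => hx _ (hS' c.2)

lemma homog_singleton {ι k : Type*} [Field k] {F : MvPolynomial ι k} {m : ℕ}
    (hF : F.IsHomogeneous m) : Homog {F} := by
  intro P hP
  rw [Set.mem_singleton_iff] at hP
  exact ⟨m, hP ▸ hF⟩

/-- **Reduction to smooth hypersurfaces over the same field.** -/
theorem reduction_same_field (g : ℕ → ℕ) (k : Type*) [Field k] [CharZero k]
    (T : Set (k →+* ℂ)) (hT : T.Finite) (A : Set ℕ) (hA : A.Infinite) :
    (∀ (n : ℕ) (S : Set (MvPolynomial (Fin (n + 1)) k)), Homog S →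
      (∀ σ ∈ T, KobayashiHyperbolic (points σ S)) → (points (RingHom.id k) S).Finite) ↔
    (∀ n ∈ A, ∀ F : MvPolynomial (Fin (n + 1)) k, F.IsHomogeneous (dseq g n) →
      SmoothHypersurface F → (∀ σ ∈ T, KobayashiHyperbolic (points σ {F})) →
      (points (RingHom.id k) {F}).Finite) := by
  constructor
  · intro h n _ F hF _ hT
    exact h n {F} (homog_singleton hF) hT
  · intro h n₀ S hS hZ
    obtain ⟨n₁, hn₁⟩ := exists_smooth_hypersurface_fin g S hS T hT fun σ hσ => (hZ σ hσ).brody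
    obtain ⟨n, hnA, hn⟩ := hA.exists_gt n₁
    obtain ⟨F, hF1, hF2, hF3, Ψ, hΨ0, hΨ1, hΨ2⟩ := hn₁ n hn.le
    refine finite_transfer Ψ hΨ0 hΨ1 (homog_singleton hF1) hΨ2 (h n hnA F hF1 hF2 fun σ hσ => ?_)
    exact (hF3 σ hσ).kobayashi (pclosed_points (homog_singleton hF1) σ)

/-- **Reduction to smooth hypersurfaces over the rational numbers.** -/
theorem reduction_rational (g : ℕ → ℕ) (A : Set ℕ) (hA : A.Infinite) :
    (∀ (k : Type) [Field k] [NumberField k] (n : ℕ) (S : Set (MvPolynomial (Fin (n + 1)) k)),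
      Homog S → (∀ σ : k →+* ℂ, KobayashiHyperbolic (points σ S)) →
      (points (RingHom.id k) S).Finite) ↔
    (∀ n ∈ A, ∀ F : MvPolynomial (Fin (n + 1)) ℚ, F.IsHomogeneous (dseq g n) →
      SmoothHypersurface F → KobayashiHyperbolic (points (algebraMap ℚ ℂ) {F}) →
      (points (RingHom.id ℚ) {F}).Finite) := by
  constructor
  · intro h n _ F hF _ hT
    refine h ℚ n {F} (homog_singleton hF) fun σ => ?_
    rwa [Subsingleton.elim σ (algebraMap ℚ ℂ)]
  · intro h k _ _ n₀ S hS hZ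
    obtain ⟨r, S', Φ, hS', hS'1, hΦ0, hΦ1, hΦ2⟩ :=
      exists_rational_model S hS fun σ => (hZ σ).brody
    obtain ⟨r', rfl⟩ : ∃ r', r = r' + 1 := by
      refine ⟨r - 1, ?_⟩
      have h1 : r ≠ 0 := by
        rintro rfl
        apply hΦ0 (fun _ => 1)
        · intro h0
          exact one_ne_zero (congrFun h0 0)
        · funext i
          exact Fin.elim0 i
      omega
    refine finite_transfer Φ hΦ0 hΦ1 hS' hΦ2 ?_
    refine (reduction_same_field g ℚ {algebraMap ℚ ℂ} (Set.finite_singleton _) A hA).2 ?_ r' S' hS'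
      ?_
    · intro n hn F hF1 hF2 hF3
      exact h n hn F hF1 hF2 (hF3 _ rfl)
    · intro σ hσ
      rw [Set.mem_singleton_iff] at hσ
      subst hσ
      exact hS'1.kobayashi (pclosed_points hS' _)

end Pool.Agent.Lib.MP_627a61_nt
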