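import Pool.Agent.Lib.MP_627a61_nt.GoodForm
import Pool.Agent.Lib.MP_627a61_nt.Reduction

/-!
# Hypersurfaces with prescribed singular locus and prescribed rational points
-/

open scoped LinearAlgebra.Projectivization Topology
open Filter MvPolynomial

namespace Pool.Agent.Lib.MP_627a61_nt

/-- There are hyperbolic perturbed tower forms for which the pullback along a given tuple of
forms is singular only at the common zeros of these. -/
theorem exists_good_form {V : Type*} {k K : Type*} [Fintype V] [Field k] [CharZero k] [Field K]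
    [Algebra k K] {e : ℕ} (he : e ≠ 0) {N : ℕ} (hN : N ≠ 0) (C' : ℕ)
    (G : Fin (N + 1) → MvPolynomial V k) {r : ℕ} (hr : r ≠ 0) (hG : ∀ j, (G j).IsHomogeneous r)
    (j : ℕ) (hj : j ≤ N + 1) :
    ∃ (U : ℤ) (u : Fin (N + 1) → ℤ), Odd U ∧
      BrodyHyperbolic (points (algebraMap ℚ ℂ) {pform (4 * e) N C' U u}) ∧
      ∀ x : V → K, (∀ v, aeval x (pderiv v (aeval G (pform (4 * e) N C' U u))) = 0) →
        ∀ i : Fin (N + 1), (i : ℕ) < j → aeval x (G i) = 0 := by
  classical
  have hKchar : CharZero K := charZero_of_injective_algebraMap (algebraMap k K).injective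
  have hD : 2 ≤ (4 * e) ^ N := by
    calc 2 ≤ 4 * e := by omega
      _ = (4 * e) ^ 1 := (pow_one _).symm
      _ ≤ (4 * e) ^ N := Nat.pow_le_pow_right (by omega) (by omega)
  induction j with
  | zero =>
    refine ⟨1, 0, odd_one, ?_, fun x _ i hi => absurd hi (Nat.not_lt_zero _)⟩
    have h1 : points (algebraMap ℚ ℂ) {pform (4 * e) N C' 1 0} = tower (4 * e) N := by
      ext x
      simp only [points, tower, Set.mem_singleton_iff, forall_eq]
      rw [Set.mem_ofPred_eq, Set.mem_ofPred_eq, eval₂_pform]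
      simp
    rw [h1]
    exact brodyHyperbolic_tower he N
  | succ j ih =>
    obtain ⟨U, u, hU, hB, hS⟩ := ih (by omega)
    let i₀ : Fin (N + 1) := ⟨j, by omega⟩
    set D := (4 * e) ^ N with hDdef
    set Q := pform (4 * e) N C' U u with hQ
    have hQhom : Q.IsHomogeneous D := pform_homog _ _ _ _ _
    have hEhom : (C (2 ^ C' : ℚ) * X i₀ ^ D : MvPolynomial (Fin (N + 1)) ℚ).IsHomogeneous D :=
      (isHomogeneous_X_pow (R := ℚ) i₀ D).C_mul _
    have hev := eventually_hyperbolic_pencil hQhom hEhom (algebraMap ℚ ℂ) hB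
    -- the pencil over `K`
    set F : MvPolynomial V K := map (algebraMap k K) (aeval G Q) with hF
    set H : MvPolynomial V K := map (algebraMap k K) (C (2 ^ C' : k) * G i₀ ^ D) with hH
    have hFhom : F.IsHomogeneous (r * D) := (isHomogeneous_aeval_form hG hQhom).map _
    have hHhom : H.IsHomogeneous (r * D) := by
      have h1 := (((hG i₀).pow D).C_mul (2 ^ C' : k)).map (algebraMap k K)
      exact h1
    have hrD : r * D ≠ 0 := mul_ne_zero hr (by omega)
    have hfin := finite_singular_pencil hrD hFhom hHhom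
    have hev2 : ∀ᶠ M : ℕ in atTop, ¬ ∃ x : V → K,
        (∀ v, eval x (pderiv v ((M : MvPolynomial V K) * F + H)) = 0) ∧ eval x F ≠ 0 := by
      have := hfin.compl_mem_cofinite
      rw [Nat.cofinite_eq_atTop] at this
      exact this
    obtain ⟨M₀, hM₀⟩ := eventually_atTop.1 (hev.and hev2)
    set M := 2 * M₀ + 1 with hM
    obtain ⟨hM1, hM2⟩ := hM₀ M (by omega)
    refine ⟨M * U, fun l => M * u l + if l = i₀ then 1 else 0, ?_, ?_, ?_⟩
    · have h1 : Odd (M : ℤ) := ⟨M₀, by rw [hM]; push_cast; ring⟩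
      exact h1.mul hU
    · rw [pform_step]
      exact hM1
    · intro x hx
      rw [pform_step] at hx
      -- relation with the pencil
      have hmap : ∀ P : MvPolynomial V k, aeval x P = eval x (map (algebraMap k K) P) := by
        intro P
        rw [aeval_def, eval_map]
      have hpull : map (algebraMap k K) (aeval G ((M : MvPolynomial (Fin (N + 1)) ℚ) * Q +
          C (2 ^ C' : ℚ) * X i₀ ^ D)) = (M : MvPolynomial V K) * F + H := by
        have h1 : algebraMap ℚ (MvPolynomial V k) (2 ^ C') = C (2 ^ C' : k) := by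
          rw [map_pow, map_ofNat, C_pow]
          congr 1
        have h2 : aeval G (C (2 ^ C' : ℚ) * X i₀ ^ D : MvPolynomial (Fin (N + 1)) ℚ) =
            C (2 ^ C' : k) * G i₀ ^ D := by
          rw [map_mul, algHom_C, map_pow (aeval G) (X i₀) D, aeval_X, h1]
        rw [map_add, h2, map_mul, map_natCast, map_add, map_mul (MvPolynomial.map (algebraMap k K))
          (M : MvPolynomial V k), map_natCast]
      have hsing : ∀ v, eval x (pderiv v ((M : MvPolynomial V K) * F + H)) = 0 := by
        intro v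
        have h1 := hx v
        rw [hmap, ← pderiv_map, hpull] at h1
        exact h1
      have hFx : eval x F = 0 := by
        by_contra hcon
        exact hM2 ⟨x, hsing, hcon⟩
      have hrDK : ((r * D : ℕ) : K) ≠ 0 := by exact_mod_cast hrD
      have hHx : eval x H = 0 := by
        have h1 : ((M : MvPolynomial V K) * F + H).IsHomogeneous (r * D) := by
          have h2 := (hFhom.C_mul (M : K)).add hHhom
          rwa [map_natCast] at h2
        have h2 := congrArg (eval x) h1.sum_X_mul_pderiv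
        rw [map_sum, nsmul_eq_mul, map_mul, map_natCast] at h2
        simp only [map_mul, hsing, mul_zero, Finset.sum_const_zero] at h2
        have h3 := (mul_eq_zero.1 h2.symm).resolve_left hrDK
        rw [map_add, map_mul, hFx, mul_zero, zero_add] at h3
        exact h3
      have hGx : aeval x (G i₀) = 0 := by
        rw [hH, ← hmap, map_mul, map_pow (aeval x) (G i₀) D, algHom_C] at hHx
        have h2 : algebraMap k K (2 ^ C') ≠ 0 := by
          rw [Ne, map_eq_zero]
          exact pow_ne_zero _ two_ne_zero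
        exact pow_eq_zero_iff (by omega) |>.1 ((mul_eq_zero.1 hHx).resolve_left h2)
      have hprev : ∀ v, aeval x (pderiv v (aeval G Q)) = 0 := by
        intro v
        have h1 := hsing v
        have h2 : pderiv v (M : MvPolynomial V K) = 0 := by
          rw [← map_natCast (C : K →+* MvPolynomial V K) M]
          exact pderiv_C
        have h4 : eval x (pderiv v H) = 0 := by
          rw [hH, pderiv_map, ← hmap, pderiv_mul, pderiv_C, zero_mul, zero_add, pderiv_pow,
            map_mul, map_mul, map_mul, map_pow (aeval x) (G i₀) (D - 1), hGx,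
            zero_pow (by omega), mul_zero, zero_mul, mul_zero]
        rw [map_add, pderiv_mul, h2, zero_mul, zero_add, map_add, map_mul, map_natCast, h4,
          add_zero] at h1
        have hM0 : (M : K) ≠ 0 := by
          have : M ≠ 0 := by omega
          exact_mod_cast this
        have h3 := (mul_eq_zero.1 h1).resolve_left hM0
        rw [hF, pderiv_map, ← hmap] at h3
        exact h3
      intro i hi
      by_cases hij : (i : ℕ) < j
      · exact hS x hprev i hij
      · have : i = i₀ := Fin.ext (by simp only [i₀]; omega)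
        rw [this]
        exact hGx

lemma eval₂_zero_of_homog {κ k L : Type*} [Field k] [Field L] {Q : MvPolynomial κ k} {m : ℕ}
    (hm : m ≠ 0) (hQ : Q.IsHomogeneous m) (τ : k →+* L) : Q.eval₂ τ (0 : κ → L) = 0 := by
  have h1 := eval₂_smul_homog hQ τ (0 : L) (0 : κ → L)
  rw [smul_zero, zero_pow hm, zero_mul] at h1
  exact h1

/-- **Exact hypersurfaces.** -/
theorem exists_exact_hypersurface {k : Type} [Field k] [NumberField k] {n : ℕ}
    (S : Set (MvPolynomial (Fin (n + 1)) k)) (hS : Homog S) (hS0 : ∃ P ∈ S, P ≠ 0) (D g : ℕ) :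
    ∃ (m : ℕ) (F : MvPolynomial (Fin (n + 1)) k), g ≤ m ∧ F ≠ 0 ∧ F.IsHomogeneous m ∧
      (∀ σ : k →+* ℂ, BrodyHyperbolic (points σ S) → BrodyHyperbolic (points σ {F})) ∧
      (∀ (L : Type) [Field L] (τ : k →+* L) (x : Fin (n + 1) → L),
        (∀ P ∈ S, P.eval₂ τ x = 0) → F.eval₂ τ x = 0) ∧
      (∀ (L : Type) [Field L] [Algebra k L] [FiniteDimensional k L], Module.finrank k L ≤ D →
        ∀ x : Fin (n + 1) → L, x ≠ 0 → F.eval₂ (algebraMap k L) x = 0 →
          ∀ P ∈ S, P.eval₂ (algebraMap k L) x = 0) ∧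
      (∀ x : Fin (n + 1) → AlgebraicClosure k, x ≠ 0 →
        ((∀ v, aeval x (pderiv v F) = 0) ↔ ∀ P ∈ S, aeval x P = 0)) := by
  classical
  obtain ⟨S', hS', hS'2⟩ := exists_finite_equations S
  let P : {F // F ∈ S'} → MvPolynomial (Fin (n + 1)) k := fun F => F.1
  have hP : ∀ c : {F // F ∈ S'}, ∃ n, (P c).IsHomogeneous n := fun c => hS _ (hS' c.2)
  choose δ hδ using hP
  have hPS : ∀ (L : Type) [Field L] (τ : k →+* L) (x : Fin (n + 1) → L),
      (∀ c, (P c).eval₂ τ x = 0) → ∀ F ∈ S, F.eval₂ τ x = 0 := by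
    intro L _ τ x h
    exact hS'2 L τ x fun F hF => h ⟨F, hF⟩
  -- not all equations are zero
  obtain ⟨P₀, hP₀S, hP₀⟩ := hS0
  have hX : ∃ x : Fin (n + 1) → AlgebraicClosure k, x ≠ 0 ∧ aeval x P₀ ≠ 0 := by
    by_contra hcon
    push Not at hcon
    have h1 : map (algebraMap k (AlgebraicClosure k)) P₀ * X 0 = 0 := by
      apply MvPolynomial.funext
      intro x
      rw [map_mul, eval_X, map_zero, eval_map]
      by_cases hx : x = 0
      · rw [hx]; simp
      · have := hcon x hx
        rw [aeval_def] at this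
        rw [this, zero_mul]
    have h2 := (mul_eq_zero.1 h1).resolve_right (X_ne_zero 0)
    apply hP₀
    apply map_injective (algebraMap k (AlgebraicClosure k)) (algebraMap k _).injective
    rw [h2, map_zero]
  have hne : Nonempty {F // F ∈ S'} := by
    by_contra hcon
    rw [not_nonempty_iff] at hcon
    obtain ⟨x, hx, hx0⟩ := hX
    exact hx0 (hPS _ (algebraMap k (AlgebraicClosure k)) x (fun c => hcon.elim c) P₀ hP₀S)
  -- parameters
  obtain ⟨B, hB⟩ := (Set.finite_range δ).bddAbove
  obtain ⟨r, hr1, hr2, hr3⟩ : ∃ r : ℕ, g ≤ r ∧ r ≠ 0 ∧ ∀ c, δ c < r := by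
    refine ⟨g + B + 1, by omega, by omega, fun c => ?_⟩
    have := hB ⟨c, rfl⟩
    omega
  set e₀ := D * Module.finrank ℚ k + 1 with he₀
  set d := 4 * e₀ with hd
  obtain ⟨c₀⟩ := hne
  obtain ⟨N, hN, s, hs⟩ : ∃ N : ℕ, N ≠ 0 ∧ ∃ s : Fin (N + 1) →
      {F // F ∈ S'} × Fin (n + 1) × Fin (n + 1), Function.Surjective s := by
    refine ⟨Fintype.card ({F // F ∈ S'} × Fin (n + 1) × Fin (n + 1)), ?_, ?_⟩
    · have : Nonempty ({F // F ∈ S'} × Fin (n + 1) × Fin (n + 1)) := ⟨(c₀, 0, 0)⟩
      exact Fintype.card_ne_zero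
    · obtain ⟨g⟩ := Function.Embedding.nonempty_of_card_le
        (α := {F // F ∈ S'} × Fin (n + 1) × Fin (n + 1))
        (β := Fin (Fintype.card ({F // F ∈ S'} × Fin (n + 1) × Fin (n + 1)) + 1)) (by simp)
      have : Nonempty ({F // F ∈ S'} × Fin (n + 1) × Fin (n + 1)) := ⟨(c₀, 0, 0)⟩
      exact ⟨Function.invFun g, Function.invFun_surjective g.injective⟩
  let G : Fin (N + 1) → MvPolynomial (Fin (n + 1)) k := fun i => gfam P δ r (s i)
  have hG : ∀ i, (G i).IsHomogeneous r := fun i => gfam_homog hδ hr3 (s i)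
  obtain ⟨U, u, hU, hB', hS2⟩ := exists_good_form (K := AlgebraicClosure k) (e := e₀)
    (by omega) hN (cexp d N + 1) G hr2 hG (N + 1) le_rfl
  set Q := pform (4 * e₀) N (cexp d N + 1) U u with hQ
  have hQhom : Q.IsHomogeneous ((4 * e₀) ^ N) := pform_homog _ _ _ _ _
  have hDN : 1 ≤ (4 * e₀) ^ N := Nat.one_le_pow _ _ (by omega)
  have hD2 : 2 ≤ (4 * e₀) ^ N := by
    calc 2 ≤ 4 * e₀ := by omega
      _ = (4 * e₀) ^ 1 := (pow_one _).symm
      _ ≤ (4 * e₀) ^ N := Nat.pow_le_pow_right (by omega) (by omega)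
  have hzero : ∀ {L : Type} [Field L] (τ : k →+* L) {x : Fin (n + 1) → L}, x ≠ 0 →
      ((∀ i, (G i).eval₂ τ x = 0) ↔ ∀ c, (P c).eval₂ τ x = 0) := by
    intro L _ τ x hx
    rw [← gfam_zero_iff (δ := δ) (e := r) τ hx]
    constructor
    · intro h c
      obtain ⟨i, rfl⟩ := hs c
      exact h i
    · intro h i
      exact h (s i)
  have hsing : ∀ x : Fin (n + 1) → AlgebraicClosure k, x ≠ 0 →
        ((∀ v, aeval x (pderiv v (aeval G Q)) = 0) ↔ ∀ P ∈ S, aeval x P = 0) := by
    intro x hx
    constructor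
    · intro h
      have h1 := hS2 x h
      have h2 : ∀ i, (G i).eval₂ (algebraMap k (AlgebraicClosure k)) x = 0 := fun i => h1 i i.2
      exact hPS _ _ x ((hzero _ hx).1 h2)
    · intro h v
      have h2 : ∀ i, (G i).eval₂ (algebraMap k (AlgebraicClosure k)) x = 0 :=
        (hzero _ hx).2 fun c => h _ (hS' c.2)
      rw [pderiv_aeval_form, map_sum]
      apply Finset.sum_eq_zero
      intro j _
      rw [map_mul]
      have h3 : aeval x (aeval G (pderiv j Q)) = 0 := by
        rw [aeval_def, eval₂_aeval_form (algebraMap k (AlgebraicClosure k)) G (pderiv j Q)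
          (algebraMap ℚ (AlgebraicClosure k)) x]
        have h4 : (fun j => (G j).eval₂ (algebraMap k (AlgebraicClosure k)) x) = 0 := funext h2
        rw [h4]
        exact eval₂_zero_of_homog (m := (4 * e₀) ^ N - 1) (by omega) hQhom.pderiv _
      rw [h3, zero_mul]
  refine ⟨r * (4 * e₀) ^ N, aeval G Q, ?_, ?_, isHomogeneous_aeval_form hG hQhom, ?_, ?_, ?_,
    hsing⟩
  · exact hr1.trans (Nat.le_mul_of_pos_right _ (by omega))
  · intro h0
    obtain ⟨x, hx, hx0⟩ := hX
    apply hx0
    refine (hsing x hx).1 (fun v => ?_) P₀ hP₀S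
    rw [h0, map_zero, map_zero]
  · intro σ hZ
    have h1 : points σ {aeval G Q} = {x : ℙ ℂ (Fin (n + 1) → ℂ) |
        Q.eval₂ (algebraMap ℚ ℂ) ((fun (y : Fin (n + 1) → ℂ) i => (G i).eval₂ σ y) x.rep) = 0} := by
      ext x
      simp only [points, Set.mem_singleton_iff, forall_eq]
      rw [Set.mem_ofPred_eq, Set.mem_ofPred_eq, eval₂_aeval_form σ G Q (algebraMap ℚ ℂ)]
    rw [h1]
    refine brodyHyperbolic_pullback' (algebraMap ℚ ℂ) hQhom hB'
      (fun (y : Fin (n + 1) → ℂ) i => (G i).eval₂ σ y) ?_ r ?_ ?_ ?_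
    · intro x
      rw [analyticAt_pi_iff]
      intro i
      exact analyticAt_eval₂ _ σ x
    · intro t x
      funext i
      exact eval₂_smul_homog (hG i) σ t x
    · intro x y hx _ ⟨c, hc⟩
      obtain ⟨i, hi⟩ := Function.ne_iff.1 hx
      refine gfam_inj σ (c₀ := (s i).1) (a₀ := (s i).2.1) (b₀ := (s i).2.2) hi (t := c) ?_
      intro c'
      obtain ⟨i', rfl⟩ := hs c'
      exact congrFun hc i'
    · have h2 : {x : ℙ ℂ (Fin (n + 1) → ℂ) |
          (fun (y : Fin (n + 1) → ℂ) i => (G i).eval₂ σ y) x.rep = 0} = points σ S := by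
        ext x
        rw [Set.mem_ofPred_eq]
        constructor
        · intro h
          exact hPS ℂ σ x.rep ((hzero σ x.rep_nonzero).1 fun i => congrFun h i)
        · intro h
          funext i
          exact (hzero σ x.rep_nonzero).2 (fun c => h _ (hS' c.2)) i
      rw [h2]
      exact hZ
  · intro L _ τ x h
    have : CharZero L := charZero_of_injective_ringHom τ.injective
    rw [eval₂_aeval_form τ G Q (algebraMap ℚ L) x]
    have h4 : (fun j => (G j).eval₂ τ x) = 0 := by
      funext i
      simp only [G, Pi.zero_apply]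
      rw [eval₂_gfam, h _ (hS' (s i).1.2), mul_zero]
    rw [h4]
    exact eval₂_zero_of_homog (m := (4 * e₀) ^ N) (by omega) hQhom _
  · intro L _ _ _ hL x hx hF
    have : NumberField L := NumberField.of_module_finite k L
    have hdeg : Module.finrank ℚ L < 4 * e₀ := by
      have h1 : Module.finrank ℚ k * Module.finrank k L = Module.finrank ℚ L :=
        Module.finrank_mul_finrank ℚ k L
      have h2 : Module.finrank ℚ k * Module.finrank k L ≤ D * Module.finrank ℚ k := by
        rw [mul_comm]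
        exact Nat.mul_le_mul_right _ hL
      omega
    obtain ⟨v, hv⟩ := exists_twoNotPow L hdeg
    rw [eval₂_aeval_form (algebraMap k L) G Q (algebraMap ℚ L) x, eval₂_pform] at hF
    have h3 := hv.anisotropic (Nat.lt_succ_self _) hU u hF
    exact hPS L _ x ((hzero _ hx).1 fun i => congrFun h3 i)

end Pool.Agent.Lib.MP_627a61_nt
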