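import Pool.Agent.Lib.MP_627a61_nt.Points

/-!
# Brody hyperbolic closed sets are Kobayashi hyperbolic, and conversely
-/

open scoped LinearAlgebra.Projectivization Topology ComplexConjugate
open Filter Metric

namespace Pool.Agent.Lib.MP_627a61_nt

variable {ι : Type*} [Fintype ι]

lemma hasDerivAt_artanh {x : ℝ} (h1 : -1 < x) (h2 : x < 1) :
    HasDerivAt Real.artanh (1 / (1 - x ^ 2)) x := by
  have hev : Real.artanh =ᶠ[𝓝 x] fun y => 1 / 2 * Real.log ((1 + y) / (1 - y)) := by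
    filter_upwards [Ioo_mem_nhds h1 h2] with y hy
    exact Real.artanh_eq_half_log ⟨hy.1.le, hy.2.le⟩
  have hx1 : 1 - x ≠ 0 := by linarith
  have hx2 : 1 + x ≠ 0 := by linarith
  have hpos : (1 + x) / (1 - x) ≠ 0 := div_ne_zero hx2 hx1
  have hd1 : HasDerivAt (fun y : ℝ => (1 + y) / (1 - y)) ((1 * (1 - x) - (1 + x) * (-1)) /
      (1 - x) ^ 2) x := by
    have a1 : HasDerivAt (fun y : ℝ => 1 + y) 1 x := by
      simpa using (hasDerivAt_id x).const_add 1
    have a2 : HasDerivAt (fun y : ℝ => 1 - y) (-1) x := by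
      simpa using (hasDerivAt_id x).const_sub 1
    exact a1.div a2 hx1
  have hd2 := (hd1.log hpos).const_mul (1 / 2)
  refine (hd2.congr_of_eventuallyEq hev).congr_deriv ?_
  have h3 : (1 : ℝ) - x ^ 2 ≠ 0 := by
    have : (1 : ℝ) - x ^ 2 = (1 - x) * (1 + x) := by ring
    rw [this]
    exact mul_ne_zero hx1 hx2
  field_simp
  ring

/-- The Moebius map of the disc sending `0` to `a`. -/
noncomputable def mob (a w : ℂ) : ℂ := (w + a) / (1 + conj a * w)

lemma one_add_ne_zero {a w : ℂ} (ha : ‖a‖ < 1) (hw : ‖w‖ < 1) : 1 + conj a * w ≠ 0 := by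
  intro h
  have h1 : ‖conj a * w‖ = 1 := by
    have : conj a * w = -1 := by linear_combination h
    rw [this]; simp
  rw [norm_mul, RCLike.norm_conj] at h1
  nlinarith [norm_nonneg a, norm_nonneg w]

lemma norm_mob_lt {a w : ℂ} (ha : ‖a‖ < 1) (hw : ‖w‖ < 1) : ‖mob a w‖ < 1 := by
  have hne := one_add_ne_zero ha hw
  rw [mob, norm_div, div_lt_one (norm_pos_iff.2 hne)]
  have key : ‖w + a‖ ^ 2 < ‖1 + conj a * w‖ ^ 2 := by
    have e1 : ‖w + a‖ ^ 2 = ‖w‖ ^ 2 + ‖a‖ ^ 2 + 2 * (conj a * w).re := by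
      rw [← Complex.normSq_eq_norm_sq, ← Complex.normSq_eq_norm_sq, ← Complex.normSq_eq_norm_sq,
        Complex.normSq_add]
      simp only [Complex.mul_re, Complex.conj_re, Complex.conj_im]
      ring
    have e2 : ‖1 + conj a * w‖ ^ 2 = 1 + ‖a‖ ^ 2 * ‖w‖ ^ 2 + 2 * (conj a * w).re := by
      rw [← Complex.normSq_eq_norm_sq, ← Complex.normSq_eq_norm_sq, ← Complex.normSq_eq_norm_sq,
        Complex.normSq_add, Complex.normSq_mul, Complex.normSq_conj]
      simp only [Complex.mul_re, Complex.conj_re, Complex.conj_im, one_mul, map_one]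
    rw [e1, e2]
    have h1 : ‖a‖ ^ 2 < 1 := by nlinarith [norm_nonneg a]
    have h2 : ‖w‖ ^ 2 < 1 := by nlinarith [norm_nonneg w]
    nlinarith
  exact lt_of_pow_lt_pow_left₀ 2 (norm_nonneg _) key

lemma analyticAt_mob {a w : ℂ} (ha : ‖a‖ < 1) (hw : ‖w‖ < 1) : AnalyticAt ℂ (mob a) w := by
  unfold mob
  exact (analyticAt_id.add analyticAt_const).div
    (analyticAt_const.add (analyticAt_const.mul analyticAt_id)) (one_add_ne_zero ha hw)

lemma mob_zero (a : ℂ) : mob a 0 = a := by simp [mob]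

lemma hasDerivAt_mob_zero (a : ℂ) : HasDerivAt (mob a) (1 - conj a * a) 0 := by
  have a1 : HasDerivAt (fun w : ℂ => w + a) 1 0 := by simpa using (hasDerivAt_id (0 : ℂ)).add_const a
  have a2 : HasDerivAt (fun w : ℂ => 1 + conj a * w) (conj a) 0 := by
    simpa using ((hasDerivAt_id (0 : ℂ)).const_mul (conj a)).const_add 1
  have h := a1.div a2 (by simp)
  refine h.congr_deriv ?_
  simp
  ring

lemma mob_inv {a b : ℂ} (ha : ‖a‖ < 1) (hb : ‖b‖ < 1) :
    ‖(b - a) / (1 - conj a * b)‖ < 1 ∧ mob a ((b - a) / (1 - conj a * b)) = b := by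
  have ha' : ‖-a‖ < 1 := by rwa [norm_neg]
  have h1 := norm_mob_lt ha' hb
  have h0 := one_add_ne_zero ha' hb
  simp only [map_neg] at h0
  have h0' : 1 - conj a * b ≠ 0 := by
    intro h; apply h0; linear_combination h
  have e1 : mob (-a) b = (b - a) / (1 - conj a * b) := by
    simp only [mob, map_neg]
    ring
  rw [e1] at h1
  refine ⟨h1, ?_⟩
  have h2 := one_add_ne_zero ha h1
  rw [mob, div_eq_iff h2]
  have hq : (b - a) / (1 - conj a * b) * (1 - conj a * b) = b - a := div_mul_cancel₀ _ h0'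
  linear_combination hq

/-- a speed bound at all points of the disc -/
lemma spd_le_of_bound {Y : Set (ℙ ℂ (ι → ℂ))} {C : ℝ}
    (hC : ∀ φ : ℂ → ℙ ℂ (ι → ℂ), (∀ z ∈ ball (0 : ℂ) 1, HolomorphicAt φ z ∧ φ z ∈ Y) →
      spd φ 0 ≤ C) {φ : ℂ → ℙ ℂ (ι → ℂ)}
    (hφ : ∀ z ∈ ball (0 : ℂ) 1, HolomorphicAt φ z ∧ φ z ∈ Y) {a : ℂ} (ha : ‖a‖ < 1) :
    spd φ a * (1 - ‖a‖ ^ 2) ≤ C := by
  have h1 := hC (fun w => φ (mob a w)) (fun z hz => by
    have hz' : ‖z‖ < 1 := by simpa using hz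
    have hm : mob a z ∈ ball (0 : ℂ) 1 := by simpa using norm_mob_lt ha hz'
    exact ⟨(hφ _ hm).1.comp (analyticAt_mob ha hz'), (hφ _ hm).2⟩)
  have h2 : spd (fun w => φ (mob a w)) 0 = spd φ a * (1 - ‖a‖ ^ 2) := by
    unfold spd
    have hφa : HolomorphicAt φ a := (hφ a (by simpa using ha)).1
    have e1 : HasFDerivAt (fun w => pm (φ w)) (fderiv ℝ (fun w => pm (φ w)) a) (mob a 0) := by
      rw [mob_zero]
      exact ((hφa.contDiffAt (n := 1)).differentiableAt (by norm_num)).hasFDerivAt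
    have e2 : HasFDerivAt (mob a) (((1 - ‖a‖ ^ 2 : ℝ)) • ContinuousLinearMap.id ℝ ℂ) 0 := by
      have e3 := (hasDerivAt_mob_zero a).hasFDerivAt.restrictScalars ℝ
      refine e3.congr_fderiv ?_
      ext1
      simp only [ContinuousLinearMap.coe_restrictScalars', ContinuousLinearMap.toSpanSingleton_apply,
        smul_apply, ContinuousLinearMap.id_apply, Complex.real_smul, smul_eq_mul]
      rw [← Complex.normSq_eq_conj_mul_self, Complex.normSq_eq_norm_sq]
      push_cast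
      ring
    have e4 := (e1.comp (0 : ℂ) e2).fderiv
    have e5 : (fun w => pm (φ (mob a w))) = (fun w => pm (φ w)) ∘ mob a := rfl
    have e6 : 0 ≤ 1 - ‖a‖ ^ 2 := by nlinarith [norm_nonneg a]
    rw [e5, e4, ContinuousLinearMap.comp_smul, ContinuousLinearMap.comp_id, norm_smul,
      Real.norm_of_nonneg e6, mul_comm]
  rwa [h2] at h1

/-- distance estimate from the centre of the disc -/
lemma norm_pm_sub_le_artanh {Y : Set (ℙ ℂ (ι → ℂ))} {C : ℝ}
    (hC : ∀ φ : ℂ → ℙ ℂ (ι → ℂ), (∀ z ∈ ball (0 : ℂ) 1, HolomorphicAt φ z ∧ φ z ∈ Y) →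
      spd φ 0 ≤ C) {φ : ℂ → ℙ ℂ (ι → ℂ)}
    (hφ : ∀ z ∈ ball (0 : ℂ) 1, HolomorphicAt φ z ∧ φ z ∈ Y) {b : ℂ} (hb : ‖b‖ < 1) :
    ‖pm (φ b) - pm (φ 0)‖ ≤ C * Real.artanh ‖b‖ := by
  have hball : ∀ t ∈ Set.Icc (0 : ℝ) 1, ‖(t : ℂ) * b‖ < 1 := by
    intro t ht
    rw [norm_mul, Complex.norm_real, Real.norm_of_nonneg ht.1]
    calc t * ‖b‖ ≤ 1 * ‖b‖ := by gcongr; exact ht.2
      _ < 1 := by linarith
  have hd : ∀ t ∈ Set.Icc (0 : ℝ) 1, HasDerivAt (fun s : ℝ => pm (φ (s * b)) - pm (φ 0))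
      ((fderiv ℝ (fun w => pm (φ w)) (t * b)) b) t := by
    intro t ht
    have h1 : HasFDerivAt (fun w => pm (φ w)) (fderiv ℝ (fun w => pm (φ w)) (t * b)) (t * b) :=
      (((hφ _ (by simpa using hball t ht)).1.contDiffAt (n := 1)).differentiableAt
        (by norm_num)).hasFDerivAt
    have h2 : HasDerivAt (fun s : ℝ => (s : ℂ) * b) b t := by
      have h3 : HasDerivAt (fun s : ℝ => (s : ℂ)) 1 t := Complex.ofRealCLM.hasDerivAt
      simpa using h3.mul_const b
    exact (h1.comp_hasDerivAt t h2).sub_const _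
  have hB : ∀ t ∈ Set.Icc (0 : ℝ) 1, HasDerivAt (fun s : ℝ => C * Real.artanh (s * ‖b‖))
      (C * (1 / (1 - (t * ‖b‖) ^ 2) * ‖b‖)) t := by
    intro t ht
    have h1 : t * ‖b‖ < 1 := by
      have := hball t ht
      rwa [norm_mul, Complex.norm_real, Real.norm_of_nonneg ht.1] at this
    have h0 : -1 < t * ‖b‖ := by
      have : 0 ≤ t * ‖b‖ := mul_nonneg ht.1 (norm_nonneg _)
      linarith
    have h2 : HasDerivAt (fun s : ℝ => s * ‖b‖) ‖b‖ t := by
      simpa using (hasDerivAt_id t).mul_const ‖b‖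
    have h3 := ((hasDerivAt_artanh h0 h1).comp t h2).const_mul C
    exact h3
  have hmain := image_norm_le_of_norm_deriv_right_le_deriv_boundary'
    (f := fun s : ℝ => pm (φ (s * b)) - pm (φ 0)) (a := 0) (b := 1)
    (f' := fun t => (fderiv ℝ (fun w => pm (φ w)) (t * b)) b)
    (B := fun s : ℝ => C * Real.artanh (s * ‖b‖))
    (B' := fun t => C * (1 / (1 - (t * ‖b‖) ^ 2) * ‖b‖))
    (fun t ht => (hd t ht).continuousAt.continuousWithinAt)
    (fun t ht => (hd t ⟨ht.1, ht.2.le⟩).hasDerivWithinAt)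
    (by simp)
    (fun t ht => (hB t ht).continuousAt.continuousWithinAt)
    (fun t ht => (hB t ⟨ht.1, ht.2.le⟩).hasDerivWithinAt)
    (by
      intro t ht
      have ht' : t ∈ Set.Icc (0 : ℝ) 1 := ⟨ht.1, ht.2.le⟩
      have h1 := hball t ht'
      have h2 := spd_le_of_bound hC hφ h1
      have h3 : ‖(t : ℂ) * b‖ = t * ‖b‖ := by
        rw [norm_mul, Complex.norm_real, Real.norm_of_nonneg ht.1]
      rw [h3] at h1 h2
      have h0 : 0 ≤ t * ‖b‖ := mul_nonneg ht.1 (norm_nonneg _)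
      have h4 : 0 < 1 - (t * ‖b‖) ^ 2 := by nlinarith
      calc ‖(fderiv ℝ (fun w => pm (φ w)) (t * b)) b‖
          ≤ ‖fderiv ℝ (fun w => pm (φ w)) (t * b)‖ * ‖b‖ := ContinuousLinearMap.le_opNorm _ _
        _ ≤ (C / (1 - (t * ‖b‖) ^ 2)) * ‖b‖ := by
            gcongr
            rw [le_div_iff₀ h4]
            exact h2
        _ = C * (1 / (1 - (t * ‖b‖) ^ 2) * ‖b‖) := by ring)
    (x := 1) (by simp)
  simpa using hmain

/-- Brody's theorem: a closed Brody hyperbolic subset of projective space is Kobayashi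
hyperbolic. -/
theorem BrodyHyperbolic.kobayashi {Y : Set (ℙ ℂ (ι → ℂ))} (hY : BrodyHyperbolic Y)
    (hc : PClosed Y) : KobayashiHyperbolic Y := by
  obtain ⟨C, hC0, hC⟩ := exists_speed_bound hY hc
  refine ⟨fun x y => ‖pm x - pm y‖ / C, ?_, ?_, ?_, ?_, ?_⟩
  · intro x _; simp
  · intro x _ y _ hxy
    apply div_pos _ hC0
    rw [norm_pos_iff, sub_ne_zero]
    exact fun h => hxy (pm_injective h)
  · intro x _ y _
    simp only
    rw [norm_sub_rev]
  · intro x _ y _ z _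
    simp only
    rw [← add_div]
    gcongr
    calc ‖pm x - pm z‖ = ‖(pm x - pm y) + (pm y - pm z)‖ := by congr 1; abel
      _ ≤ _ := norm_add_le _ _
  · intro φ hφ a ha b hb
    have ha' : ‖a‖ < 1 := by simpa using ha
    have hb' : ‖b‖ < 1 := by simpa using hb
    obtain ⟨h1, h2⟩ := mob_inv ha' hb'
    have h3 := norm_pm_sub_le_artanh hC (φ := fun w => φ (mob a w)) (fun z hz => by
      have hz' : ‖z‖ < 1 := by simpa using hz
      have hm : mob a z ∈ ball (0 : ℂ) 1 := by simpa using norm_mob_lt ha' hz'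
      exact ⟨(hφ _ hm).1.comp (analyticAt_mob ha' hz'), (hφ _ hm).2⟩) h1
    simp only [h2, mob_zero] at h3
    rw [div_le_iff₀ hC0, norm_sub_rev, mul_comm, poincareDist]
    rwa [norm_div, norm_sub_rev b a, ← norm_div] at h3

/-- Kobayashi hyperbolic sets are Brody hyperbolic. -/
theorem KobayashiHyperbolic.brody {Y : Set (ℙ ℂ (ι → ℂ))} (hY : KobayashiHyperbolic Y) :
    BrodyHyperbolic Y := by
  obtain ⟨d, -, hpos, -, -, hdec⟩ := hY
  intro φ hφ hφY z w
  by_contra hne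
  have h0 : 0 < d (φ z) (φ w) := hpos _ (hφY z) _ (hφY w) hne
  have hbound : ∀ᶠ R : ℝ in atTop, d (φ z) (φ w) ≤ poincareDist (z / R) (w / R) := by
    filter_upwards [eventually_gt_atTop (‖z‖ + ‖w‖ + 1)] with R hR
    have hR0 : 0 < R := by linarith [norm_nonneg z, norm_nonneg w]
    have hR1 : (R : ℂ) ≠ 0 := by exact_mod_cast hR0.ne'
    have key : ∀ u : ℂ, ‖u‖ < R → u / R ∈ ball (0 : ℂ) 1 := by
      intro u hu
      rw [mem_ball_zero_iff, norm_div, Complex.norm_real, Real.norm_of_nonneg hR0.le,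
        div_lt_one hR0]
      exact hu
    have h1 := hdec (fun u => φ (0 + (R : ℂ) * u)) (fun u _ => ⟨(hφ _).comp_affine, hφY _⟩)
      (z / R) (key z (by linarith [norm_nonneg w])) (w / R) (key w (by linarith [norm_nonneg z]))
    simp only [zero_add, mul_div_cancel₀ _ hR1] at h1
    exact h1
  have hlim : Tendsto (fun R : ℝ => poincareDist (z / R) (w / R)) atTop (𝓝 0) := by
    unfold poincareDist
    have hz : ∀ u : ℂ, Tendsto (fun R : ℝ => u / (R : ℂ)) atTop (𝓝 0) := by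
      intro u
      rw [tendsto_zero_iff_norm_tendsto_zero]
      have h1 : Tendsto (fun R : ℝ => ‖u‖ / R) atTop (𝓝 0) := tendsto_const_nhds.div_atTop tendsto_id
      refine h1.congr' ?_
      filter_upwards [eventually_gt_atTop 0] with R hR
      rw [norm_div, Complex.norm_real, Real.norm_of_nonneg hR.le]
    have h2 : Tendsto (fun R : ℝ => ‖(z / (R : ℂ) - w / R) / (1 - conj (z / (R : ℂ)) * (w / R))‖)
        atTop (𝓝 0) := by
      have h3 : Tendsto (fun R : ℝ => (z / (R : ℂ) - w / R) / (1 - conj (z / (R : ℂ)) * (w / R)))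
          atTop (𝓝 ((0 - 0) / (1 - conj (0 : ℂ) * 0))) :=
        ((hz z).sub (hz w)).div
          (tendsto_const_nhds.sub (((Complex.continuous_conj.tendsto _).comp (hz z)).mul (hz w)))
          (by simp)
      simpa using h3.norm
    have h4 : ContinuousAt Real.artanh 0 :=
      (hasDerivAt_artanh (x := 0) (by norm_num) (by norm_num)).continuousAt
    have h5 := h4.tendsto.comp h2
    simpa [Function.comp_def] using h5
  exact absurd (ge_of_tendsto hlim hbound) (not_le.2 h0)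

theorem kobayashi_iff_brody {Y : Set (ℙ ℂ (ι → ℂ))} (hc : PClosed Y) :
    KobayashiHyperbolic Y ↔ BrodyHyperbolic Y :=
  ⟨fun h => h.brody, fun h => h.kobayashi hc⟩

end Pool.Agent.Lib.MP_627a61_nt
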