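import Pool.Agent.Lib.MP_627a61_nt.Tower

/-!
# Zero loci of homogeneous polynomials in projective space
-/

open scoped LinearAlgebra.Projectivization Topology ComplexConjugate
open Filter Metric MvPolynomial

namespace Pool.Agent.Lib.MP_627a61_nt

variable {ι κ k L : Type*} [Field k] [Field L]

lemma eval₂_smul_homog {F : MvPolynomial ι k} {n : ℕ} (hF : F.IsHomogeneous n) (τ : k →+* L)
    (t : L) (v : ι → L) : F.eval₂ τ (t • v) = t ^ n * F.eval₂ τ v := by
  rw [eval₂_eq, eval₂_eq, Finset.mul_sum]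
  refine Finset.sum_congr rfl fun d hd => ?_
  have h1 : ∑ i ∈ d.support, d i = n := (hF.degree_eq_sum_deg_support hd).symm
  simp only [Pi.smul_apply, smul_eq_mul, mul_pow, Finset.prod_mul_distrib,
    Finset.prod_pow_eq_pow_sum, h1]
  ring

/-- the degree of a set of homogeneous polynomials is not fixed -/
def Homog (S : Set (MvPolynomial ι k)) : Prop := ∀ F ∈ S, ∃ n, F.IsHomogeneous n

lemma mem_points_mk {S : Set (MvPolynomial ι k)} (hS : Homog S) (τ : k →+* L) {v : ι → L}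
    (hv : v ≠ 0) :
    Projectivization.mk L v hv ∈ points τ S ↔ ∀ F ∈ S, F.eval₂ τ v = 0 := by
  obtain ⟨t, ht, hrep⟩ := exists_rep_eq (p := Projectivization.mk L v hv) (v := v) (hv := hv) rfl
  constructor
  · intro h F hF
    obtain ⟨n, hn⟩ := hS F hF
    have h1 := h F hF
    rw [hrep, eval₂_smul_homog hn] at h1
    exact (mul_eq_zero.1 h1).resolve_left (pow_ne_zero _ ht)
  · intro h F hF
    obtain ⟨n, hn⟩ := hS F hF
    rw [hrep, eval₂_smul_homog hn, h F hF, mul_zero]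

lemma analyticAt_eval₂ [Fintype ι] (F : MvPolynomial ι k) (σ : k →+* ℂ) (x : ι → ℂ) :
    AnalyticAt ℂ (fun y : ι → ℂ => F.eval₂ σ y) x := by
  let _ := σ.toAlgebra
  exact AnalyticAt.aeval_mvPolynomial (A := k) (f := fun y : ι → ℂ => y)
    (fun i => analyticAt_proj i x) F

lemma continuous_eval₂ [Fintype ι] (F : MvPolynomial ι k) (σ : k →+* ℂ) :
    Continuous fun y : ι → ℂ => F.eval₂ σ y :=
  continuous_iff_continuousAt.2 fun x => (analyticAt_eval₂ F σ x).continuousAt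

/-- membership in a zero locus in terms of a normalised representative -/
lemma mem_points_iff_col [Fintype ι] {S : Set (MvPolynomial ι k)} (hS : Homog S) (σ : k →+* ℂ)
    {p : ℙ ℂ (ι → ℂ)} {j : ι} (hj : pm p j j ≠ 0) :
    p ∈ points σ S ↔ ∀ F ∈ S, F.eval₂ σ (col j (pm p)) = 0 := by
  conv_lhs => rw [mk_col_pm p hj]
  exact mem_points_mk hS σ _

lemma diag_ne_zero_of_le [Fintype ι] {p : ℙ ℂ (ι → ℂ)} {j : ι}
    (hj : 1 / (Fintype.card ι : ℝ) ≤ ‖pm p j j‖) : pm p j j ≠ 0 := by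
  have hN := card_pos_of_point p
  intro h
  rw [h, norm_zero] at hj
  exact absurd hj (not_le.2 (by positivity))

/-- convergence of normalised representatives -/
lemma tendsto_col [Fintype ι] {l : Filter ℕ} {q : ℕ → ℙ ℂ (ι → ℂ)} {p : ℙ ℂ (ι → ℂ)}
    (h : Tendsto (fun i => pm (q i)) l (𝓝 (pm p))) {j : ι} (hj : pm p j j ≠ 0) :
    Tendsto (fun i => col j (pm (q i))) l (𝓝 (col j (pm p))) ∧
      ∀ᶠ i in l, pm (q i) j j ≠ 0 := by
  have hjj : Tendsto (fun i => pm (q i) j j) l (𝓝 (pm p j j)) :=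
    (tendsto_pi_nhds.1 ((tendsto_pi_nhds.1 h) j)) j
  refine ⟨?_, hjj.eventually_ne hj⟩
  rw [tendsto_pi_nhds]
  intro a
  have haj : Tendsto (fun i => pm (q i) a j) l (𝓝 (pm p a j)) :=
    (tendsto_pi_nhds.1 ((tendsto_pi_nhds.1 h) a)) j
  exact haj.div hjj hj

/-- a criterion for closedness using sequences -/
lemma PClosed.of_seq [Fintype ι] {Y : Set (ℙ ℂ (ι → ℂ))}
    (h : ∀ (l : Ultrafilter ℕ) (q : ℕ → ℙ ℂ (ι → ℂ)) p, (∀ i, q i ∈ Y) →
      Tendsto (fun i => pm (q i)) l (𝓝 (pm p)) → p ∈ Y) : PClosed Y := by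
  apply isClosed_of_closure_subset
  intro P hP
  rw [mem_closure_iff_seq_limit] at hP
  obtain ⟨Q, hQ, hlim⟩ := hP
  choose q hq hqQ using hQ
  have hlim' : Tendsto (fun i => pm (q i)) (hyperfilter ℕ : Filter ℕ) (𝓝 P) := by
    have : (fun i => pm (q i)) = Q := funext hqQ
    rw [this]
    exact hlim.mono_left Nat.hyperfilter_le_atTop
  obtain ⟨p, hp⟩ := exists_pm_limit (hyperfilter ℕ) q
  have hPp : P = pm p := tendsto_nhds_unique hlim' hp
  exact ⟨p, h _ q p hq hp, hPp.symm⟩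

lemma pclosed_points [Fintype ι] {S : Set (MvPolynomial ι k)} (hS : Homog S) (σ : k →+* ℂ) :
    PClosed (points σ S) := by
  apply PClosed.of_seq
  intro l q p hq hlim
  obtain ⟨j, hj⟩ := exists_diag_pm p
  have hj0 := diag_ne_zero_of_le hj
  obtain ⟨h1, h2⟩ := tendsto_col hlim hj0
  rw [mem_points_iff_col hS σ hj0]
  intro F hF
  have h3 : Tendsto (fun i => F.eval₂ σ (col j (pm (q i)))) l
      (𝓝 (F.eval₂ σ (col j (pm p)))) := ((continuous_eval₂ F σ).tendsto _).comp h1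
  have h4 : Tendsto (fun i => F.eval₂ σ (col j (pm (q i)))) l (𝓝 0) := by
    refine tendsto_const_nhds.congr' ?_
    filter_upwards [h2] with i hi
    exact ((mem_points_iff_col hS σ hi).1 (hq i) F hF).symm
  exact tendsto_nhds_unique h3 h4

/-- Pulling back the tower hypersurface under a homogeneous map which is injective outside of its
base locus gives a Brody hyperbolic set, if the base locus is Brody hyperbolic. -/
theorem brodyHyperbolic_pullback [Fintype ι] {N e : ℕ} (he : e ≠ 0)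
    (G : (ι → ℂ) → (Fin (N + 1) → ℂ)) (hG : ∀ x, AnalyticAt ℂ G x) (r : ℕ)
    (hom : ∀ (t : ℂ) x, G (t • x) = t ^ r • G x)
    (hinj : ∀ x y : ι → ℂ, G x ≠ 0 → G y ≠ 0 → (∃ c : ℂ, G x = c • G y) → ∃ t : ℂ, x = t • y)
    (hZ : BrodyHyperbolic {x : ℙ ℂ (ι → ℂ) | G x.rep = 0}) :
    BrodyHyperbolic {x : ℙ ℂ (ι → ℂ) | tw (4 * e) N (G x.rep) = 0} := by
  intro φ hφ hφY
  by_cases hall : ∀ z, G (φ z).rep = 0
  · exact hZ φ hφ hall
  · push Not at hall
    obtain ⟨z₀, hz₀⟩ := hall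
    obtain ⟨ψ, hψ, hψ1, hψ2⟩ := exists_division hφ G hG r hom hz₀
    have hψT : ∀ z, ψ z ∈ tower (4 * e) N := by
      intro z
      refine (hψ z).zero_of_punctured (tw (4 * e) N) (continuous_tw _ _)
        (fun t x ht => tw_smul_eq_zero _ _ ht x) ?_
      filter_upwards [hψ2 z] with w hw
      obtain ⟨t, ht, hrep⟩ := exists_rep_eq (hψ1 w hw)
      rw [hrep, tw_smul_eq_zero _ _ ht]
      exact hφY w
    have hψc := brodyHyperbolic_tower he N ψ hψ hψT
    have hev : ∀ᶠ w in 𝓝[≠] z₀, φ w = φ z₀ := by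
      filter_upwards [hψ2 z₀] with w hw
      have h1 := hψ1 w hw
      have h2 := hψ1 z₀ hz₀
      rw [hψc w z₀, h2, Projectivization.mk_eq_mk_iff'] at h1
      obtain ⟨c, hc⟩ := h1
      obtain ⟨t, ht⟩ := hinj (φ w).rep (φ z₀).rep hw hz₀ ⟨c⁻¹, by
        rw [← hc, smul_smul, inv_mul_cancel₀, one_smul]
        rintro rfl
        rw [zero_smul] at hc
        exact hz₀ hc.symm⟩
      rw [← (φ w).mk_rep, ← (φ z₀).mk_rep, Projectivization.mk_eq_mk_iff']
      exact ⟨t, ht.symm⟩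
    have hc := eq_of_eventually_const hφ hev.frequently
    intro z w
    rw [hc z, hc w]

end Pool.Agent.Lib.MP_627a61_nt
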