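import Pool.Agent.Lib.MP_627a61_nt.CyclicDefs

/-!
# Definitions for the dimension-explicit reduction to cyclic covers
-/

open scoped LinearAlgebra.Projectivization

namespace Pool.Agent.Lib.MP_627a61_nt

/-- The question over `k` in dimension at most `d`, for the set `T` of embeddings of `k` in the
complex numbers: every projective variety over `k` (the zero locus of a set `S` of homogeneous
polynomials) of dimension at most `d` (the homogeneous coordinate ring `k[X] / (S)` has Krull
dimension at most `d + 1`) which is Kobayashi hyperbolic at all `σ ∈ T` has only finitely many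
`k`-points. -/
def FiniteInDimAt (k : Type) [Field k] (T : Set (k →+* ℂ)) (d : ℕ) : Prop :=
  ∀ (N : ℕ) (S : Set (MvPolynomial (Fin (N + 1)) k)), (∀ P ∈ S, ∃ a, P.IsHomogeneous a) →
    ringKrullDim (MvPolynomial (Fin (N + 1)) k ⧸ Ideal.span S) ≤ ((d + 1 : ℕ) : WithBot ℕ∞) →
    (∀ σ ∈ T, KobayashiHyperbolic (points σ S)) → (points (RingHom.id k) S).Finite

/-- The singular locus of the hypersurface `F = 0` over `k` has dimension less than `s` (it is
empty if `s = 0`): the ring `k[X] / (∂F / ∂X_i)` has Krull dimension at most `s`. -/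
def SingDimLT {ι k : Type} [Field k] (F : MvPolynomial ι k) (s : ℕ) : Prop :=
  ringKrullDim (MvPolynomial ι k ⧸ Ideal.span (Set.range fun i => MvPolynomial.pderiv i F)) ≤
    ((s : ℕ) : WithBot ℕ∞)

end Pool.Agent.Lib.MP_627a61_nt
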