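import Mathlib

/-!
# Definitions for rational points on hyperbolic projective varieties

Projective space over a field `L` with coordinates indexed by `ι` is the Mathlib type
`ℙ L (ι → L)`.
-/

open scoped LinearAlgebra.Projectivization Topology
open Filter

namespace Pool.Agent.Lib.MP_627a61_nt

/-- A map `φ : ℂ → ℙ(ℂ^ι)` is holomorphic near `z` if near `z` it is `w ↦ [f w]` for a
holomorphic map `f` with values in `ℂ^ι \ {0}`. -/
def HolomorphicAt {ι : Type*} [Fintype ι] (φ : ℂ → ℙ ℂ (ι → ℂ)) (z : ℂ) : Prop :=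
  ∃ f : ℂ → ι → ℂ, AnalyticAt ℂ f z ∧
    ∀ᶠ w in 𝓝 z, ∃ h : f w ≠ 0, φ w = Projectivization.mk ℂ (f w) h

/-- `Y ⊆ ℙ(ℂ^ι)` is Brody hyperbolic if every holomorphic map `ℂ → ℙ(ℂ^ι)` with image in `Y`
is constant. -/
def BrodyHyperbolic {ι : Type*} [Fintype ι] (Y : Set (ℙ ℂ (ι → ℂ))) : Prop :=
  ∀ φ : ℂ → ℙ ℂ (ι → ℂ), (∀ z, HolomorphicAt φ z) → (∀ z, φ z ∈ Y) → ∀ z w, φ z = φ w

/-- The Poincare distance on the unit disc, with infinitesimal form `|dz| / (1 - |z|^2)`. -/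
noncomputable def poincareDist (a b : ℂ) : ℝ :=
  Real.artanh (‖(a - b) / (1 - (starRingEnd ℂ) a * b)‖)

/-- `Y ⊆ ℙ(ℂ^ι)` is Kobayashi hyperbolic if it carries a distance `d` such that every
holomorphic map from the unit disc to `Y` is distance decreasing from the Poincare distance
to `d`. -/
def KobayashiHyperbolic {ι : Type*} [Fintype ι] (Y : Set (ℙ ℂ (ι → ℂ))) : Prop :=
  ∃ d : ℙ ℂ (ι → ℂ) → ℙ ℂ (ι → ℂ) → ℝ,
    (∀ x ∈ Y, d x x = 0) ∧
    (∀ x ∈ Y, ∀ y ∈ Y, x ≠ y → 0 < d x y) ∧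
    (∀ x ∈ Y, ∀ y ∈ Y, d x y = d y x) ∧
    (∀ x ∈ Y, ∀ y ∈ Y, ∀ z ∈ Y, d x z ≤ d x y + d y z) ∧
    ∀ φ : ℂ → ℙ ℂ (ι → ℂ), (∀ z ∈ Metric.ball (0 : ℂ) 1, HolomorphicAt φ z ∧ φ z ∈ Y) →
      ∀ a ∈ Metric.ball (0 : ℂ) 1, ∀ b ∈ Metric.ball (0 : ℂ) 1,
        d (φ a) (φ b) ≤ poincareDist a b

/-- The set of `L`-points of the projective variety with equations `S` (homogeneous polynomials
over `k`), where `L` is a field containing `k` through `τ`. -/
def points {ι k L : Type*} [Field k] [Field L] (τ : k →+* L) (S : Set (MvPolynomial ι k)) :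
    Set (ℙ L (ι → L)) :=
  {x | ∀ F ∈ S, F.eval₂ τ x.rep = 0}

/-- A homogeneous polynomial `F` over `k` defines a smooth projective hypersurface if at no
geometric zero of `F` all partial derivatives vanish. -/
def SmoothHypersurface {ι k : Type*} [Field k] (F : MvPolynomial ι k) : Prop :=
  ∀ x : ι → AlgebraicClosure k, x ≠ 0 → MvPolynomial.aeval x F = 0 →
    ∃ i, MvPolynomial.aeval x (MvPolynomial.pderiv i F) ≠ 0

end Pool.Agent.Lib.MP_627a61_nt
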