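import Mathlib

/-!
# Derivations with prescribed value at a transcendental element
-/

open scoped TensorProduct

namespace Pool.Agent.Lib.MP_627a61_nt

universe u

open scoped IntermediateField.algebraAdjoinAdjoin in
/-- In characteristic zero, there is a derivation with value one at a transcendental element. -/
theorem exists_derivation {K E : Type u} [Field K] [Field E] [Algebra K E] [CharZero K] {t : E}
    (ht : Transcendental K t) : ∃ D : Derivation K E E, D t = 1 := by
  classical
  have hs : AlgebraicIndepOn K id ({t} : Set E) := by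
    have : AlgebraicIndependent K (fun x : ({t} : Set E) => (x : E)) := by
      rw [algebraicIndependent_singleton_iff ⟨t, rfl⟩]
      exact ht
    exact this
  obtain ⟨B, hB, hbasis⟩ := exists_isTranscendenceBasis_superset hs
  set v : B → E := Subtype.val with hv
  have hb : AlgebraicIndependent K v := hbasis.1
  have halg := hbasis.isAlgebraic_field
  let S := Algebra.adjoin K (Set.range v)
  have : Algebra.FormallyEtale S (IntermediateField.adjoin K (Set.range v)) :=
    .of_isLocalization (nonZeroDivisors _)
  have : Algebra.FormallyEtale (IntermediateField.adjoin K (Set.range v)) E :=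
    Algebra.FormallyEtale.of_isSeparable _ E
  have : Algebra.FormallyEtale S E := .comp S (IntermediateField.adjoin K (Set.range v)) E
  let i₀ : B := ⟨t, hB rfl⟩
  let L₀ : S →ₗ[K] E := (MvPolynomial.aeval v).toLinearMap ∘ₗ
    (MvPolynomial.pderiv i₀ : Derivation K (MvPolynomial B K) (MvPolynomial B K)).toLinearMap ∘ₗ
    hb.aevalEquiv.symm.toLinearMap
  have hL₀ : ∀ p, L₀ (hb.aevalEquiv p) = MvPolynomial.aeval v (MvPolynomial.pderiv i₀ p) := by
    intro p
    simp [L₀]
  let D₀ : Derivation K S E := Derivation.mk' L₀ (by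
    intro a b
    obtain ⟨p, rfl⟩ := hb.aevalEquiv.surjective a
    obtain ⟨q, rfl⟩ := hb.aevalEquiv.surjective b
    have h1 : ∀ (p : MvPolynomial B K) (x : E), (hb.aevalEquiv p : S) • x =
        MvPolynomial.aeval v p * x := by
      intro p x
      rw [Algebra.smul_def, hb.algebraMap_aevalEquiv]
    rw [← map_mul, hL₀, hL₀, hL₀, h1, h1, Derivation.leibniz, map_add]
    simp only [smul_eq_mul, map_mul])
  let f := D₀.liftKaehlerDifferential
  let g : E ⊗[S] Ω[S⁄K] →ₗ[E] E := LinearMap.liftBaseChange E f
  let h : Ω[E⁄K] →ₗ[E] E := g ∘ₗ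
    (KaehlerDifferential.tensorKaehlerEquivOfFormallyEtale K S E).symm.toLinearMap
  refine ⟨h.compDer (KaehlerDifferential.D K E), ?_⟩
  have h1 : t = algebraMap S E (hb.aevalEquiv (MvPolynomial.X i₀)) := by
    rw [hb.algebraMap_aevalEquiv, MvPolynomial.aeval_X]
  rw [h1]
  change g ((KaehlerDifferential.tensorKaehlerEquivOfFormallyEtale K S E).symm
    (KaehlerDifferential.D K E (algebraMap S E (hb.aevalEquiv (MvPolynomial.X i₀))))) = 1
  rw [KaehlerDifferential.tensorKaehlerEquivOfFormallyEtale_symm_D_algebraMap]
  simp only [g, LinearMap.liftBaseChange_tmul, one_smul, f]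
  rw [Derivation.liftKaehlerDifferential_comp_D]
  have h2 : D₀ (hb.aevalEquiv (MvPolynomial.X i₀)) = L₀ (hb.aevalEquiv (MvPolynomial.X i₀)) := rfl
  rw [h2, hL₀, MvPolynomial.pderiv_X_self, map_one]

end Pool.Agent.Lib.MP_627a61_nt
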