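import Pool.Agent.Lib.MP_627a61_nt.Kobayashi

/-!
# Every Brody hyperbolic projective variety lies on a Brody hyperbolic hypersurface
-/

open scoped LinearAlgebra.Projectivization Topology ComplexConjugate
open Filter Metric MvPolynomial

namespace Pool.Agent.Lib.MP_627a61_nt

variable {ι κ k L : Type*} [Field k] [Field L]

/-- multiples of the equations by monomials, all of degree `e` -/
noncomputable def gfam (P : κ → MvPolynomial ι k) (δ : κ → ℕ) (e : ℕ) :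
    κ × ι × ι → MvPolynomial ι k :=
  fun c => X c.2.1 ^ (e - 1 - δ c.1) * X c.2.2 * P c.1

lemma gfam_homog {P : κ → MvPolynomial ι k} {δ : κ → ℕ} (hP : ∀ c, (P c).IsHomogeneous (δ c))
    {e : ℕ} (he : ∀ c, δ c < e) (c : κ × ι × ι) : (gfam P δ e c).IsHomogeneous e := by
  have h1 := ((isHomogeneous_X_pow (R := k) c.2.1 (e - 1 - δ c.1)).mul
    (isHomogeneous_X k c.2.2)).mul (hP c.1)
  have h2 : e - 1 - δ c.1 + 1 + δ c.1 = e := by have := he c.1; omega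
  rw [h2] at h1
  exact h1

lemma eval₂_gfam (P : κ → MvPolynomial ι k) (δ : κ → ℕ) (e : ℕ) (τ : k →+* L) (x : ι → L)
    (c : κ × ι × ι) : (gfam P δ e c).eval₂ τ x =
      x c.2.1 ^ (e - 1 - δ c.1) * x c.2.2 * (P c.1).eval₂ τ x := by
  simp [gfam, eval₂_mul, eval₂_pow, eval₂_X]

lemma gfam_zero_iff {P : κ → MvPolynomial ι k} {δ : κ → ℕ} {e : ℕ} (τ : k →+* L) {x : ι → L}
    (hx : x ≠ 0) : (∀ c, (gfam P δ e c).eval₂ τ x = 0) ↔ ∀ c, (P c).eval₂ τ x = 0 := by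
  constructor
  · intro h c
    obtain ⟨a, ha⟩ : ∃ a, x a ≠ 0 := by
      by_contra hcon
      push Not at hcon
      exact hx (funext hcon)
    have h1 := h (c, a, a)
    rw [eval₂_gfam] at h1
    exact (mul_eq_zero.1 h1).resolve_left (mul_ne_zero (pow_ne_zero _ ha) ha)
  · intro h c
    rw [eval₂_gfam, h c.1, mul_zero]

lemma gfam_inj {P : κ → MvPolynomial ι k} {δ : κ → ℕ} {e : ℕ}
    (τ : k →+* L) {x y : ι → L} {c₀ : κ} {a₀ b₀ : ι}
    (hx : (gfam P δ e (c₀, a₀, b₀)).eval₂ τ x ≠ 0) {t : L}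
    (h : ∀ c, (gfam P δ e c).eval₂ τ x = t * (gfam P δ e c).eval₂ τ y) : ∃ s : L, x = s • y := by
  rw [eval₂_gfam] at hx
  have hP0 : (P c₀).eval₂ τ x ≠ 0 := right_ne_zero_of_mul hx
  have hxb : x b₀ ≠ 0 := right_ne_zero_of_mul (left_ne_zero_of_mul hx)
  have h1 := h (c₀, b₀, b₀)
  rw [eval₂_gfam, eval₂_gfam] at h1
  simp only at h1
  have hne : x b₀ ^ (e - 1 - δ c₀) * x b₀ * (P c₀).eval₂ τ x ≠ 0 :=
    mul_ne_zero (mul_ne_zero (pow_ne_zero _ hxb) hxb) hP0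
  rw [h1] at hne
  have hne2 := right_ne_zero_of_mul hne
  have hyP : (P c₀).eval₂ τ y ≠ 0 := right_ne_zero_of_mul hne2
  have hyb : y b₀ ≠ 0 := right_ne_zero_of_mul (left_ne_zero_of_mul hne2)
  have ht : t ≠ 0 := left_ne_zero_of_mul hne
  refine ⟨x b₀ / y b₀, ?_⟩
  funext b
  have h2 := h (c₀, b₀, b)
  rw [eval₂_gfam, eval₂_gfam] at h2
  simp only at h2
  simp only [Pi.smul_apply, smul_eq_mul]
  -- cross multiply
  have hxe : x b₀ ^ (e - 1 - δ c₀) ≠ 0 := pow_ne_zero _ hxb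
  have key : (x b₀ ^ (e - 1 - δ c₀) * (P c₀).eval₂ τ x) * (t * (y b₀ ^ (e - 1 - δ c₀) * y b₀ *
      (P c₀).eval₂ τ y)) * x b = (x b₀ ^ (e - 1 - δ c₀) * x b₀ * (P c₀).eval₂ τ x) *
      (t * (y b₀ ^ (e - 1 - δ c₀) * y b * (P c₀).eval₂ τ y)) := by
    rw [← h1, ← h2]
    ring
  have hc : x b₀ ^ (e - 1 - δ c₀) * (P c₀).eval₂ τ x * t * y b₀ ^ (e - 1 - δ c₀) *
      (P c₀).eval₂ τ y ≠ 0 :=
    mul_ne_zero (mul_ne_zero (mul_ne_zero (mul_ne_zero hxe hP0) ht) (pow_ne_zero _ hyb)) hyP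
  have h3 : x b * y b₀ = x b₀ * y b := by
    apply mul_left_cancel₀ hc
    linear_combination key
  rw [div_mul_eq_mul_div, eq_div_iff hyb, h3]

/-- homogeneity of the tower form of homogeneous polynomials -/
lemma tw_homog {d : ℕ} (N : ℕ) {e : ℕ} (x : Fin (N + 1) → MvPolynomial ι k)
    (hx : ∀ i, (x i).IsHomogeneous e) : (tw d N x).IsHomogeneous (e * d ^ N) := by
  induction N generalizing e with
  | zero => simpa [tw] using hx 0
  | succ N ih =>
    have h1 : ∀ j, (tB d x j).IsHomogeneous (e * d) := by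
      intro j
      have h2 : ((2 : MvPolynomial ι k)) = C 2 := (map_ofNat C 2).symm
      simp only [tB, h2]
      exact ((((hx _).pow d).C_mul 2)).sub ((hx _).pow d)
    have h3 := ih (tB d x) h1
    rw [mul_assoc, ← pow_succ'] at h3
    exact h3

/-- The equation of the hypersurface. -/
noncomputable def hyp (d : ℕ) (P : κ → MvPolynomial ι k) (δ : κ → ℕ) (e : ℕ) {N : ℕ}
    (eqv : Fin (N + 1) → κ × ι × ι) : MvPolynomial ι k :=
  tw d N fun i => gfam P δ e (eqv i)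

lemma hyp_homog {P : κ → MvPolynomial ι k} {δ : κ → ℕ} (hP : ∀ c, (P c).IsHomogeneous (δ c))
    {e : ℕ} (he : ∀ c, δ c < e) (d : ℕ) {N : ℕ} (eqv : Fin (N + 1) → κ × ι × ι) :
    (hyp d P δ e eqv).IsHomogeneous (e * d ^ N) :=
  tw_homog N _ fun i => gfam_homog hP he (eqv i)

lemma eval₂_hyp (d : ℕ) (P : κ → MvPolynomial ι k) (δ : κ → ℕ) (e : ℕ) {N : ℕ}
    (eqv : Fin (N + 1) → κ × ι × ι) (τ : k →+* L) (x : ι → L) :
    (hyp d P δ e eqv).eval₂ τ x = tw d N fun i => (gfam P δ e (eqv i)).eval₂ τ x := by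
  have := tw_map (eval₂Hom τ x) d N fun i => gfam P δ e (eqv i)
  simp only [coe_eval₂Hom] at this
  exact this.symm

/-- The zeros of `P` lie on the hypersurface. -/
lemma eval₂_hyp_eq_zero {d : ℕ} (hd : d ≠ 0) {P : κ → MvPolynomial ι k} {δ : κ → ℕ} {e : ℕ} {N : ℕ}
    (eqv : Fin (N + 1) → κ × ι × ι) (τ : k →+* L) {x : ι → L}
    (h : ∀ c, (P c).eval₂ τ x = 0) : (hyp d P δ e eqv).eval₂ τ x = 0 := by
  rw [eval₂_hyp]
  have h1 : (fun i => (gfam P δ e (eqv i)).eval₂ τ x) = (0 : L) • fun _ => (0 : L) := by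
    funext i
    rw [eval₂_gfam, h, mul_zero]
    simp
  rw [h1, tw_smul, zero_pow (pow_ne_zero _ hd), zero_mul]

/-- Over fields in which two is not a `d`-th power the hypersurface has no further points. -/
lemma eval₂_hyp_eq_zero_iff {d : ℕ} (hd : d ≠ 0) {P : κ → MvPolynomial ι k} {δ : κ → ℕ} {e : ℕ}
    {N : ℕ} {eqv : Fin (N + 1) → κ × ι × ι} (heqv : Function.Surjective eqv) (τ : k →+* L)
    {x : ι → L} (hx : x ≠ 0) (h2 : ∀ a : L, a ^ d ≠ 2) :
    (hyp d P δ e eqv).eval₂ τ x = 0 ↔ ∀ c, (P c).eval₂ τ x = 0 := by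
  refine ⟨fun h => ?_, fun h => eval₂_hyp_eq_zero hd eqv τ h⟩
  rw [eval₂_hyp] at h
  have h3 := eq_zero_of_tw hd h2 h
  rw [← gfam_zero_iff (δ := δ) (e := e) τ hx]
  intro c
  obtain ⟨i, rfl⟩ := heqv c
  exact congrFun h3 i

theorem brodyHyperbolic_hyp [Fintype ι] {P : κ → MvPolynomial ι k} {δ : κ → ℕ}
    (hP : ∀ c, (P c).IsHomogeneous (δ c)) {e : ℕ} (he : ∀ c, δ c < e) {d : ℕ} (hd : d ≠ 0)
    {N : ℕ} {eqv : Fin (N + 1) → κ × ι × ι} (heqv : Function.Surjective eqv) (σ : k →+* ℂ)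
    (hZ : BrodyHyperbolic (points σ (Set.range P))) :
    BrodyHyperbolic (points σ {hyp (4 * d) P δ e eqv}) := by
  set G : (ι → ℂ) → (Fin (N + 1) → ℂ) := fun x i => (gfam P δ e (eqv i)).eval₂ σ x with hG
  have h1 : points σ {hyp (4 * d) P δ e eqv} = {x : ℙ ℂ (ι → ℂ) | tw (4 * d) N (G x.rep) = 0} := by
    ext x
    simp only [points, Set.mem_singleton_iff, forall_eq]
    rw [Set.mem_ofPred_eq, Set.mem_ofPred_eq, eval₂_hyp]
  rw [h1]
  refine brodyHyperbolic_pullback hd G ?_ e ?_ ?_ ?_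
  · intro x
    rw [analyticAt_pi_iff]
    intro i
    exact analyticAt_eval₂ _ σ x
  · intro t x
    funext i
    exact eval₂_smul_homog (gfam_homog hP he _) σ t x
  · intro x y hx _ ⟨c, hc⟩
    obtain ⟨i, hi⟩ : ∃ i, G x i ≠ 0 := by
      by_contra hcon
      push Not at hcon
      exact hx (funext hcon)
    refine gfam_inj σ (c₀ := (eqv i).1) (a₀ := (eqv i).2.1) (b₀ := (eqv i).2.2) hi (t := c) ?_
    intro c'
    obtain ⟨i', rfl⟩ := heqv c'
    exact congrFun hc i'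
  · have h2 : {x : ℙ ℂ (ι → ℂ) | G x.rep = 0} = points σ (Set.range P) := by
      ext x
      simp only [points, Set.mem_range, forall_exists_index, forall_apply_eq_imp_iff]
      rw [Set.mem_ofPred_eq, Set.mem_ofPred_eq, ← gfam_zero_iff (δ := δ) (e := e) σ x.rep_nonzero]
      constructor
      · intro h c
        obtain ⟨i', rfl⟩ := heqv c
        exact congrFun h i'
      · intro h
        funext i
        exact h (eqv i)
    rw [h2]
    exact hZ

end Pool.Agent.Lib.MP_627a61_nt
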