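import Pool.Agent.Lib.MP_627a61_nt.SmoothEmbed
import Pool.Agent.Lib.MP_627a61_nt.Pencil
import Pool.Agent.Lib.MP_627a61_nt.Anis

/-!
# Hyperbolic anisotropic forms whose pullbacks have few singular points
-/

open scoped LinearAlgebra.Projectivization Topology
open Filter MvPolynomial

namespace Pool.Agent.Lib.MP_627a61_nt

/-- Pulling back a Brody hyperbolic hypersurface under a homogeneous map which is injective
outside of its base locus gives a Brody hyperbolic set, if the base locus is Brody hyperbolic. -/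
theorem brodyHyperbolic_pullback' {ι κ k₀ : Type*} [Fintype ι] [Fintype κ] [Field k₀]
    (σ₀ : k₀ →+* ℂ) {Q : MvPolynomial κ k₀} {m : ℕ} (hQ : Q.IsHomogeneous m)
    (hQh : BrodyHyperbolic (points σ₀ {Q}))
    (G : (ι → ℂ) → (κ → ℂ)) (hG : ∀ x, AnalyticAt ℂ G x) (r : ℕ)
    (hom : ∀ (t : ℂ) x, G (t • x) = t ^ r • G x)
    (hinj : ∀ x y : ι → ℂ, G x ≠ 0 → G y ≠ 0 → (∃ c : ℂ, G x = c • G y) → ∃ t : ℂ, x = t • y)
    (hZ : BrodyHyperbolic {x : ℙ ℂ (ι → ℂ) | G x.rep = 0}) :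
    BrodyHyperbolic {x : ℙ ℂ (ι → ℂ) | Q.eval₂ σ₀ (G x.rep) = 0} := by
  intro φ hφ hφY
  by_cases hall : ∀ z, G (φ z).rep = 0
  · exact hZ φ hφ hall
  · push Not at hall
    obtain ⟨z₀, hz₀⟩ := hall
    obtain ⟨ψ, hψ, hψ1, hψ2⟩ := exists_division hφ G hG r hom hz₀
    have hsm : ∀ (t : ℂ) (x : κ → ℂ), t ≠ 0 → (Q.eval₂ σ₀ (t • x) = 0 ↔ Q.eval₂ σ₀ x = 0) := by
      intro t x ht
      rw [eval₂_smul_homog hQ, mul_eq_zero]
      exact ⟨fun h => h.resolve_left (pow_ne_zero _ ht), Or.inr⟩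
    have hψT : ∀ z, ψ z ∈ points σ₀ {Q} := by
      intro z P hP
      rw [Set.mem_singleton_iff] at hP
      subst hP
      refine (hψ z).zero_of_punctured (fun y => P.eval₂ σ₀ y) (continuous_eval₂ P σ₀) hsm ?_
      filter_upwards [hψ2 z] with w hw
      obtain ⟨t, ht, hrep⟩ := exists_rep_eq (hψ1 w hw)
      rw [hrep, hsm _ _ ht]
      exact hφY w
    have hψc := hQh ψ hψ hψT
    have hev : ∀ᶠ w in 𝓝[≠] z₀, φ w = φ z₀ := by
      filter_upwards [hψ2 z₀] with w hw
      have h1 := hψ1 w hw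
      have h2 := hψ1 z₀ hz₀
      rw [hψc w z₀, h2, Projectivization.mk_eq_mk_iff'] at h1
      obtain ⟨c, hc⟩ := h1
      obtain ⟨t, ht⟩ := hinj (φ w).rep (φ z₀).rep hw hz₀ ⟨c⁻¹, by
        rw [← hc, smul_smul, inv_mul_cancel₀, one_smul]
        rintro rfl
        rw [zero_smul] at hc
        exact hz₀ hc.symm⟩
      rw [← (φ w).mk_rep, ← (φ z₀).mk_rep, Projectivization.mk_eq_mk_iff']
      exact ⟨t, ht.symm⟩
    have hc := eq_of_eventually_const hφ hev.frequently
    intro z w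
    rw [hc z, hc w]

/-- the tower form as a rational polynomial -/
noncomputable def twQ (d N : ℕ) : MvPolynomial (Fin (N + 1)) ℚ := tw d N X

lemma twQ_homog (d N : ℕ) : (twQ d N).IsHomogeneous (d ^ N) := by
  have h := tw_homog (d := d) N (e := 1) (X : Fin (N + 1) → MvPolynomial (Fin (N + 1)) ℚ)
    (fun i => isHomogeneous_X ℚ i)
  rwa [one_mul] at h

lemma eval₂_twQ {L : Type*} [Field L] (τ : ℚ →+* L) (d N : ℕ) (x : Fin (N + 1) → L) :
    (twQ d N).eval₂ τ x = tw d N x := by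
  have h := tw_map (eval₂Hom τ x) d N (X : Fin (N + 1) → MvPolynomial (Fin (N + 1)) ℚ)
  rw [twQ, ← coe_eval₂Hom, ← h]
  congr 1
  funext i
  simp

/-- the perturbed tower forms -/
noncomputable def pform (d N C' : ℕ) (U : ℤ) (u : Fin (N + 1) → ℤ) :
    MvPolynomial (Fin (N + 1)) ℚ :=
  C (U : ℚ) * twQ d N + C (2 ^ C' : ℚ) * ∑ j, C (u j : ℚ) * X j ^ (d ^ N)

lemma pform_homog (d N C' : ℕ) (U : ℤ) (u : Fin (N + 1) → ℤ) :
    (pform d N C' U u).IsHomogeneous (d ^ N) := by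
  apply IsHomogeneous.add
  · exact (twQ_homog d N).C_mul _
  · apply IsHomogeneous.C_mul
    apply IsHomogeneous.sum
    intro j _
    exact (isHomogeneous_X_pow (R := ℚ) j (d ^ N)).C_mul _

lemma eval₂_pform {L : Type*} [Field L] (τ : ℚ →+* L) (d N C' : ℕ) (U : ℤ)
    (u : Fin (N + 1) → ℤ) (x : Fin (N + 1) → L) :
    (pform d N C' U u).eval₂ τ x =
      (U : L) * tw d N x + 2 ^ C' * ∑ j, (u j : L) * x j ^ (d ^ N) := by
  rw [pform, eval₂_add, eval₂_mul, eval₂_mul, eval₂_twQ, eval₂_C, eval₂_C, eval₂_sum]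
  simp only [eval₂_mul, eval₂_pow, eval₂_X, eval₂_C]
  simp only [map_intCast, map_pow, map_ofNat]

lemma pform_step (d N C' : ℕ) (U : ℤ) (u : Fin (N + 1) → ℤ) (M : ℕ) (i₀ : Fin (N + 1)) :
    pform d N C' (M * U) (fun j => M * u j + if j = i₀ then 1 else 0) =
      (M : MvPolynomial (Fin (N + 1)) ℚ) * pform d N C' U u + C (2 ^ C' : ℚ) * X i₀ ^ (d ^ N) := by
  have h1 : ∑ j, C (((M * u j + if j = i₀ then 1 else 0 : ℤ) : ℚ)) *
      (X j : MvPolynomial (Fin (N + 1)) ℚ) ^ (d ^ N) =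
      (M : MvPolynomial (Fin (N + 1)) ℚ) * ∑ j, C (u j : ℚ) * X j ^ (d ^ N) + X i₀ ^ (d ^ N) := by
    have h2 : ∀ j, C (((M * u j + if j = i₀ then 1 else 0 : ℤ) : ℚ)) *
        (X j : MvPolynomial (Fin (N + 1)) ℚ) ^ (d ^ N) =
        (M : MvPolynomial (Fin (N + 1)) ℚ) * (C (u j : ℚ) * X j ^ (d ^ N)) +
        if j = i₀ then X j ^ (d ^ N) else 0 := by
      intro j
      push_cast
      rw [C_add, C_mul, map_natCast]
      split_ifs
      · rw [C_1]; ring
      · rw [C_0]; ring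
    simp only [h2, Finset.sum_add_distrib, ← Finset.mul_sum]
    rw [Finset.sum_ite_eq' Finset.univ i₀, if_pos (Finset.mem_univ _)]
  rw [pform, h1, pform]
  push_cast
  rw [C_mul, map_natCast]
  ring

/-- pulling back a rational form -/
lemma eval₂_aeval_form {V κ k L : Type*} [Field k] [CharZero k] [Field L] (τ : k →+* L)
    (G : κ → MvPolynomial V k) (Q : MvPolynomial κ ℚ) (τ₀ : ℚ →+* L) (x : V → L) :
    (aeval G Q).eval₂ τ x = Q.eval₂ τ₀ fun j => (G j).eval₂ τ x := by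
  rw [aeval_def, ← coe_eval₂Hom (f := τ) (g := x), MvPolynomial.eval₂_comp_left]
  congr 1
  exact Subsingleton.elim _ _

lemma isHomogeneous_aeval_form {V κ k : Type*} [Field k] [CharZero k]
    {G : κ → MvPolynomial V k} {r : ℕ} (hG : ∀ j, (G j).IsHomogeneous r)
    {Q : MvPolynomial κ ℚ} {m : ℕ} (hQ : Q.IsHomogeneous m) :
    (aeval G Q).IsHomogeneous (r * m) := by
  rw [aeval_def]
  refine hQ.eval₂ _ _ (fun c => ?_) hG
  exact isHomogeneous_C V (algebraMap ℚ k c)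

lemma pderiv_aeval_form {V κ k : Type*} [Fintype κ] [Field k] [CharZero k]
    (G : κ → MvPolynomial V k) (Q : MvPolynomial κ ℚ) (v : V) :
    pderiv v (aeval G Q) = ∑ j, aeval G (pderiv j Q) * pderiv v (G j) := by
  classical
  induction Q using MvPolynomial.induction_on with
  | C a =>
    rw [algHom_C]
    have h1 : algebraMap ℚ (MvPolynomial V k) a = C (algebraMap ℚ k a) := rfl
    rw [h1, pderiv_C]
    simp
  | add p q hp hq =>
    simp only [map_add, add_mul, Finset.sum_add_distrib, hp, hq]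
  | mul_X p i hp =>
    rw [map_mul, pderiv_mul, hp, aeval_X]
    simp only [pderiv_mul, map_add, map_mul, aeval_X, pderiv_X, add_mul,
      Finset.sum_add_distrib]
    have h1 : ∑ j, aeval G p * aeval G ((Pi.single j 1 : κ → MvPolynomial κ ℚ) i) *
        pderiv v (G j) = aeval G p * pderiv v (G i) := by
      rw [Finset.sum_eq_single i]
      · simp
      · intro b _ hb
        simp [hb.symm]
      · intro h; exact absurd (Finset.mem_univ i) h
    refine congrArg₂ (· + ·) ?_ h1.symm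
    rw [Finset.sum_mul]
    exact Finset.sum_congr rfl fun v _ => mul_right_comm _ _ _

end Pool.Agent.Lib.MP_627a61_nt
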