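import Mathlib

/-!
# Common zeros of two polynomials in three variables, and irreducibility
-/

open MvPolynomial

namespace Pool.Agent.Lib.MP_627a61_nt

section height

variable (K : Type*) [Field K]

/-- kill the first `j` variables -/
noncomputable def killV (j : ℕ) : MvPolynomial (Fin 3) K →ₐ[K] MvPolynomial (Fin 3) K :=
  aeval fun i => if (i : ℕ) < j then 0 else X i

lemma killV_comp (j : ℕ) (p : MvPolynomial (Fin 3) K) :
    killV K (j + 1) (killV K j p) = killV K (j + 1) p := by
  have h : (killV K (j + 1)).comp (killV K j) = killV K (j + 1) := by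
    apply MvPolynomial.algHom_ext
    intro i
    simp only [AlgHom.comp_apply, killV, aeval_X]
    split_ifs with h1 h2
    · rw [map_zero]
    · omega
    · rw [aeval_X, if_pos (by omega)]
    · rw [aeval_X, if_neg (by omega)]
  exact DFunLike.congr_fun h p

lemma ker_killV_lt (j : ℕ) (hj : j < 3) :
    RingHom.ker (killV K j) < RingHom.ker (killV K (j + 1)) := by
  refine lt_of_le_of_ne ?_ ?_
  · intro p hp
    rw [RingHom.mem_ker] at hp ⊢
    rw [← killV_comp, hp, map_zero]
  · intro h
    have h1 : (X ⟨j, hj⟩ : MvPolynomial (Fin 3) K) ∈ RingHom.ker (killV K (j + 1)) := by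
      rw [RingHom.mem_ker, killV, aeval_X, if_pos (by simp)]
    rw [← h, RingHom.mem_ker, killV, aeval_X, if_neg (by simp)] at h1
    exact X_ne_zero _ h1

lemma three_le_height : 3 ≤ (RingHom.ker (killV K 3)).height := by
  have h0 : ∀ j, (RingHom.ker (killV K j)).IsPrime := fun j => RingHom.ker_isPrime _
  have h1 := Ideal.height_add_one_le_of_lt_of_isPrime (ker_killV_lt K 0 (by norm_num))
  have h2 := Ideal.height_add_one_le_of_lt_of_isPrime (ker_killV_lt K 1 (by norm_num))
  have h3 := Ideal.height_add_one_le_of_lt_of_isPrime (ker_killV_lt K 2 (by norm_num))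
  calc (3 : ℕ∞) = 0 + 1 + 1 + 1 := by norm_num
    _ ≤ (RingHom.ker (killV K 0)).height + 1 + 1 + 1 := by gcongr; exact zero_le
    _ ≤ (RingHom.ker (killV K 1)).height + 1 + 1 := by gcongr
    _ ≤ (RingHom.ker (killV K 2)).height + 1 := by gcongr
    _ ≤ _ := h3

end height

/-- Two polynomials without constant term in three variables over an algebraically closed field
have a common zero other than the origin. -/
theorem exists_common_zero {K : Type*} [Field K] [IsAlgClosed K] (a b : MvPolynomial (Fin 3) K)
    (ha : eval 0 a = 0) (hb : eval 0 b = 0) :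
    ∃ x : Fin 3 → K, x ≠ 0 ∧ eval x a = 0 ∧ eval x b = 0 := by
  by_contra hcon
  push Not at hcon
  set I : Ideal (MvPolynomial (Fin 3) K) := Ideal.span {a, b} with hI
  set 𝔪 := RingHom.ker (killV K 3) with h𝔪
  have hkill : ∀ p : MvPolynomial (Fin 3) K, killV K 3 p = C (eval 0 p) := by
    intro p
    have h : killV K 3 = (Algebra.ofId K _).comp (aeval (0 : Fin 3 → K)) := by
      apply MvPolynomial.algHom_ext
      intro i
      simp only [AlgHom.comp_apply, killV, aeval_X, Pi.zero_apply, map_zero]
      rw [if_pos i.2]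
    rw [h]
    rfl
  have hm : ∀ p : MvPolynomial (Fin 3) K, p ∈ 𝔪 ↔ eval 0 p = 0 := by
    intro p
    rw [h𝔪, RingHom.mem_ker, hkill]
    exact ⟨fun h => C_injective _ _ (by rw [h, C_0]), fun h => by rw [h, C_0]⟩
  have hprime : 𝔪.IsPrime := RingHom.ker_isPrime _
  have hIm : I ≤ 𝔪 := by
    rw [hI, Ideal.span_le]
    rintro p (rfl | rfl)
    · exact (hm _).2 ha
    · exact (hm _).2 hb
  have hmin : 𝔪 ∈ I.minimalPrimes := by
    refine ⟨⟨hprime, hIm⟩, ?_⟩
    rintro q ⟨hq, hIq⟩ -
    intro p hp
    apply hq.radical_le_iff.2 hIq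
    rw [← vanishingIdeal_zeroLocus_eq_radical (K := K) I]
    rw [mem_vanishingIdeal_iff]
    intro x hx
    rw [mem_zeroLocus_iff] at hx
    by_cases hx0 : x = 0
    · rw [hx0]
      exact (hm p).1 hp
    · exfalso
      have h1 := hx a (Ideal.subset_span (by simp))
      have h2 := hx b (Ideal.subset_span (by simp))
      exact hcon x hx0 h1 h2
  have h1 := Ideal.height_le_card_of_mem_minimalPrimes_span (Set.toFinite {a, b}) hmin
  have h2 : ({a, b} : Set (MvPolynomial (Fin 3) K)).ncard ≤ 2 := Set.ncard_insert_le _ _ |>.trans (by simp)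
  have h3 := (three_le_height K).trans h1
  have h4 : (3 : ℕ∞) ≤ (2 : ℕ) := h3.trans (by exact_mod_cast h2)
  exact absurd h4 (by norm_num)

/-- a factor with nonzero constant term of a homogeneous polynomial is constant -/
lemma eq_C_of_mul_homog {K V : Type*} [Field K] [Infinite K] {F A B : MvPolynomial V K} {m : ℕ}
    (hF : F.IsHomogeneous m) (hF0 : F ≠ 0) (hAB : F = A * B) (hA : eval 0 A ≠ 0) :
    A = C (eval 0 A) := by
  have key : ∀ x : V → K, eval x F ≠ 0 → eval x A = eval 0 A := by
    intro x hx
    let f : MvPolynomial V K →ₐ[K] Polynomial K :=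
      aeval fun v => Polynomial.C (x v) * Polynomial.X
    have hf : ∀ (P : MvPolynomial V K) (t : K), (f P).eval t = eval (t • x) P := by
      intro P t
      have h1 : ((Polynomial.aeval t).comp f : MvPolynomial V K →ₐ[K] K) = aeval (t • x) := by
        apply MvPolynomial.algHom_ext
        intro i
        simp only [AlgHom.comp_apply, f, aeval_X, map_mul, Polynomial.aeval_C,
          Polynomial.aeval_X, Pi.smul_apply, smul_eq_mul]
        exact mul_comm _ _
      have h2 := DFunLike.congr_fun h1 P
      rw [AlgHom.comp_apply, Polynomial.coe_aeval_eq_eval, aeval_eq_eval] at h2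
      exact h2
    have hFf : f F = Polynomial.C (eval x F) * Polynomial.X ^ m := by
      apply Polynomial.funext
      intro t
      rw [hf]
      have h3 : eval (t • x) F = t ^ m * eval x F := by
        rw [eval_eq, eval_eq, Finset.mul_sum]
        refine Finset.sum_congr rfl fun d hd => ?_
        have h1 : ∑ i ∈ d.support, d i = m := (hF.degree_eq_sum_deg_support hd).symm
        simp only [Pi.smul_apply, smul_eq_mul, mul_pow, Finset.prod_mul_distrib,
          Finset.prod_pow_eq_pow_sum, h1]
        ring
      rw [h3, Polynomial.eval_mul, Polynomial.eval_C, Polynomial.eval_pow, Polynomial.eval_X]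
      exact mul_comm _ _
    have hX : ¬ Polynomial.X ∣ f A := by
      rw [Polynomial.X_dvd_iff, Polynomial.coeff_zero_eq_eval_zero, hf, zero_smul]
      exact hA
    have hmul : f A * f B = Polynomial.C (eval x F) * Polynomial.X ^ m := by
      rw [← map_mul, ← hAB, hFf]
    have hdvd : Polynomial.X ^ m ∣ f B := by
      apply Polynomial.prime_X.pow_dvd_of_dvd_mul_left m hX
      rw [hmul]
      exact Dvd.intro_left _ rfl
    obtain ⟨q, hq⟩ := hdvd
    have h4 : f A * q = Polynomial.C (eval x F) := by
      have h5 : (Polynomial.X ^ m : Polynomial K) ≠ 0 := pow_ne_zero _ Polynomial.X_ne_zero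
      apply mul_left_cancel₀ h5
      rw [hq] at hmul
      linear_combination hmul
    have h6 : IsUnit (f A) := by
      apply isUnit_of_mul_isUnit_left (y := q)
      rw [h4]
      exact Polynomial.isUnit_C.2 (isUnit_iff_ne_zero.2 hx)
    obtain ⟨c, -, hc⟩ := Polynomial.isUnit_iff.1 h6
    have h7 := hf A 1
    have h8 := hf A 0
    rw [← hc, Polynomial.eval_C] at h7 h8
    rw [one_smul] at h7
    rw [zero_smul] at h8
    rw [← h7, h8]
  have h9 : (A - C (eval 0 A)) * F = 0 := by
    apply MvPolynomial.funext
    intro x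
    rw [map_mul, map_zero, map_sub, eval_C]
    by_cases hx : eval x F = 0
    · rw [hx, mul_zero]
    · rw [key x hx, sub_self, zero_mul]
  exact sub_eq_zero.1 ((mul_eq_zero.1 h9).resolve_right hF0)

/-- A form with no singular point on some plane is irreducible. -/
theorem irreducible_of_plane {K V : Type*} [Field K] [IsAlgClosed K] [Finite V]
    {F : MvPolynomial V K} {m : ℕ} (hm : m ≠ 0) (hF : F.IsHomogeneous m) (hF0 : F ≠ 0)
    (Λ : Submodule K (V → K)) (hΛ : Module.finrank K Λ = 3)
    (hs : ∀ x ∈ Λ, x ≠ 0 → ∃ v, eval x (pderiv v F) ≠ 0) : Irreducible F := by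
  have hinf : Infinite K := IsAlgClosed.instInfinite
  have hF00 : eval 0 F = 0 := by
    rw [eval_eq]
    apply Finset.sum_eq_zero
    intro d hd
    have h1 : ∑ i ∈ d.support, d i = m := (hF.degree_eq_sum_deg_support hd).symm
    obtain ⟨i, hi⟩ : ∃ i, i ∈ d.support := by
      by_contra hcon
      push Not at hcon
      rw [Finset.eq_empty_of_forall_notMem hcon, Finset.sum_empty] at h1
      exact hm h1.symm
    rw [Finset.prod_eq_zero hi, mul_zero]
    exact zero_pow (Finsupp.mem_support_iff.1 hi)
  refine ⟨?_, ?_⟩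
  · intro h
    have h1 := h.map (eval (0 : V → K))
    rw [hF00] at h1
    exact not_isUnit_zero h1
  · intro A B hAB
    by_contra hcon
    push Not at hcon
    have hA : eval 0 A = 0 := by
      by_contra h
      apply hcon.1
      rw [eq_C_of_mul_homog hF hF0 hAB h]
      exact (isUnit_iff_ne_zero.2 h).map C
    have hB : eval 0 B = 0 := by
      by_contra h
      apply hcon.2
      rw [eq_C_of_mul_homog hF hF0 (hAB.trans (mul_comm _ _)) h]
      exact (isUnit_iff_ne_zero.2 h).map C
    have := Module.finite_of_finrank_pos (R := K) (M := Λ) (by omega)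
    let b := Module.finBasisOfFinrankEq K Λ hΛ
    let f : MvPolynomial V K →ₐ[K] MvPolynomial (Fin 3) K :=
      aeval fun v => ∑ i, C ((b i : V → K) v) * X i
    have hf : ∀ (P : MvPolynomial V K) (u : Fin 3 → K),
        eval u (f P) = eval (∑ i, u i • (b i : V → K)) P := by
      intro P u
      have h1 : ((aeval u).comp f : MvPolynomial V K →ₐ[K] K) =
          aeval (∑ i, u i • (b i : V → K)) := by
        apply MvPolynomial.algHom_ext
        intro v
        simp [f, mul_comm]
      have h2 := DFunLike.congr_fun h1 P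
      simpa [aeval_eq_eval] using h2
    obtain ⟨u, hu, hua, hub⟩ := exists_common_zero (f A) (f B)
      (by rw [hf]; simpa using hA) (by rw [hf]; simpa using hB)
    rw [hf] at hua hub
    set x : V → K := ∑ i, u i • (b i : V → K) with hx
    have hxΛ : x = ((∑ i, u i • b i : Λ) : V → K) := by
      rw [hx]
      simp
    have hx0 : x ≠ 0 := by
      intro h0
      rw [hxΛ, ZeroMemClass.coe_eq_zero] at h0
      have h1 := (Fintype.linearIndependent_iff.1 b.linearIndependent) u h0
      exact hu (funext h1)
    obtain ⟨v, hv⟩ := hs x (by rw [hxΛ]; exact Subtype.coe_prop _) hx0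
    apply hv
    rw [hAB, pderiv_mul, map_add, map_mul, map_mul, hua, hub]
    ring

end Pool.Agent.Lib.MP_627a61_nt
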