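import Pool.Agent.Lib.MP_627a61_nt.Brody

/-!
# Limits of holomorphic curves with bounded speed
-/

open scoped LinearAlgebra.Projectivization Topology ComplexConjugate
open Filter Metric

namespace Pool.Agent.Lib.MP_627a61_nt

variable {ι : Type*} [Fintype ι] {κ : Type*} [Fintype κ]

/-- limits of rank one projectors along an ultrafilter exist -/
lemma exists_pm_limit (l : Ultrafilter ℕ) (q : ℕ → ℙ ℂ (ι → ℂ)) :
    ∃ p : ℙ ℂ (ι → ℂ), Tendsto (fun i => pm (q i)) l (𝓝 (pm p)) := by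
  classical
  -- limit in the ball
  obtain ⟨P, hPK, hP⟩ := (isCompact_closedBall (0 : ι → ι → ℂ) 1).ultrafilter_le_nhds
    (l.map fun i => pm (q i)) (by
      rw [Filter.le_principal_iff, Ultrafilter.coe_map, Filter.mem_map]
      exact Filter.univ_mem' fun i => by simpa using norm_pm_le_one (q i))
  have hlim : Tendsto (fun i => pm (q i)) l (𝓝 P) := hP
  have hN := card_pos_of_point (q 0)
  -- choose a diagonal index
  have h1 : ∀ᶠ i in (l : Filter ℕ), ∃ j ∈ (Set.univ : Set ι),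
      1 / (Fintype.card ι : ℝ) ≤ ‖pm (q i) j j‖ :=
    Filter.Eventually.of_forall fun i => by simpa using exists_diag_pm (q i)
  rw [Ultrafilter.eventually_exists_mem_iff Set.finite_univ] at h1
  obtain ⟨j, -, hj⟩ := h1
  have hjj : Tendsto (fun i => ‖pm (q i) j j‖) l (𝓝 ‖P j j‖) := by
    have := (tendsto_pi_nhds.1 ((tendsto_pi_nhds.1 hlim) j)) j
    exact this.norm
  have hPj : 1 / (Fintype.card ι : ℝ) ≤ ‖P j j‖ := ge_of_tendsto hjj hj
  have hPj0 : P j j ≠ 0 := by
    intro h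
    rw [h, norm_zero] at hPj
    exact absurd hPj (not_le.2 (by positivity))
  refine ⟨Projectivization.mk ℂ (col j P) (col_ne_zero hPj0), ?_⟩
  rw [pm_mk]
  -- continuity
  have hcol : ContinuousAt (fun Q : ι → ι → ℂ => pmv (col j Q)) P := by
    have h2 : ContinuousAt (col j : (ι → ι → ℂ) → ι → ℂ) P := by
      rw [continuousAt_pi]
      intro a
      have ha : Continuous fun Q : ι → ι → ℂ => Q a j := by fun_prop
      have hb : Continuous fun Q : ι → ι → ℂ => Q j j := by fun_prop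
      exact ha.continuousAt.div hb.continuousAt hPj0
    have h3 : ContinuousAt (pmv : (ι → ℂ) → ι → ι → ℂ) (col j P) :=
      (contDiffAt_pmv (n := 0) (col_ne_zero hPj0)).continuousAt
    exact ContinuousAt.comp (f := col j) (g := pmv) h3 h2
  have h4 : Tendsto (fun i => pmv (col j (pm (q i)))) l (𝓝 (pmv (col j P))) :=
    hcol.tendsto.comp hlim
  have h5 : ∀ᶠ i in (l : Filter ℕ), pmv (col j (pm (q i))) = pm (q i) := by
    filter_upwards [hj] with i hi
    have h6 : pm (q i) j j ≠ 0 := by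
      intro h
      rw [h, norm_zero] at hi
      exact absurd hi (not_le.2 (by positivity))
    conv_rhs => rw [mk_col_pm (q i) h6, pm_mk]
  have h7 : Tendsto (fun i => pm (q i)) l (𝓝 (pmv (col j P))) :=
    h4.congr' h5
  exact h7

/-- A curve with bounded speed on a convex set is Lipschitz. -/
lemma lipschitz_of_spd {φ : ℂ → ℙ ℂ (ι → ℂ)} {s : Set ℂ} (hs : Convex ℝ s)
    (h : ∀ z ∈ s, HolomorphicAt φ z) {C : ℝ} (hC : ∀ z ∈ s, spd φ z ≤ C) {x y : ℂ}
    (hx : x ∈ s) (hy : y ∈ s) : ‖pm (φ y) - pm (φ x)‖ ≤ C * ‖y - x‖ :=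
  hs.norm_image_sub_le_of_norm_fderiv_le (𝕜 := ℝ) (f := fun w => pm (φ w))
    (fun z hz => ((h z hz).contDiffAt (n := 1)).differentiableAt (by norm_num)) hC hx hy

/-- Limits of holomorphic curves with bounded speed on larger and larger discs. -/
theorem exists_limit_curve (l : Ultrafilter ℕ) (ψ : ℕ → ℂ → ℙ ℂ (ι → ℂ)) (R : ℕ → ℝ)
    (hR : Tendsto R l atTop) (hψ : ∀ i, ∀ w ∈ ball (0 : ℂ) (R i), HolomorphicAt (ψ i) w)
    (hspd : ∀ i, ∀ w ∈ ball (0 : ℂ) (R i), spd (ψ i) w ≤ 2) :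
    ∃ χ : ℂ → ℙ ℂ (ι → ℂ), (∀ w, HolomorphicAt χ w) ∧ (∀ w, spd χ w ≤ 2) ∧
      (∀ w, Tendsto (fun i => pm (ψ i w)) l (𝓝 (pm (χ w)))) ∧
      Tendsto (fun i => spd (ψ i) 0) l (𝓝 (spd χ 0)) := by
  classical
  choose χ hχ using fun w => exists_pm_limit l fun i => ψ i w
  -- Lipschitz property of the approximants on a ball
  have hlip : ∀ r : ℝ, ∀ᶠ i in (l : Filter ℕ), ∀ x ∈ ball (0 : ℂ) r, ∀ y ∈ ball (0 : ℂ) r,
      ‖pm (ψ i x) - pm (ψ i y)‖ ≤ 2 * ‖x - y‖ := by
    intro r
    filter_upwards [hR.eventually_ge_atTop r] with i hi x hx y hy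
    exact lipschitz_of_spd (convex_ball _ _) (hψ i) (hspd i) (ball_subset_ball hi hy)
      (ball_subset_ball hi hx)
  have hlipχ : ∀ x y, ‖pm (χ x) - pm (χ y)‖ ≤ 2 * ‖x - y‖ := by
    intro x y
    have h1 : Tendsto (fun i => ‖pm (ψ i x) - pm (ψ i y)‖) l (𝓝 ‖pm (χ x) - pm (χ y)‖) :=
      ((hχ x).sub (hχ y)).norm
    refine le_of_tendsto h1 ?_
    filter_upwards [hlip (‖x‖ + ‖y‖ + 1)] with i hi
    exact hi x (by simp; linarith [norm_nonneg y]) y (by simp; linarith [norm_nonneg x])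
  have hN := card_pos_of_point (χ 0)
  -- local analysis near a point
  have hlocal : ∀ w₀ : ℂ, ∃ (j : ι) (δ : ℝ), 0 < δ ∧
      (∀ w ∈ ball w₀ δ, pm (χ w) j j ≠ 0) ∧
      (∀ᶠ i in (l : Filter ℕ), ∀ w ∈ ball w₀ δ, pm (ψ i w) j j ≠ 0) ∧
      (∀ᶠ i in (l : Filter ℕ), DifferentiableOn ℂ (fun w => col j (pm (ψ i w))) (ball w₀ δ)) ∧
      TendstoUniformlyOn (fun i w => col j (pm (ψ i w))) (fun w => col j (pm (χ w))) l
        (ball w₀ δ) := by
    intro w₀
    set N : ℝ := (Fintype.card ι : ℝ) with hNdef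
    obtain ⟨j, hj⟩ := exists_diag_pm (χ w₀)
    have hjt : Tendsto (fun i => ‖pm (ψ i w₀) j j‖) l (𝓝 ‖pm (χ w₀) j j‖) := by
      have := (tendsto_pi_nhds.1 ((tendsto_pi_nhds.1 (hχ w₀)) j)) j
      exact this.norm
    have hev : ∀ᶠ i in (l : Filter ℕ), 3 / (4 * N) < ‖pm (ψ i w₀) j j‖ := by
      apply hjt.eventually_const_lt
      refine lt_of_lt_of_le ?_ hj
      rw [div_lt_div_iff₀ (by positivity) hN]
      linarith
    have hδ : 0 < 1 / (8 * N) := by positivity
    have hentry : ∀ (P Q : ι → ι → ℂ), ‖P j j‖ ≤ ‖Q j j‖ + ‖P - Q‖ := by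
      intro P Q
      have h1 : ‖P j j - Q j j‖ ≤ ‖P - Q‖ :=
        (norm_le_pi_norm ((P - Q) j) j).trans (norm_le_pi_norm (P - Q) j)
      have h2 : ‖P j j‖ ≤ ‖Q j j‖ + ‖P j j - Q j j‖ := by
        have := norm_add_le (Q j j) (P j j - Q j j)
        simpa using this
      linarith
    have hlow : ∀ᶠ i in (l : Filter ℕ), ∀ w ∈ ball w₀ (1 / (8 * N)),
        1 / (2 * N) ≤ ‖pm (ψ i w) j j‖ := by
      filter_upwards [hev, hlip (‖w₀‖ + 1 / (8 * N))] with i h1 h2 w hw
      have h3 : ‖w - w₀‖ < 1 / (8 * N) := by simpa [dist_eq_norm] using hw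
      have h4 : ‖w‖ < ‖w₀‖ + 1 / (8 * N) := by
        have := norm_add_le w₀ (w - w₀)
        simp only [add_sub_cancel] at this
        linarith
      have h5 := h2 w₀ (by simp; positivity) w (by simpa using h4)
      have h6 := hentry (pm (ψ i w₀)) (pm (ψ i w))
      rw [norm_sub_rev] at h3
      have h7 : 3 / (4 * N) - 2 * (1 / (8 * N)) = 1 / (2 * N) := by field_simp; ring
      linarith
    have hlowχ : ∀ w ∈ ball w₀ (1 / (8 * N)), 1 / (2 * N) ≤ ‖pm (χ w) j j‖ := by
      intro w hw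
      have hjt' : Tendsto (fun i => ‖pm (ψ i w) j j‖) l (𝓝 ‖pm (χ w) j j‖) := by
        have := (tendsto_pi_nhds.1 ((tendsto_pi_nhds.1 (hχ w)) j)) j
        exact this.norm
      refine ge_of_tendsto hjt' ?_
      filter_upwards [hlow] with i hi using hi w hw
    have hne : ∀ P : ι → ι → ℂ, 1 / (2 * N) ≤ ‖P j j‖ → P j j ≠ 0 := by
      intro P hP h
      rw [h, norm_zero] at hP
      exact absurd hP (not_le.2 (by positivity))
    refine ⟨j, 1 / (8 * N), hδ, fun w hw => hne _ (hlowχ w hw), ?_, ?_, ?_⟩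
    · filter_upwards [hlow] with i hi w hw using hne _ (hi w hw)
    · filter_upwards [hlow, hR.eventually_ge_atTop (‖w₀‖ + 1 / (8 * N))] with i h1 h2 w hw
      have h3 : ‖w - w₀‖ < 1 / (8 * N) := by simpa [dist_eq_norm] using hw
      have h4 : ‖w‖ < ‖w₀‖ + 1 / (8 * N) := by
        have := norm_add_le w₀ (w - w₀)
        simp only [add_sub_cancel] at this
        linarith
      have h5 : HolomorphicAt (ψ i) w := hψ i w (by simp; linarith)
      exact (h5.col (hne _ (h1 w hw))).differentiableAt.differentiableWithinAt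
    · -- uniform convergence
      have hunif : TendstoUniformlyOn (fun i w => pm (ψ i w)) (fun w => pm (χ w)) l
          (closedBall w₀ (1 / (8 * N))) := by
        refine tendstoUniformlyOn_of_lipschitz (isCompact_closedBall _ _) (C := 2) (by norm_num)
          ?_ fun x _ => hχ x
        filter_upwards [hlip (‖w₀‖ + 1 / (8 * N) + 1)] with i hi x hx y hy
        refine hi x ?_ y ?_
        · have h3 : ‖x - w₀‖ ≤ 1 / (8 * N) := by simpa [dist_eq_norm] using hx
          have := norm_add_le w₀ (x - w₀)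
          simp only [add_sub_cancel] at this
          rw [mem_ball_zero_iff]
          linarith
        · have h3 : ‖y - w₀‖ ≤ 1 / (8 * N) := by simpa [dist_eq_norm] using hy
          have := norm_add_le w₀ (y - w₀)
          simp only [add_sub_cancel] at this
          rw [mem_ball_zero_iff]
          linarith
      rw [Metric.tendstoUniformlyOn_iff] at hunif ⊢
      intro ε hε
      filter_upwards [hunif (ε / (8 * N ^ 2)) (by positivity), hlow] with i h1 h2 w hw
      have h3 := h1 w (ball_subset_closedBall hw)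
      rw [dist_eq_norm] at h3 ⊢
      have h4 := norm_col_sub_le (N := N) hN (j := j) (P := pm (χ w)) (Q := pm (ψ i w))
        (norm_pm_le_one _) (hlowχ w hw) (h2 w hw)
      calc _ ≤ 8 * N ^ 2 * ‖pm (χ w) - pm (ψ i w)‖ := h4
        _ < 8 * N ^ 2 * (ε / (8 * N ^ 2)) := by gcongr
        _ = ε := by field_simp
  have hcurve : ∀ w, HolomorphicAt χ w := by
    intro w₀
    obtain ⟨j, δ, hδ, h1, h2, h3, h4⟩ := hlocal w₀
    have h5 : DifferentiableOn ℂ (fun w => col j (pm (χ w))) (ball w₀ δ) :=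
      h4.tendstoLocallyUniformlyOn.differentiableOn h3 isOpen_ball
    refine ⟨fun w => col j (pm (χ w)), ?_, ?_⟩
    · exact (h5.analyticOnNhd isOpen_ball) w₀ (mem_ball_self hδ)
    · filter_upwards [ball_mem_nhds w₀ hδ] with w hw
      exact ⟨col_ne_zero (h1 w hw), mk_col_pm (χ w) (h1 w hw)⟩
  refine ⟨χ, hcurve, ?_, hχ, ?_⟩
  · intro w
    unfold spd
    have h1 : LipschitzOnWith 2 (fun w => pm (χ w)) Set.univ := by
      refine LipschitzOnWith.of_dist_le_mul fun x _ y _ => ?_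
      rw [dist_eq_norm, dist_eq_norm]
      simpa using hlipχ x y
    have h2 := norm_fderiv_le_of_lipschitzOn ℝ (x₀ := w) Filter.univ_mem h1
    simpa using h2
  · -- convergence of the speed at the origin
    obtain ⟨j, δ, hδ, h1, h2, h3, h4⟩ := hlocal 0
    have h0 : (0 : ℂ) ∈ ball (0 : ℂ) δ := mem_ball_self hδ
    have hd : Tendsto (fun i => deriv (fun w => col j (pm (ψ i w))) 0) l
        (𝓝 (deriv (fun w => col j (pm (χ w))) 0)) :=
      (h4.tendstoLocallyUniformlyOn.deriv h3 isOpen_ball).tendsto_at h0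
    have hv : Tendsto (fun i => col j (pm (ψ i 0))) l (𝓝 (col j (pm (χ 0)))) :=
      h4.tendsto_at h0
    -- formula for the derivative
    have hform : ∀ (θ : ℂ → ℙ ℂ (ι → ℂ)), (∀ w ∈ ball (0 : ℂ) δ, pm (θ w) j j ≠ 0) →
        DifferentiableOn ℂ (fun w => col j (pm (θ w))) (ball 0 δ) →
        fderiv ℝ (fun w => pm (θ w)) 0 =
          (fderiv ℝ (pmv : (ι → ℂ) → ι → ι → ℂ) (col j (pm (θ 0)))).comp
            ((ContinuousLinearMap.toSpanSingleton ℂ
              (deriv (fun w => col j (pm (θ w))) 0)).restrictScalars ℝ) := by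
      intro θ hθ hdθ
      have e1 : (fun w => pm (θ w)) =ᶠ[𝓝 0] fun w => pmv (col j (pm (θ w))) := by
        filter_upwards [ball_mem_nhds (0 : ℂ) hδ] with w hw
        conv_lhs => rw [mk_col_pm (θ w) (hθ w hw), pm_mk]
      rw [e1.fderiv_eq]
      have e2 : HasFDerivAt (pmv : (ι → ℂ) → ι → ι → ℂ)
          (fderiv ℝ (pmv : (ι → ℂ) → ι → ι → ℂ) (col j (pm (θ 0)))) (col j (pm (θ 0))) :=
        ((contDiffAt_pmv (n := 1) (col_ne_zero (hθ 0 h0))).differentiableAt
          (by norm_num)).hasFDerivAt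
      have e3 : HasDerivAt (fun w => col j (pm (θ w)))
          (deriv (fun w => col j (pm (θ w))) 0) 0 :=
        (hdθ.differentiableAt (ball_mem_nhds 0 hδ)).hasDerivAt
      have e4 := e3.hasFDerivAt.restrictScalars ℝ
      exact (HasFDerivAt.comp (g := pmv) (f := fun w => col j (pm (θ w))) (0 : ℂ) e2 e4).fderiv
    have hdχ : DifferentiableOn ℂ (fun w => col j (pm (χ w))) (ball 0 δ) :=
      h4.tendstoLocallyUniformlyOn.differentiableOn h3 isOpen_ball
    unfold spd
    rw [hform χ h1 hdχ]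
    have hcongr : ∀ᶠ i in (l : Filter ℕ), ‖fderiv ℝ (fun w => pm (ψ i w)) 0‖ =
        ‖(fderiv ℝ (pmv : (ι → ℂ) → ι → ι → ℂ) (col j (pm (ψ i 0)))).comp
            ((ContinuousLinearMap.toSpanSingleton ℂ
              (deriv (fun w => col j (pm (ψ i w))) 0)).restrictScalars ℝ)‖ := by
      filter_upwards [h2, h3] with i hi1 hi2
      rw [hform (ψ i) hi1 hi2]
    refine Tendsto.congr' (by filter_upwards [hcongr] with i hi using hi.symm) ?_
    refine Tendsto.norm ?_
    have t1 : Tendsto (fun i => fderiv ℝ (pmv : (ι → ℂ) → ι → ι → ℂ) (col j (pm (ψ i 0)))) l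
        (𝓝 (fderiv ℝ (pmv : (ι → ℂ) → ι → ι → ℂ) (col j (pm (χ 0))))) :=
      (((contDiffAt_pmv (n := 2) (col_ne_zero (h1 0 h0))).continuousAt_fderiv
        (by norm_num)).tendsto).comp hv
    have t2 : Tendsto (fun i => (ContinuousLinearMap.toSpanSingleton ℂ
              (deriv (fun w => col j (pm (ψ i w))) 0)).restrictScalars ℝ) l
        (𝓝 ((ContinuousLinearMap.toSpanSingleton ℂ
              (deriv (fun w => col j (pm (χ w))) 0)).restrictScalars ℝ)) := by
      have c1 : Continuous fun v : ι → ℂ =>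
          (ContinuousLinearMap.toSpanSingleton ℂ v).restrictScalars ℝ := by
        exact (ContinuousLinearMap.continuous_restrictScalars ℝ).comp
          (ContinuousLinearMap.toSpanSingletonCLE (𝕜 := ℂ) (E := ι → ℂ)).continuous
      exact (c1.tendsto _).comp hd
    exact (isBoundedBilinearMap_comp.continuous.tendsto _).comp (t1.prodMk_nhds t2)

end Pool.Agent.Lib.MP_627a61_nt
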