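import Pool.Agent.Lib.MP_627a61_nt.Defs

/-!
# The rank one projector embedding of complex projective space
-/

open scoped LinearAlgebra.Projectivization Topology ComplexConjugate
open Filter

namespace Pool.Agent.Lib.MP_627a61_nt

variable {ι : Type*} [Fintype ι]

/-- hermitian norm square (a complex number) -/
noncomputable def nsq (x : ι → ℂ) : ℂ := ∑ c, x c * conj (x c)

/-- the orthogonal projector onto the line spanned by `x` -/
noncomputable def pmv (x : ι → ℂ) : ι → ι → ℂ := fun a b => x a * conj (x b) / nsq x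

lemma nsq_eq (x : ι → ℂ) : nsq x = ((∑ c, ‖x c‖ ^ 2 : ℝ) : ℂ) := by
  simp [nsq, Complex.mul_conj, Complex.normSq_eq_norm_sq]

lemma sum_sq_pos {x : ι → ℂ} (hx : x ≠ 0) : 0 < ∑ c, ‖x c‖ ^ 2 := by
  obtain ⟨c, hc⟩ : ∃ c, x c ≠ 0 := by
    by_contra h
    push Not at h
    exact hx (funext h)
  exact Finset.sum_pos' (fun i _ => by positivity) ⟨c, Finset.mem_univ _, by positivity⟩

lemma nsq_ne_zero {x : ι → ℂ} (hx : x ≠ 0) : nsq x ≠ 0 := by
  rw [nsq_eq]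
  exact_mod_cast (sum_sq_pos hx).ne'

lemma pmv_smul (x : ι → ℂ) {t : ℂ} (ht : t ≠ 0) : pmv (t • x) = pmv x := by
  funext a b
  have h : nsq (t • x) = (t * conj t) * nsq x := by
    simp only [nsq, Pi.smul_apply, smul_eq_mul, map_mul, Finset.mul_sum]
    exact Finset.sum_congr rfl fun i _ => by ring
  have ht' : conj t ≠ 0 := by simpa using ht
  simp only [pmv, h, Pi.smul_apply, smul_eq_mul, map_mul]
  rw [show t * x a * (conj t * conj (x b)) = (t * conj t) * (x a * conj (x b)) by ring,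
    mul_div_mul_left _ _ (mul_ne_zero ht ht')]

/-- The rank one projector attached to a point of projective space. -/
noncomputable def pm (p : ℙ ℂ (ι → ℂ)) : ι → ι → ℂ := pmv p.rep

lemma pm_mk (x : ι → ℂ) (hx : x ≠ 0) : pm (Projectivization.mk ℂ x hx) = pmv x := by
  obtain ⟨a, ha⟩ := Projectivization.exists_smul_eq_mk_rep ℂ x hx
  rw [pm, ← ha]
  exact pmv_smul x a.ne_zero

lemma pmv_diag (x : ι → ℂ) (a : ι) :
    pmv x a a = ((‖x a‖ ^ 2 / ∑ c, ‖x c‖ ^ 2 : ℝ) : ℂ) := by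
  simp [pmv, nsq_eq, Complex.mul_conj, Complex.normSq_eq_norm_sq]

lemma norm_pmv (x : ι → ℂ) (a b : ι) :
    ‖pmv x a b‖ = ‖x a‖ * ‖x b‖ / ∑ c, ‖x c‖ ^ 2 := by
  have h : 0 ≤ ∑ c, ‖x c‖ ^ 2 := Finset.sum_nonneg fun i _ => by positivity
  simp only [pmv, nsq_eq, norm_div, norm_mul, RCLike.norm_conj, Complex.norm_real,
    Real.norm_of_nonneg h]

lemma norm_pmv_le_one (x : ι → ℂ) (a b : ι) : ‖pmv x a b‖ ≤ 1 := by
  rw [norm_pmv]
  apply div_le_one_of_le₀ _ (Finset.sum_nonneg fun i _ => by positivity)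
  have h1 : ‖x a‖ ^ 2 ≤ ∑ c, ‖x c‖ ^ 2 :=
    Finset.single_le_sum (f := fun c => ‖x c‖ ^ 2) (fun i _ => by positivity) (Finset.mem_univ a)
  have h2 : ‖x b‖ ^ 2 ≤ ∑ c, ‖x c‖ ^ 2 :=
    Finset.single_le_sum (f := fun c => ‖x c‖ ^ 2) (fun i _ => by positivity) (Finset.mem_univ b)
  nlinarith [sq_nonneg (‖x a‖ - ‖x b‖)]

lemma norm_pm_le_one (p : ℙ ℂ (ι → ℂ)) : ‖pm p‖ ≤ 1 := by
  refine (pi_norm_le_iff_of_nonneg zero_le_one).2 fun a => ?_
  exact (pi_norm_le_iff_of_nonneg zero_le_one).2 fun b => norm_pmv_le_one _ a b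

/-- the trace is one -/
lemma sum_pmv_diag {x : ι → ℂ} (hx : x ≠ 0) : ∑ a, pmv x a a = 1 := by
  simp only [pmv, ← Finset.sum_div]
  exact div_self (nsq_ne_zero hx)

lemma sum_norm_pmv_diag {x : ι → ℂ} (hx : x ≠ 0) : ∑ a, ‖pmv x a a‖ = 1 := by
  simp only [norm_pmv, ← Finset.sum_div]
  have h := (sum_sq_pos hx).ne'
  rw [show (∑ i, ‖x i‖ * ‖x i‖) = ∑ c, ‖x c‖ ^ 2 from
    Finset.sum_congr rfl fun i _ => by ring]
  exact div_self h

lemma exists_diag {x : ι → ℂ} (hx : x ≠ 0) :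
    ∃ a, 1 / (Fintype.card ι : ℝ) ≤ ‖pmv x a a‖ := by
  by_contra h
  push Not at h
  obtain ⟨c, hc⟩ : ∃ c, x c ≠ 0 := by
    by_contra h
    push Not at h
    exact hx (funext h)
  have : ∑ a, ‖pmv x a a‖ < ∑ _a : ι, 1 / (Fintype.card ι : ℝ) :=
    Finset.sum_lt_sum_of_nonempty ⟨c, Finset.mem_univ c⟩ fun i _ => h i
  rw [sum_norm_pmv_diag hx] at this
  have hcard : (0 : ℝ) < Fintype.card ι := by
    exact_mod_cast Fintype.card_pos_iff.2 ⟨c⟩
  simp only [Finset.sum_const, Finset.card_univ, nsmul_eq_mul] at this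
  rw [mul_one_div_cancel hcard.ne'] at this
  exact lt_irrefl _ this

lemma exists_diag_pm (p : ℙ ℂ (ι → ℂ)) :
    ∃ a, 1 / (Fintype.card ι : ℝ) ≤ ‖pm p a a‖ := exists_diag p.rep_nonzero

lemma card_pos_of_point (p : ℙ ℂ (ι → ℂ)) : 0 < (Fintype.card ι : ℝ) := by
  obtain ⟨c, hc⟩ : ∃ c, p.rep c ≠ 0 := by
    by_contra h
    push Not at h
    exact p.rep_nonzero (funext h)
  exact_mod_cast Fintype.card_pos_iff.2 ⟨c⟩

/-- column normalisation -/
noncomputable def col (j : ι) (P : ι → ι → ℂ) : ι → ℂ := fun a => P a j / P j j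

lemma pmv_diag_ne_zero_iff {x : ι → ℂ} (hx : x ≠ 0) (j : ι) : pmv x j j ≠ 0 ↔ x j ≠ 0 := by
  simp [pmv, nsq_ne_zero hx]

lemma col_pmv {x : ι → ℂ} (hx : x ≠ 0) {j : ι} (hj : x j ≠ 0) :
    col j (pmv x) = (x j)⁻¹ • x := by
  funext a
  have h1 := nsq_ne_zero hx
  have h2 : conj (x j) ≠ 0 := by simpa using hj
  simp only [col, pmv, Pi.smul_apply, smul_eq_mul]
  field_simp

omit [Fintype ι] in
lemma col_ne_zero {P : ι → ι → ℂ} {j : ι} (h : P j j ≠ 0) : col j P ≠ 0 := by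
  intro h0
  have := congrFun h0 j
  simp [col, h] at this

/-- a point is recovered from a column of its projector -/
lemma mk_col_pm (p : ℙ ℂ (ι → ℂ)) {j : ι} (h : pm p j j ≠ 0) :
    p = Projectivization.mk ℂ (col j (pm p)) (col_ne_zero h) := by
  have hj : p.rep j ≠ 0 := (pmv_diag_ne_zero_iff p.rep_nonzero j).1 h
  conv_lhs => rw [← p.mk_rep]
  rw [Projectivization.mk_eq_mk_iff']
  refine ⟨p.rep j, ?_⟩
  rw [pm, col_pmv p.rep_nonzero hj, smul_smul, mul_inv_cancel₀ hj, one_smul]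

lemma pm_injective : Function.Injective (pm : ℙ ℂ (ι → ℂ) → ι → ι → ℂ) := by
  intro p q h
  obtain ⟨a, ha⟩ := exists_diag_pm p
  have hc := card_pos_of_point p
  have h1 : pm p a a ≠ 0 := by
    intro h0
    rw [h0, norm_zero] at ha
    exact absurd ha (not_le.2 (by positivity))
  have h2 : pm q a a ≠ 0 := h ▸ h1
  rw [mk_col_pm p h1, mk_col_pm q h2]
  simp only [h]

/-- real smoothness of `pmv` away from zero -/
lemma contDiffAt_pmv {x : ι → ℂ} (hx : x ≠ 0) {n : WithTop ℕ∞} :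
    ContDiffAt ℝ n (pmv : (ι → ℂ) → ι → ι → ℂ) x := by
  have hproj : ∀ a : ι, ContDiffAt ℝ n (fun y : ι → ℂ => y a) x := fun a =>
    (contDiff_apply ℝ ℂ a).contDiffAt
  have hconj : ∀ a : ι, ContDiffAt ℝ n (fun y : ι → ℂ => conj (y a)) x := fun a =>
    (Complex.conjCLE.contDiff.contDiffAt).comp x (hproj a)
  have hn : ContDiffAt ℝ n (fun y : ι → ℂ => nsq y) x := by
    unfold nsq
    exact ContDiffAt.sum fun c _ => (hproj c).mul (hconj c)
  rw [contDiffAt_pi]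
  intro a
  rw [contDiffAt_pi]
  intro b
  have hinv : ContDiffAt ℝ n (fun y : ι → ℂ => (nsq y)⁻¹) x := hn.inv (nsq_ne_zero hx)
  exact ((hproj a).mul (hconj b)).mul hinv

end Pool.Agent.Lib.MP_627a61_nt
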