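import Pool.Agent.Lib.MP_627a61_nt.Reduction

/-!
# Reduction to number fields with a real embedding
-/

open scoped LinearAlgebra.Projectivization Topology ComplexConjugate
open Filter MvPolynomial

namespace Pool.Agent.Lib.MP_627a61_nt

section conjugate

variable {ι k : Type*} [Fintype ι] [Field k]

omit [Fintype ι] in
lemma conj_ne_zero {v : ι → ℂ} (hv : v ≠ 0) : (fun i => conj (v i)) ≠ 0 := by
  obtain ⟨i, hi⟩ := Function.ne_iff.1 hv
  intro h
  apply hi
  have := congrFun h i
  simpa using this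

lemma analyticAt_conj_conj {f : ℂ → ι → ℂ} {z : ℂ} (hf : AnalyticAt ℂ f (conj z)) :
    AnalyticAt ℂ (fun w i => conj (f (conj w) i)) z := by
  have h1 : ∀ᶠ w in 𝓝 (conj z), DifferentiableAt ℂ f w :=
    hf.eventually_analyticAt.mono fun w hw => hw.differentiableAt
  have h2 : ∀ᶠ w in 𝓝 z, DifferentiableAt ℂ f (conj w) :=
    (Complex.continuous_conj.tendsto z).eventually h1
  have h3 : ∀ᶠ w in 𝓝 z, DifferentiableAt ℂ (fun w i => conj (f (conj w) i)) w := by
    filter_upwards [h2] with w hw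
    rw [differentiableAt_pi]
    intro i
    have h4 : DifferentiableAt ℂ (fun w => f w i) (conj w) := (differentiableAt_pi.1 hw) i
    have h5 := h4.conj_conj
    rw [Complex.conj_conj] at h5
    exact h5
  exact Complex.analyticAt_iff_eventually_differentiableAt.2 h3

/-- hyperbolicity of the complex conjugate variety -/
theorem brodyHyperbolic_conj {S : Set (MvPolynomial ι k)} (hS : Homog S) {σ : k →+* ℂ}
    (h : BrodyHyperbolic (points σ S)) :
    BrodyHyperbolic (points ((starRingEnd ℂ).comp σ) S) := by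
  intro φ hφ hφY
  let ψ : ℂ → ℙ ℂ (ι → ℂ) := fun z =>
    Projectivization.mk ℂ (fun i => conj ((φ (conj z)).rep i)) (conj_ne_zero (φ _).rep_nonzero)
  have hψ : ∀ z, HolomorphicAt ψ z := by
    intro z
    obtain ⟨f, hf, hw⟩ := hφ (conj z)
    refine ⟨fun w i => conj (f (conj w) i), analyticAt_conj_conj hf, ?_⟩
    have hw' := (Complex.continuous_conj.tendsto z).eventually hw
    filter_upwards [hw'] with w hw1
    obtain ⟨h1, h2⟩ := hw1
    refine ⟨conj_ne_zero h1, ?_⟩
    obtain ⟨t, ht, hrep⟩ := exists_rep_eq h2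
    rw [Projectivization.mk_eq_mk_iff']
    refine ⟨conj t, ?_⟩
    funext i
    rw [hrep]
    simp
  have hψY : ∀ z, ψ z ∈ points σ S := by
    intro z
    rw [mem_points_mk hS]
    intro P hP
    have h1 := hφY (conj z) P hP
    have h2 := MvPolynomial.eval₂_comp_left (starRingEnd ℂ) ((starRingEnd ℂ).comp σ)
      (φ (conj z)).rep P
    rw [h1, map_zero] at h2
    have h3 : (starRingEnd ℂ).comp ((starRingEnd ℂ).comp σ) = σ := by
      ext c
      simp
    rw [h3] at h2
    exact h2.symm
  have hc := h ψ hψ hψY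
  intro z w
  have h1 := hc (conj z) (conj w)
  rw [Projectivization.mk_eq_mk_iff'] at h1
  obtain ⟨t, ht⟩ := h1
  rw [Complex.conj_conj, Complex.conj_conj] at ht
  rw [← (φ z).mk_rep, ← (φ w).mk_rep, Projectivization.mk_eq_mk_iff']
  refine ⟨conj t, ?_⟩
  funext i
  have h2 := congrArg conj (congrFun ht i)
  simpa using h2

end conjugate

section basechange

variable {ι k L : Type*} [Field k] [Field L]

lemma points_map (S : Set (MvPolynomial ι k)) (σ : k →+* L) {E : Type*} [Field E] (τ : L →+* E) :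
    points τ (MvPolynomial.map σ '' S) = points (τ.comp σ) S := by
  ext x
  constructor
  · intro h P hP
    have h1 := h _ ⟨P, hP, rfl⟩
    rw [eval₂_map] at h1
    exact h1
  · rintro h _ ⟨P, hP, rfl⟩
    rw [eval₂_map]
    exact h P hP

lemma homog_map {S : Set (MvPolynomial ι k)} (hS : Homog S) (σ : k →+* L) :
    Homog (MvPolynomial.map σ '' S) := by
  rintro _ ⟨P, hP, rfl⟩
  obtain ⟨n, hn⟩ := hS P hP
  exact ⟨n, hn.map σ⟩

end basechange

/-- the complex conjugation as a rational algebra automorphism -/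
noncomputable def conjQ : ℂ →ₐ[ℚ] ℂ := (starRingEnd ℂ).toRatAlgHom

/-- the elements of a field which are fixed by complex conjugation -/
noncomputable def realPart (K' : IntermediateField ℚ ℂ) : IntermediateField ℚ ℂ :=
  K' ⊓ (AlgHom.equalizer conjQ (AlgHom.id ℚ ℂ)).toIntermediateField (by
    intro x hx
    rw [AlgHom.mem_equalizer] at hx ⊢
    rw [map_inv₀, map_inv₀, hx])

lemma mem_realPart {K' : IntermediateField ℚ ℂ} {z : ℂ} :
    z ∈ realPart K' ↔ z ∈ K' ∧ conj z = z := Iff.rfl

/-- the embeddings of a conjugation-stable field which fix its real elements -/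
theorem real_embeddings (K' : IntermediateField ℚ ℂ) (hK' : ∀ z ∈ K', conj z ∈ K')
    (τ : K' →+* ℂ) (hτ : ∀ z : K', (z : ℂ) ∈ realPart K' → τ z = z) :
    (∀ z : K', τ z = z) ∨ (∀ z : K', τ z = conj (z : ℂ)) := by
  by_cases hall : ∀ z ∈ K', conj z = z
  · left
    intro z
    exact hτ z (mem_realPart.2 ⟨z.2, hall z z.2⟩)
  · push Not at hall
    obtain ⟨z₀, hz₀, hne⟩ := hall
    let Z : K' := ⟨z₀, hz₀⟩
    let Zc : K' := ⟨conj z₀, hK' z₀ hz₀⟩
    have hZ0 : z₀ - conj z₀ ≠ 0 := sub_ne_zero.2 (Ne.symm hne)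
    -- decomposition of the elements
    have hdec : ∀ w : K', ∃ a b : K', conj (a : ℂ) = a ∧ conj (b : ℂ) = b ∧ w = a + b * Z ∧
        τ a = a ∧ τ b = b := by
      intro w
      let Wc : K' := ⟨conj (w : ℂ), hK' w w.2⟩
      let b : K' := (w - Wc) / (Z - Zc)
      have hbv : (b : ℂ) = ((w : ℂ) - conj (w : ℂ)) / (z₀ - conj z₀) := rfl
      have hb : conj (b : ℂ) = b := by
        rw [hbv]
        simp only [map_div₀, map_sub, Complex.conj_conj]
        rw [← neg_sub (w : ℂ), ← neg_sub z₀, neg_div_neg_eq]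
      let a : K' := w - b * Z
      have hav : (a : ℂ) = (w : ℂ) - b * z₀ := rfl
      have ha : conj (a : ℂ) = a := by
        rw [hav]
        simp only [map_sub, map_mul, hb]
        rw [hbv]
        field_simp
        ring
      refine ⟨a, b, ha, hb, ?_, hτ a (mem_realPart.2 ⟨a.2, ha⟩), hτ b (mem_realPart.2 ⟨b.2, hb⟩)⟩
      simp only [a]
      ring
    have hτZ : τ Z = z₀ ∨ τ Z = conj z₀ := by
      have h1 : τ (Z + Zc) = z₀ + conj z₀ := by
        refine hτ (Z + Zc) (mem_realPart.2 ⟨(Z + Zc).2, ?_⟩)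
        change conj (z₀ + conj z₀) = z₀ + conj z₀
        rw [map_add, Complex.conj_conj, add_comm]
      have h2 : τ (Z * Zc) = z₀ * conj z₀ := by
        refine hτ (Z * Zc) (mem_realPart.2 ⟨(Z * Zc).2, ?_⟩)
        change conj (z₀ * conj z₀) = z₀ * conj z₀
        rw [map_mul, Complex.conj_conj, mul_comm]
      rw [map_add] at h1
      rw [map_mul] at h2
      have h3 : (τ Z - z₀) * (τ Z - conj z₀) = 0 := by
        linear_combination τ Z * h1 - h2
      rcases mul_eq_zero.1 h3 with h | h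
      · left; exact sub_eq_zero.1 h
      · right; exact sub_eq_zero.1 h
    rcases hτZ with h | h
    · left
      intro w
      obtain ⟨a, b, -, -, hw, ha, hb⟩ := hdec w
      rw [hw, map_add, map_mul, ha, hb, h]
      rfl
    · right
      intro w
      obtain ⟨a, b, hca, hcb, hw, ha, hb⟩ := hdec w
      rw [hw, map_add, map_mul, ha, hb, h]
      change _ = conj ((a : ℂ) + b * z₀)
      rw [map_add, map_mul, hca, hcb]

/-- **Descent to a real number field.** -/
theorem exists_real_model {ι k : Type*} [Fintype ι] [Field k] [NumberField k] (σ : k →+* ℂ)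
    (S : Set (MvPolynomial ι k)) (hS : Homog S) (hZ : BrodyHyperbolic (points σ S)) :
    ∃ (K₀ : IntermediateField ℚ ℂ) (_ : FiniteDimensional ℚ K₀) (_ : ∀ z ∈ K₀, conj z = z)
      (r : ℕ) (S' : Set (MvPolynomial (Fin r) K₀)) (Ψ : (ι → k) → (Fin r → K₀)),
      Homog S' ∧ BrodyHyperbolic (points (algebraMap K₀ ℂ) S') ∧
      (∀ x, x ≠ 0 → Ψ x ≠ 0) ∧
      (∀ x y, x ≠ 0 → y ≠ 0 → (∃ t : K₀, Ψ x = t • Ψ y) → ∃ s : k, x = s • y) ∧
      (∀ x, (∀ F ∈ S, F.eval₂ (RingHom.id k) x = 0) →
        ∀ Q ∈ S', Q.eval₂ (RingHom.id K₀) (Ψ x) = 0) := by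
  classical
  let σQ : k →ₐ[ℚ] ℂ := σ.toRatAlgHom
  let F₁ : IntermediateField ℚ ℂ := σQ.fieldRange
  let F₂ : IntermediateField ℚ ℂ := (conjQ.comp σQ).fieldRange
  have hF₁ : FiniteDimensional ℚ F₁ :=
    (AlgEquiv.ofInjectiveField σQ).toLinearEquiv.finiteDimensional
  have hF₂ : FiniteDimensional ℚ F₂ :=
    (AlgEquiv.ofInjectiveField (conjQ.comp σQ)).toLinearEquiv.finiteDimensional
  let K' : IntermediateField ℚ ℂ := F₁ ⊔ F₂
  have hfin : FiniteDimensional ℚ K' := IntermediateField.finiteDimensional_sup F₁ F₂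
  have hconj : ∀ z ∈ K', conj z ∈ K' := by
    intro z hz
    have h1 : K' ≤ K'.comap conjQ := by
      refine sup_le ?_ ?_
      · rintro _ ⟨x, rfl⟩
        have h2 : (conjQ.comp σQ) x ∈ F₂ := ⟨x, rfl⟩
        exact (le_sup_right : F₂ ≤ K') h2
      · rintro _ ⟨x, rfl⟩
        have h2 : σQ x ∈ F₁ := ⟨x, rfl⟩
        have h3 : conjQ ((conjQ.comp σQ) x) = σQ x := Complex.conj_conj _
        change conjQ ((conjQ.comp σQ) x) ∈ K'
        rw [h3]
        exact (le_sup_left : F₁ ≤ K') h2
    exact h1 hz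
  let K₀ : IntermediateField ℚ ℂ := realPart K'
  have hle : K₀ ≤ K' := inf_le_left
  have hfin₀ : FiniteDimensional ℚ K₀ := by
    exact Module.Finite.of_injective (IntermediateField.inclusion hle).toLinearMap
      (IntermediateField.inclusion_injective hle)
  let _ : Algebra K₀ K' := (IntermediateField.inclusion hle).toRingHom.toAlgebra
  have : IsScalarTower ℚ K₀ K' := IsScalarTower.of_algebraMap_eq fun q => rfl
  have hfin' : FiniteDimensional K₀ K' := FiniteDimensional.right ℚ K₀ K'
  let σ' : k →+* K' := σ.codRestrict K'.toSubfield.toSubring.toSubsemiring fun x =>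
    (le_sup_left : F₁ ≤ K') ⟨x, rfl⟩
  have hσ' : ∀ x, ((σ' x : K') : ℂ) = σ x := fun x => rfl
  have hZ' : ∀ τ : K' →ₐ[K₀] ℂ,
      BrodyHyperbolic (points (τ : K' →+* ℂ) (MvPolynomial.map σ' '' S)) := by
    intro τ
    rw [points_map]
    have h1 := real_embeddings K' hconj (τ : K' →+* ℂ) (by
      intro z hz
      have h2 : z = algebraMap K₀ K' ⟨(z : ℂ), hz⟩ := rfl
      rw [h2]
      exact τ.commutes _)
    rcases h1 with h1 | h1
    · have h2 : (τ : K' →+* ℂ).comp σ' = σ := by
        ext x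
        rw [RingHom.comp_apply, h1, hσ']
      rw [h2]
      exact hZ
    · have h2 : (τ : K' →+* ℂ).comp σ' = (starRingEnd ℂ).comp σ := by
        ext x
        rw [RingHom.comp_apply, h1, hσ']
        rfl
      rw [h2]
      exact brodyHyperbolic_conj hS hZ
  obtain ⟨r, S', Ψ, h1, h2, h3, h4, h5⟩ := exists_weil_model (k₀ := K₀) (k := K')
    (MvPolynomial.map σ' '' S) (homog_map hS σ') hZ'
  refine ⟨K₀, hfin₀, fun z hz => (mem_realPart.1 hz).2, r, S', fun x => Ψ (fun i => σ' (x i)), h1,
    h2, ?_, ?_, ?_⟩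
  · intro x hx
    apply h3
    obtain ⟨i, hi⟩ := Function.ne_iff.1 hx
    intro h0
    apply hi
    have := congrFun h0 i
    simpa using this
  · rintro x y hx hy ht
    have hne : ∀ z : ι → k, z ≠ 0 → (fun i => σ' (z i)) ≠ 0 := by
      intro z hz
      obtain ⟨i, hi⟩ := Function.ne_iff.1 hz
      intro h0
      apply hi
      have := congrFun h0 i
      simpa using this
    obtain ⟨s, hs⟩ := h4 _ _ (hne x hx) (hne y hy) ht
    obtain ⟨i₀, hi₀⟩ := Function.ne_iff.1 hy
    have hyi : σ' (y i₀) ≠ 0 := by simpa using hi₀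
    have hs' : s = σ' (x i₀ / y i₀) := by
      have h6 := congrFun hs i₀
      simp only [Pi.smul_apply, smul_eq_mul] at h6
      rw [map_div₀, h6]
      field_simp
    refine ⟨x i₀ / y i₀, ?_⟩
    funext i
    apply σ'.injective
    have h6 := congrFun hs i
    simp only [Pi.smul_apply, smul_eq_mul] at h6
    rw [h6, hs', Pi.smul_apply, smul_eq_mul, map_mul]
  · intro x hx
    apply h5
    rintro _ ⟨P, hP, rfl⟩
    rw [eval₂_map, RingHom.id_comp]
    have h6 := MvPolynomial.eval₂_comp_left σ' (RingHom.id k) x P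
    rw [hx P hP, map_zero, RingHom.comp_id] at h6
    exact h6.symm

/-- **Reduction of Q1 for projective varieties to smooth hypersurfaces over real number
fields.** -/
theorem reduction_real (g : ℕ → ℕ) (A : Set ℕ) (hA : A.Infinite) :
    (∀ (k : Type) [Field k] [NumberField k] (σ : k →+* ℂ) (n : ℕ)
      (S : Set (MvPolynomial (Fin (n + 1)) k)), Homog S →
      KobayashiHyperbolic (points σ S) → (points (RingHom.id k) S).Finite) ↔
    (∀ (k : Type) [Field k] [NumberField k] (σ : k →+* ℝ), ∀ n ∈ A,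
      ∀ F : MvPolynomial (Fin (n + 1)) k, F.IsHomogeneous (dseq g n) → SmoothHypersurface F →
      KobayashiHyperbolic (points ((algebraMap ℝ ℂ).comp σ) {F}) →
      (points (RingHom.id k) {F}).Finite) := by
  constructor
  · intro h k _ _ σ n _ F hF _ hT
    exact h k _ n {F} (homog_singleton hF) hT
  · intro h k _ _ σ n₀ S hS hZ
    obtain ⟨K₀, hfin, hreal, r, S', Φ, hS', hS'1, hΦ0, hΦ1, hΦ2⟩ :=
      exists_real_model σ S hS hZ.brody
    obtain ⟨r', rfl⟩ : ∃ r', r = r' + 1 := by
      refine ⟨r - 1, ?_⟩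
      have h1 : r ≠ 0 := by
        rintro rfl
        apply hΦ0 (fun _ => 1)
        · intro h0
          exact one_ne_zero (congrFun h0 0)
        · funext i
          exact Fin.elim0 i
      omega
    have : NumberField K₀ := { to_charZero := inferInstance, to_finiteDimensional := hfin }
    refine finite_transfer Φ hΦ0 hΦ1 hS' hΦ2 ?_
    let σ₀ : K₀ →+* ℝ :=
      { toFun := fun z => (z : ℂ).re
        map_one' := rfl
        map_zero' := rfl
        map_add' := fun _ _ => rfl
        map_mul' := fun z w => by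
          have h1 : (w : ℂ).im = 0 := Complex.conj_eq_iff_im.1 (hreal w w.2)
          change ((z : ℂ) * (w : ℂ)).re = _
          rw [Complex.mul_re, h1, mul_zero, sub_zero] }
    have hσ₀ : (algebraMap ℝ ℂ).comp σ₀ = algebraMap K₀ ℂ := by
      ext z
      exact Complex.conj_eq_iff_re.1 (hreal z z.2)
    refine (reduction_same_field g K₀ {algebraMap K₀ ℂ} (Set.finite_singleton _) A hA).2 ?_ r' S'
      hS' ?_
    · intro n hn F hF1 hF2 hF3
      refine h K₀ σ₀ n hn F hF1 hF2 ?_
      rw [hσ₀]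
      exact hF3 _ rfl
    · intro τ hτ
      rw [Set.mem_singleton_iff] at hτ
      subst hτ
      exact hS'1.kobayashi (pclosed_points hS' _)

end Pool.Agent.Lib.MP_627a61_nt
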