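import Pool.Agent.Lib.MP_627a61_nt.Chars

/-!
# Hyperbolicity of twisted Segre products, and descent of equations
-/

open scoped LinearAlgebra.Projectivization Topology
open Filter MvPolynomial

namespace Pool.Agent.Lib.MP_627a61_nt

/-- the conditions on a vector `w ∈ ℂ^(E → ι)` saying that it is a pure tensor of vectors which
lie on the cones over given varieties -/
structure SegreCond {E ι k : Type*} [DecidableEq E] [Field k] (τ : E → (k →+* ℂ))
    (S : Set (MvPolynomial ι k)) (w : (E → ι) → ℂ) : Prop where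
  swap : ∀ (j j' : E → ι) (e : E),
    w j * w j' = w (Function.update j e (j' e)) * w (Function.update j' e (j e))
  zero : ∀ (j : E → ι) (e : E), ∀ F ∈ S, F.eval₂ (τ e) (fun l => w (Function.update j e l)) = 0

/-- **Hyperbolicity of products.** -/
theorem brodyHyperbolic_segre {E ι κ k : Type*} [Fintype E] [DecidableEq E] [Fintype ι]
    [Fintype κ] [Field k] (τ : E → (k →+* ℂ)) (S : Set (MvPolynomial ι k)) (hS : Homog S)
    (hZ : ∀ e, BrodyHyperbolic (points (τ e) S))
    (L : (κ → ℂ) →ₗ[ℂ] ((E → ι) → ℂ)) (Y : Set (ℙ ℂ (κ → ℂ)))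
    (hY1 : ∀ p ∈ Y, ∀ q ∈ Y, (∃ t : ℂ, L p.rep = t • L q.rep) → p = q)
    (hY0 : ∀ p ∈ Y, L p.rep ≠ 0)
    (hY2 : ∀ p ∈ Y, SegreCond τ S (L p.rep)) : BrodyHyperbolic Y := by
  intro φ hφ hφY
  obtain ⟨j₀, hj₀⟩ : ∃ j₀, L (φ 0).rep j₀ ≠ 0 := Function.ne_iff.1 (hY0 _ (hφY 0))
  -- the coordinate maps to the factors
  let G : E → (κ → ℂ) → (ι → ℂ) := fun e y l => L y (Function.update j₀ e l)
  have hGan : ∀ e x, AnalyticAt ℂ (G e) x := by
    intro e x
    rw [analyticAt_pi_iff]
    intro l
    exact ((LinearMap.proj (R := ℂ) (φ := fun _ : E → ι => ℂ)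
      (Function.update j₀ e l)).comp L).toContinuousLinearMap.analyticAt x
  have hGhom : ∀ e (t : ℂ) x, G e (t • x) = t ^ 1 • G e x := by
    intro e t x
    funext l
    simp [G]
  have hG0 : ∀ e z, L (φ z).rep j₀ ≠ 0 → G e (φ z).rep ≠ 0 := by
    intro e z hz h
    have := congrFun h (j₀ e)
    simp only [G, Function.update_eq_self, Pi.zero_apply] at this
    exact hz this
  -- the coordinate `j₀` does not vanish nearby
  have hnear : ∀ᶠ z in 𝓝[≠] (0 : ℂ), L (φ z).rep j₀ ≠ 0 := by
    obtain ⟨ψ, -, -, h⟩ := exists_division hφ (fun y (_ : Unit) => L y j₀) (by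
      intro x
      rw [analyticAt_pi_iff]
      intro l
      exact ((LinearMap.proj (R := ℂ) (φ := fun _ : E → ι => ℂ)
        j₀).comp L).toContinuousLinearMap.analyticAt x) 1 (by
      intro t x
      funext l
      simp) (z₀ := 0) (by
      intro h
      exact hj₀ (congrFun h ()))
    filter_upwards [h 0] with z hz h0
    exact hz (funext fun _ => h0)
  -- the ratios are constant
  have hconst : ∀ e, ∀ᶠ z in 𝓝[≠] (0 : ℂ), ∃ t : ℂ, G e (φ z).rep = t • G e (φ 0).rep := by
    intro e
    obtain ⟨ψ, hψ, hψ1, hψ2⟩ := exists_division hφ (G e) (hGan e) 1 (hGhom e) (hG0 e 0 hj₀)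
    have hψZ : ∀ z, ψ z ∈ points (τ e) S := by
      intro z F hF
      obtain ⟨n, hn⟩ := hS F hF
      refine (hψ z).zero_of_punctured (fun y => F.eval₂ (τ e) y) (continuous_eval₂ F (τ e))
        (fun t x ht => ?_) ?_
      · rw [eval₂_smul_homog hn, mul_eq_zero]
        exact ⟨fun h => h.resolve_left (pow_ne_zero _ ht), Or.inr⟩
      · filter_upwards [hψ2 z] with w hw
        obtain ⟨t, ht, hrep⟩ := exists_rep_eq (hψ1 w hw)
        rw [hrep, eval₂_smul_homog hn, (hY2 _ (hφY w)).zero j₀ e F hF, mul_zero]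
    have hψc := hZ e ψ hψ hψZ
    filter_upwards [hψ2 0] with z hz
    have h1 := hψ1 z hz
    rw [hψc z 0, hψ1 0 (hG0 e 0 hj₀), Projectivization.mk_eq_mk_iff'] at h1
    obtain ⟨c, hc⟩ := h1
    have hc0 : c ≠ 0 := by
      rintro rfl
      rw [zero_smul] at hc
      exact hG0 e 0 hj₀ hc.symm
    exact ⟨c⁻¹, by rw [← hc, smul_smul, inv_mul_cancel₀ hc0, one_smul]⟩
  -- all ratios of coordinates are constant
  have hfin : ∀ᶠ z in 𝓝[≠] (0 : ℂ), φ z = φ 0 := by
    filter_upwards [hnear, eventually_all.2 hconst] with z hz1 hz2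
    refine hY1 _ (hφY z) _ (hφY 0) ⟨L (φ z).rep j₀ / L (φ 0).rep j₀, ?_⟩
    have hsw := (hY2 _ (hφY z)).swap
    have hsv := (hY2 _ (hφY 0)).swap
    have hz2' : ∀ e, ∃ t : ℂ, ∀ l, L (φ z).rep (Function.update j₀ e l) =
        t * L (φ 0).rep (Function.update j₀ e l) := fun e => by
      obtain ⟨t, ht⟩ := hz2 e
      exact ⟨t, fun l => congrFun ht l⟩
    generalize hw : L (φ z).rep = w at hz1 hz2' hsw ⊢
    generalize hv : L (φ 0).rep = v at hj₀ hz2' hsv ⊢
    have hratio : ∀ e l, w (Function.update j₀ e l) * v j₀ = w j₀ * v (Function.update j₀ e l) := by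
      intro e l
      obtain ⟨t, ht⟩ := hz2' e
      have h1 := ht l
      have h2 := ht (j₀ e)
      simp only [Function.update_eq_self] at h2
      rw [h1, h2]
      ring
    -- induction on the set of changed indices
    have hind : ∀ (A : Finset E) (j : E → ι), (∀ e, e ∉ A → j e = j₀ e) →
        w j * v j₀ = w j₀ * v j := by
      intro A
      induction A using Finset.induction_on with
      | empty =>
        intro j hj
        have : j = j₀ := funext fun e => hj e (by simp)
        rw [this]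
      | insert e A he ih =>
        intro j hj
        -- `j₁` agrees with `j` except at `e`
        set j₁ := Function.update j e (j₀ e) with hj₁
        set j₂ := Function.update j₀ e (j e) with hj₂
        have h1 : w j₁ * v j₀ = w j₀ * v j₁ := by
          apply ih
          intro e' he'
          by_cases h : e' = e
          · rw [hj₁, h, Function.update_self]
          · rw [hj₁, Function.update_of_ne h]
            exact hj e' (by simp [h, he'])
        have h2 : w j₂ * v j₀ = w j₀ * v j₂ := hratio e (j e)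
        have h3 : w j₁ * w j₂ = w j * w j₀ := by
          have := hsw j₁ j₂ e
          rw [this]
          congr 2
          · rw [hj₁, hj₂]; simp
          · rw [hj₁, hj₂]; simp
        have h4 : v j₁ * v j₂ = v j * v j₀ := by
          have := hsv j₁ j₂ e
          rw [this]
          congr 2
          · rw [hj₁, hj₂]; simp
          · rw [hj₁, hj₂]; simp
        have h5 : v j₀ ≠ 0 := hj₀
        have h6 : w j₀ ≠ 0 := hz1
        apply mul_left_cancel₀ (mul_ne_zero h6 h5)
        calc w j₀ * v j₀ * (w j * v j₀) = (w j * w j₀) * (v j₀ * v j₀) := by ring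
          _ = (w j₁ * v j₀) * (w j₂ * v j₀) := by rw [← h3]; ring
          _ = (w j₀ * v j₁) * (w j₀ * v j₂) := by rw [h1, h2]
          _ = w j₀ * w j₀ * (v j₁ * v j₂) := by ring
          _ = w j₀ * v j₀ * (w j₀ * v j) := by rw [h4]; ring
    funext j
    have h1 := hind Finset.univ j (by simp)
    simp only [Pi.smul_apply, smul_eq_mul]
    rw [div_mul_eq_mul_div, eq_div_iff hj₀, h1]
  have hc := eq_of_eventually_const hφ hfin.frequently
  intro z w
  rw [hc z, hc w]

/-- **Descent of equations**: if `y` is a common zero of all homogeneous polynomials over `k₀`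
vanishing on `Σ ⊆ k₀^κ` then it is a zero of every homogeneous complex polynomial vanishing
on `Σ`. -/
theorem descent {κ k₀ : Type*} [Finite κ] [Field k₀] [Algebra k₀ ℂ] (Sg : Set (κ → k₀))
    (y : κ → ℂ)
    (hy : ∀ (n : ℕ) (Q : MvPolynomial κ k₀), Q.IsHomogeneous n →
      (∀ x ∈ Sg, MvPolynomial.eval x Q = 0) → Q.eval₂ (algebraMap k₀ ℂ) y = 0)
    {n : ℕ} (G : MvPolynomial κ ℂ) (hG : G.IsHomogeneous n)
    (hG0 : ∀ x ∈ Sg, MvPolynomial.eval (fun i => algebraMap k₀ ℂ (x i)) G = 0) :
    MvPolynomial.eval y G = 0 := by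
  classical
  obtain ⟨b⟩ : Nonempty (Module.Basis (Module.Free.ChooseBasisIndex k₀ ℂ) k₀ ℂ) :=
    ⟨Module.Free.chooseBasis k₀ ℂ⟩
  -- the components
  let Q : Module.Free.ChooseBasisIndex k₀ ℂ → MvPolynomial κ k₀ := fun i =>
    ∑ d ∈ G.support, monomial d (b.repr (G.coeff d) i)
  -- the finite set of basis elements needed
  let I : Finset (Module.Free.ChooseBasisIndex k₀ ℂ) :=
    G.support.biUnion fun d => (b.repr (G.coeff d)).support
  have hcoeff : ∀ d ∈ G.support, G.coeff d =
      ∑ i ∈ I, algebraMap k₀ ℂ (b.repr (G.coeff d) i) * b i := by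
    intro d hd
    conv_lhs => rw [← b.linearCombination_repr (G.coeff d)]
    rw [Finsupp.linearCombination_apply, Finsupp.sum_of_support_subset (s := I)]
    · refine Finset.sum_congr rfl fun i _ => ?_
      rw [Algebra.smul_def]
    · exact Finset.subset_biUnion_of_mem (fun d => (b.repr (G.coeff d)).support) hd
    · simp
  have hev : ∀ z : κ → ℂ, MvPolynomial.eval z G =
      ∑ i ∈ I, b i * (Q i).eval₂ (algebraMap k₀ ℂ) z := by
    intro z
    rw [MvPolynomial.eval_eq]
    have h1 : ∀ i, (Q i).eval₂ (algebraMap k₀ ℂ) z =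
        ∑ d ∈ G.support, algebraMap k₀ ℂ (b.repr (G.coeff d) i) * ∏ l ∈ d.support, z l ^ d l := by
      intro i
      simp only [Q, eval₂_sum]
      refine Finset.sum_congr rfl fun d _ => ?_
      rw [eval₂_monomial]
      rfl
    simp only [h1, Finset.mul_sum]
    rw [Finset.sum_comm]
    refine Finset.sum_congr rfl fun d hd => ?_
    conv_lhs => rw [hcoeff d hd]
    rw [Finset.sum_mul]
    refine Finset.sum_congr rfl fun i _ => ?_
    ring
  have hQhom : ∀ i, (Q i).IsHomogeneous n := by
    intro i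
    apply IsHomogeneous.sum
    intro d hd
    apply isHomogeneous_monomial
    exact (hG.degree_eq_sum_deg_support hd).symm
  have hcast : ∀ (R : MvPolynomial κ k₀) (x : κ → k₀),
      R.eval₂ (algebraMap k₀ ℂ) (fun i => algebraMap k₀ ℂ (x i)) =
        algebraMap k₀ ℂ (MvPolynomial.eval x R) := by
    intro R x
    have h1 := MvPolynomial.eval₂_comp_left (algebraMap k₀ ℂ) (RingHom.id k₀) x R
    have h2 : MvPolynomial.eval₂ (RingHom.id k₀) x R = MvPolynomial.eval x R := rfl
    rw [h2] at h1
    exact h1.symm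
  have hQ0 : ∀ i ∈ I, ∀ x ∈ Sg, MvPolynomial.eval x (Q i) = 0 := by
    intro i hi x hx
    have h1 := hG0 x hx
    rw [hev] at h1
    simp only [hcast] at h1
    have h2 := linearIndependent_iff'.1 b.linearIndependent I
      (fun i => MvPolynomial.eval x (Q i)) (by
        rw [← h1]
        refine Finset.sum_congr rfl fun i _ => ?_
        rw [Algebra.smul_def, mul_comm])
    exact h2 i hi
  rw [hev]
  apply Finset.sum_eq_zero
  intro i hi
  rw [hy n (Q i) (hQhom i) (hQ0 i hi), mul_zero]

end Pool.Agent.Lib.MP_627a61_nt
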