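import Pool.Agent.Lib.MP_627a61_nt.Smooth

/-!
# Embedding hyperbolic projective varieties in smooth hyperbolic hypersurfaces
-/

open scoped LinearAlgebra.Projectivization Topology
open Filter Metric MvPolynomial

namespace Pool.Agent.Lib.MP_627a61_nt

variable {ι κ Γ k L : Type*} [Field k] [Field L]

/-- finitely many of the equations suffice -/
lemma exists_finite_equations [Finite ι] (S : Set (MvPolynomial ι k)) :
    ∃ S' : Finset (MvPolynomial ι k), (S' : Set (MvPolynomial ι k)) ⊆ S ∧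
      ∀ (L : Type*) [Field L] (τ : k →+* L) (x : ι → L),
        (∀ F ∈ S', F.eval₂ τ x = 0) → ∀ F ∈ S, F.eval₂ τ x = 0 := by
  have hfg : (Submodule.span (MvPolynomial ι k) S).FG := IsNoetherian.noetherian _
  rw [Submodule.fg_span_iff_fg_span_finset_subset] at hfg
  obtain ⟨S', hS', hspan⟩ := hfg
  refine ⟨S', hS', fun L _ τ x h F hF => ?_⟩
  have h1 : F ∈ Ideal.span (S' : Set (MvPolynomial ι k)) := by
    have h2 : F ∈ Submodule.span (MvPolynomial ι k) S := Submodule.subset_span hF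
    rw [hspan] at h2
    exact h2
  have h3 : Ideal.span (S' : Set (MvPolynomial ι k)) ≤ RingHom.ker (eval₂Hom τ x) := by
    rw [Ideal.span_le]
    intro G hG
    rw [SetLike.mem_coe, RingHom.mem_ker]
    exact h G hG
  exact h3 h1

/-- the equations of the image of a projective variety under the linear embedding `x ↦ (x, 0)` -/
noncomputable def extP (κ : Type*) (P : Γ → MvPolynomial ι k) : Γ ⊕ κ → MvPolynomial (ι ⊕ κ) k :=
  Sum.elim (fun c => rename Sum.inl (P c)) fun j => X (Sum.inr j)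

lemma extP_homog {P : Γ → MvPolynomial ι k} {δ : Γ → ℕ} (hP : ∀ c, (P c).IsHomogeneous (δ c))
    (c : Γ ⊕ κ) : (extP κ P c).IsHomogeneous (Sum.elim δ (fun _ => 1) c) := by
  rcases c with c | j
  · exact (hP c).rename_isHomogeneous
  · exact isHomogeneous_X k (Sum.inr j)

lemma eval₂_extP_iff {P : Γ → MvPolynomial ι k} (τ : k →+* L) (x : ι ⊕ κ → L) :
    (∀ c, (extP κ P c).eval₂ τ x = 0) ↔
      (∀ c, (P c).eval₂ τ (fun i => x (Sum.inl i)) = 0) ∧ ∀ j, x (Sum.inr j) = 0 := by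
  constructor
  · intro h
    constructor
    · intro c
      have := h (Sum.inl c)
      simp only [extP, Sum.elim_inl, eval₂_rename] at this
      exact this
    · intro j
      have := h (Sum.inr j)
      simpa [extP] using this
  · rintro ⟨h1, h2⟩ (c | j)
    · simp only [extP, Sum.elim_inl, eval₂_rename]
      exact h1 c
    · simpa [extP] using h2 j

lemma brodyHyperbolic_extP [Fintype ι] [Fintype κ] {P : Γ → MvPolynomial ι k} {δ : Γ → ℕ}
    (hP : ∀ c, (P c).IsHomogeneous (δ c)) (σ : k →+* ℂ)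
    (hZ : BrodyHyperbolic (points σ (Set.range P))) :
    BrodyHyperbolic (points σ (Set.range (extP κ P))) := by
  intro φ hφ hφY
  have hcoord : ∀ z, (∀ c, (P c).eval₂ σ (fun i => (φ z).rep (Sum.inl i)) = 0) ∧
      ∀ j, (φ z).rep (Sum.inr j) = 0 := by
    intro z
    rw [← eval₂_extP_iff]
    intro c
    exact hφY z _ ⟨c, rfl⟩
  have hne : ∀ z, (fun i => (φ z).rep (Sum.inl i)) ≠ (0 : ι → ℂ) := by
    intro z h
    apply (φ z).rep_nonzero
    funext c
    rcases c with i | j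
    · exact congrFun h i
    · exact (hcoord z).2 j
  obtain ⟨ψ, hψ, hψ1, -⟩ := exists_division hφ (fun x i => x (Sum.inl i) : (ι ⊕ κ → ℂ) → (ι → ℂ))
    (by
      intro x
      rw [analyticAt_pi_iff]
      intro i
      exact analyticAt_proj _ x) 1
    (by
      intro t x
      funext i
      simp) (hne 0)
  have hψZ : ∀ z, ψ z ∈ points σ (Set.range P) := by
    intro z
    rw [hψ1 z (hne z), mem_points_mk _ σ]
    · rintro _ ⟨c, rfl⟩
      exact (hcoord z).1 c
    · rintro _ ⟨c, rfl⟩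
      exact ⟨_, hP c⟩
  have hψc := hZ ψ hψ hψZ
  intro z w
  have h1 := hψc z w
  rw [hψ1 z (hne z), hψ1 w (hne w), Projectivization.mk_eq_mk_iff'] at h1
  obtain ⟨t, ht⟩ := h1
  rw [← (φ z).mk_rep, ← (φ w).mk_rep, Projectivization.mk_eq_mk_iff']
  refine ⟨t, ?_⟩
  funext c
  rcases c with i | j
  · exact congrFun ht i
  · simp [(hcoord z).2 j, (hcoord w).2 j]

/-- Brody hyperbolicity persists in the pencil `M F₀ + E` for large `M`. -/
theorem eventually_hyperbolic_pencil [Fintype ι] {F₀ E : MvPolynomial ι k} {m : ℕ}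
    (hF₀ : F₀.IsHomogeneous m) (hE : E.IsHomogeneous m) (σ : k →+* ℂ)
    (h : BrodyHyperbolic (points σ {F₀})) :
    ∀ᶠ M : ℕ in atTop, BrodyHyperbolic (points σ {(M : MvPolynomial ι k) * F₀ + E}) := by
  have hhom : ∀ M : ℕ, ((M : MvPolynomial ι k) * F₀ + E).IsHomogeneous m := by
    intro M
    have h1 := (hF₀.C_mul (M : k)).add hE
    rwa [map_natCast] at h1
  have hHom : ∀ M : ℕ, Homog {(M : MvPolynomial ι k) * F₀ + E} := by
    intro M F hF
    rw [Set.mem_singleton_iff] at hF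
    exact ⟨m, hF ▸ hhom M⟩
  have hHom0 : Homog {F₀} := by
    intro F hF
    rw [Set.mem_singleton_iff] at hF
    exact ⟨m, hF ▸ hF₀⟩
  refine eventually_brodyHyperbolic h _ ?_
  intro l n hn q p hq hlim
  obtain ⟨j, hj⟩ := exists_diag_pm p
  have hj0 := diag_ne_zero_of_le hj
  obtain ⟨h1, h2⟩ := tendsto_col hlim hj0
  rw [mem_points_iff_col hHom0 σ hj0]
  intro F hF
  rw [Set.mem_singleton_iff] at hF
  subst hF
  have h3 : Tendsto (fun i => F.eval₂ σ (col j (pm (q i)))) l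
      (𝓝 (F.eval₂ σ (col j (pm p)))) := ((continuous_eval₂ F σ).tendsto _).comp h1
  have h4 : Tendsto (fun i => E.eval₂ σ (col j (pm (q i)))) l
      (𝓝 (E.eval₂ σ (col j (pm p)))) := ((continuous_eval₂ E σ).tendsto _).comp h1
  have hnc : Tendsto (fun i => ((n i : ℕ) : ℂ)⁻¹) l (𝓝 0) :=
    (tendsto_inv_atTop_nhds_zero_nat (𝕜 := ℂ)).comp hn
  have h5 : Tendsto (fun i => -(((n i : ℕ) : ℂ)⁻¹ * E.eval₂ σ (col j (pm (q i))))) l (𝓝 0) := by
    have := (hnc.mul h4).neg
    simpa using this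
  have h6 : ∀ᶠ i in (l : Filter ℕ), F.eval₂ σ (col j (pm (q i))) =
      -(((n i : ℕ) : ℂ)⁻¹ * E.eval₂ σ (col j (pm (q i)))) := by
    filter_upwards [h2, hn.eventually_gt_atTop 0] with i hi hi0
    have h7 := (mem_points_iff_col (hHom (n i)) σ hi).1 (hq i) _ rfl
    rw [eval₂_add, eval₂_mul] at h7
    have h8 : (MvPolynomial.eval₂ σ (col j (pm (q i))) ((n i : ℕ) : MvPolynomial ι k)) =
        ((n i : ℕ) : ℂ) := by
      rw [← coe_eval₂Hom, map_natCast]
    rw [h8] at h7
    have h9 : ((n i : ℕ) : ℂ) ≠ 0 := by exact_mod_cast hi0.ne'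
    field_simp
    linear_combination h7
  exact tendsto_nhds_unique h3 (h5.congr' (by filter_upwards [h6] with i hi using hi.symm))

/-- **Embedding theorem.** Every projective variety which is Brody hyperbolic at finitely many
complex embeddings of `k` is contained, after the linear embedding `x ↦ (x, 0)`, in a smooth
hypersurface over `k` which is Brody hyperbolic at these embeddings. -/
theorem exists_smooth_hypersurface [Fintype ι] [Nonempty ι] [Fintype κ] [Fintype Γ] [CharZero k]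
    (f : ι ↪ κ) (P : Γ → MvPolynomial ι k) {δ : Γ → ℕ} (hδ : ∀ c, (P c).IsHomogeneous (δ c))
    (T : Set (k →+* ℂ)) (hT : T.Finite)
    (hZ' : ∀ σ ∈ T, BrodyHyperbolic (points σ (Set.range P))) {e N : ℕ} (he2 : 2 ≤ e)
    (heδ : ∀ c, δ c < e) (hN : Fintype.card ((Γ ⊕ κ) × (ι ⊕ κ) × (ι ⊕ κ)) ≤ N + 1) :
    ∃ F : MvPolynomial (ι ⊕ κ) k, F.IsHomogeneous (e * 4 ^ N) ∧ SmoothHypersurface F ∧
      (∀ σ ∈ T, BrodyHyperbolic (points σ {F})) ∧
      (∀ x : ι → k, (∀ c, eval₂ (RingHom.id k) x (P c) = 0) →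
        eval₂ (RingHom.id k) (Sum.elim x 0) F = 0) := by
  classical
  -- parameters
  have he3 : ∀ c, Sum.elim δ (fun _ : κ => 1) c < e := by
    rintro (c | c)
    · exact heδ c
    · simp only [Sum.elim_inr]; omega
  obtain ⟨i₀⟩ : Nonempty ι := inferInstance
  obtain ⟨eqv, heqv⟩ : ∃ s : Fin (N + 1) → (Γ ⊕ κ) × (ι ⊕ κ) × (ι ⊕ κ), Function.Surjective s := by
    obtain ⟨g⟩ := Function.Embedding.nonempty_of_card_le
      (α := (Γ ⊕ κ) × (ι ⊕ κ) × (ι ⊕ κ)) (β := Fin (N + 1)) (by simpa using hN)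
    have : Nonempty ((Γ ⊕ κ) × (ι ⊕ κ) × (ι ⊕ κ)) :=
      ⟨(Sum.inr (f i₀), Sum.inl i₀, Sum.inl i₀)⟩
    exact ⟨Function.invFun g, Function.invFun_surjective g.injective⟩
  set F₀ := hyp (4 * 1) (extP κ P) (Sum.elim δ fun _ : κ => 1) e eqv with hF₀
  have hF₀hom : F₀.IsHomogeneous (e * (4 * 1) ^ N) := hyp_homog (extP_homog hδ) he3 _ eqv
  set m := e * (4 * 1) ^ N with hm
  have hem : e ≤ m := Nat.le_mul_of_pos_right _ (by positivity)
  have hm2 : 2 ≤ m := he2.trans hem
  have hEhom : (smE k f m).IsHomogeneous m := smE_homog (by omega)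
  have hF₀hyp : ∀ σ ∈ T, BrodyHyperbolic (points σ {F₀}) := by
    intro σ hσ
    exact brodyHyperbolic_hyp (extP_homog hδ) he3 one_ne_zero heqv σ
      (brodyHyperbolic_extP hδ σ (hZ' σ hσ))
  -- smoothness
  have hfin := finite_singular (K := AlgebraicClosure k) (m := m)
    (R := Fintype.card (ι ⊕ κ) * (2 * m)) (E := smE k f m) hF₀hom (by
      have h2 : 1 ≤ Fintype.card (ι ⊕ κ) := Fintype.card_pos
      nlinarith [Nat.sub_le m 1]) (smE_dec hm2 le_rfl)
  have hev1 : ∀ᶠ M : ℕ in atTop, ¬ ∃ x : ι ⊕ κ → AlgebraicClosure k, x ≠ 0 ∧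
      ∀ i, aeval x (pderiv i ((M : MvPolynomial (ι ⊕ κ) k) * F₀ + smE k f m)) = 0 := by
    have := hfin.compl_mem_cofinite
    rw [Nat.cofinite_eq_atTop] at this
    exact this
  have hev2 : ∀ᶠ M : ℕ in atTop, ∀ σ ∈ T,
      BrodyHyperbolic (points σ {(M : MvPolynomial (ι ⊕ κ) k) * F₀ + smE k f m}) := by
    rw [Filter.eventually_all_finite hT]
    intro σ hσ
    exact eventually_hyperbolic_pencil hF₀hom hEhom σ (hF₀hyp σ hσ)
  obtain ⟨M, hM1, hM2⟩ := (hev1.and hev2).exists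
  refine ⟨(M : MvPolynomial (ι ⊕ κ) k) * F₀ + smE k f m, ?_, ?_, hM2, ?_⟩
  · have h1 := (hF₀hom.C_mul (M : k)).add hEhom
    rwa [map_natCast] at h1
  · intro x hx _
    by_contra hcon
    push Not at hcon
    exact hM1 ⟨x, hx, hcon⟩
  · intro x hx
    have h1 : eval₂ (RingHom.id k) (Sum.elim x 0) F₀ = 0 := by
      apply eval₂_hyp_eq_zero (by norm_num)
      rw [eval₂_extP_iff]
      exact ⟨fun c => hx c, fun j => by simp⟩
    have h2 : eval₂ (RingHom.id k) (Sum.elim x (0 : κ → k)) (smE k f m) = 0 := by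
      have hm0 : m ≠ 0 := by omega
      rw [smE, eval₂_add, eval₂_sum, eval₂_sum, Finset.sum_eq_zero, Finset.sum_eq_zero, add_zero]
      · intro l _
        rw [eval₂_pow, eval₂_X]
        simp [hm0]
      · intro j _
        rw [eval₂_mul, eval₂_X]
        simp
    rw [eval₂_add, eval₂_mul, h1, h2, mul_zero, add_zero]

end Pool.Agent.Lib.MP_627a61_nt
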