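import Pool.Agent.Lib.MP_627a61_nt.SquaresDefs

/-!
# Smooth complete intersections
-/

open MvPolynomial

namespace Pool.Agent.Lib.MP_627a61_nt

/-- The forms `Q c` define a smooth complete intersection in projective space: at each common
zero with coordinates in an algebraic closure of `k` their gradients are linearly
independent. -/
def SmoothCompleteIntersection {ι κ k : Type*} [Field k] (Q : κ → MvPolynomial ι k) : Prop :=
  ∀ x : ι → AlgebraicClosure k, x ≠ 0 → (∀ c, aeval x (Q c) = 0) →
    LinearIndependent (AlgebraicClosure k) fun c i => aeval x (pderiv i (Q c))

end Pool.Agent.Lib.MP_627a61_nt
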