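import Pool.Agent.Lib.MP_627a61_nt.Defs

/-!
# Definitions for the reduction to simultaneous squares of linear forms
-/

open scoped LinearAlgebra.Projectivization
open MvPolynomial

namespace Pool.Agent.Lib.MP_627a61_nt

/-- The system of diagonal quadrics `∑ l, a c l * z l ^ 2 = 0`. -/
def diagQuad {ι κ k : Type*} [Fintype ι] [Field k] (a : κ → ι → k) : Set (MvPolynomial ι k) :=
  Set.range fun c => ∑ l, C (a c l) * X l ^ 2

/-- The subvariety of projective space over `K` parametrised by linear forms: all `z` such that
the squares `z l ^ 2` are the values at one vector `u` of the linear forms with coefficients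
`τ (L l i)`. It is a cover of projective space (with coordinates `u`) with group of exponent
two. -/
def sqCover {ι κ k K : Type*} [Fintype κ] [Field k] [Field K] (τ : k →+* K) (L : ι → κ → k) :
    Set (ℙ K (ι → K)) :=
  {z | ∃ u : κ → K, ∀ l, z.rep l ^ 2 = ∑ i, τ (L l i) * u i}

/-- The points `[u]` of projective space over `k` at which, after multiplication with a common
nonzero scalar, all linear forms with coefficients `L l i` are squares in `k`. -/
def squarePoints {ι κ k : Type*} [Fintype κ] [Field k] (L : ι → κ → k) : Set (ℙ k (κ → k)) :=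
  {u | ∃ c : k, c ≠ 0 ∧ ∀ l, IsSquare (c * ∑ i, L l i * u.rep i)}

/-- All minors of size `d` of the matrix `L` with `M` rows and `d` columns are nonzero: the
linear forms given by the rows are in general position. -/
def GenPos {M d : ℕ} {k : Type*} [Field k] (L : Fin M → Fin d → k) : Prop :=
  ∀ c : Fin d → Fin M, Function.Injective c → Matrix.det (Matrix.of fun i j => L (c i) j) ≠ 0

/-- All maximal minors of the matrix `a` with `r` rows and `M` columns are nonzero. -/
def MaxMinors {r M : ℕ} {k : Type*} [Field k] (a : Fin r → Fin M → k) : Prop :=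
  ∀ c : Fin r → Fin M, Function.Injective c → Matrix.det (Matrix.of fun i j => a i (c j)) ≠ 0

/-- The value at the integer vector `v` of the quadratic form with symmetric matrix `φ`. -/
def formVal {n m : ℕ} {k : Type*} [Field k] (φ : Fin n → Fin n → k) (v : Fin n → Fin m) : k :=
  ∑ i, ∑ j, ((v i : ℕ) : k) * ((v j : ℕ) : k) * φ i j

/-- The points `[x]` of projective space over `K` such that the square of the linear form with
coefficients `x`, that is, the matrix with entries `x i * x j`, is in the `K`-linear span of the
space `Φ` of symmetric matrices over `k`. -/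
def squareForms {n : ℕ} {k K : Type*} [Field k] [Field K] (τ : k →+* K)
    (Φ : Submodule k (Fin n → Fin n → k)) : Set (ℙ K (Fin n → K)) :=
  {x | (fun i j => x.rep i * x.rep j) ∈
    Submodule.span K ((fun (φ : Fin n → Fin n → k) i j => τ (φ i j)) '' Φ)}

/-- The quadratic forms in `Φ`, up to scalars, all of whose values on the box `{0, ..., B} ^ n`
are squares in `k` up to one common nonzero factor. -/
def boxSquares {n : ℕ} {k : Type*} [Field k] (B : ℕ) (Φ : Submodule k (Fin n → Fin n → k)) :
    Set (ℙ k (Fin n → Fin n → k)) :=
  {φ | φ.rep ∈ Φ ∧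
    ∃ c : k, c ≠ 0 ∧ ∀ v : Fin n → Fin (B + 1), IsSquare (c * formVal φ.rep v)}

end Pool.Agent.Lib.MP_627a61_nt
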