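import Pool.Agent.Lib.MP_627a61_nt.Fermat

/-!
# A tower of Brody hyperbolic hypersurfaces in all projective spaces
-/

open scoped LinearAlgebra.Projectivization Topology ComplexConjugate
open Filter Metric

namespace Pool.Agent.Lib.MP_627a61_nt

variable {ι : Type*} [Fintype ι] {κ : Type*} [Fintype κ]

/-- a curve whose coordinates have proportional `d`-th powers is constant -/
lemma const_of_pow_prop {φ : ℂ → ℙ ℂ (ι → ℂ)} (hφ : ∀ z, HolomorphicAt φ z) {d : ℕ} (hd : d ≠ 0)
    (k : ι → ℂ) (h : ∀ z, ∃ s : ℂ, ∀ m, (φ z).rep m ^ d = s * k m) : ∀ z w, φ z = φ w := by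
  apply eq_of_spd_eq_zero hφ
  intro z
  obtain ⟨j, hj⟩ := exists_diag_pm (φ z)
  have hN := card_pos_of_point (φ z)
  have hj0 : pm (φ z) j j ≠ 0 := by
    intro h
    rw [h, norm_zero] at hj
    exact absurd hj (not_le.2 (by positivity))
  refine spd_eq_zero_of_deriv (hφ z) hj0 ?_
  have hcont : ContinuousAt (fun w => pm (φ w) j j) z :=
    (continuousAt_pi.1 ((continuousAt_pi.1 (hφ z).continuousAt) j)) j
  have hpow : ∀ᶠ w in 𝓝 z, ∀ m, col j (pm (φ w)) m ^ d = k m / k j := by
    filter_upwards [hcont.eventually_ne hj0] with w hw m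
    have h1 : (φ w).rep j ≠ 0 := (pmv_diag_ne_zero_iff (φ w).rep_nonzero j).1 hw
    obtain ⟨s, hs⟩ := h w
    have h2 : s * k j ≠ 0 := by
      rw [← hs j]
      exact pow_ne_zero _ h1
    have h3 : s ≠ 0 := left_ne_zero_of_mul h2
    have h4 : k j ≠ 0 := right_ne_zero_of_mul h2
    rw [pm, col_pmv (φ w).rep_nonzero h1, Pi.smul_apply, smul_eq_mul, mul_pow, hs m, inv_pow, hs j]
    field_simp
  have hda : HasDerivAt (fun w => col j (pm (φ w))) (deriv (fun w => col j (pm (φ w))) z) z :=
    ((hφ z).col hj0).differentiableAt.hasDerivAt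
  funext m
  have h1 := hasDerivAt_pi.1 hda m
  simp only [Pi.zero_apply]
  by_cases hm : col j (pm (φ z)) m = 0
  · have h2 : k m / k j = 0 := by
      rw [← hpow.self_of_nhds m, hm, zero_pow hd]
    have h3 : (fun w => col j (pm (φ w)) m) =ᶠ[𝓝 z] fun _ => 0 := by
      filter_upwards [hpow] with w hw
      have h4 := hw m
      rw [h2] at h4
      exact pow_eq_zero_iff hd |>.1 h4
    exact h1.unique ((hasDerivAt_const z (0 : ℂ)).congr_of_eventuallyEq h3)
  · have h2 := h1.pow d
    have h3 : (fun w => col j (pm (φ w)) m ^ d) =ᶠ[𝓝 z] fun _ => k m / k j := by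
      filter_upwards [hpow] with w hw using hw m
    have h4 := h2.unique ((hasDerivAt_const z (k m / k j)).congr_of_eventuallyEq h3)
    have h5 : (d : ℂ) ≠ 0 := by exact_mod_cast hd
    have h6 : (d : ℂ) * col j (pm (φ z)) m ^ (d - 1) ≠ 0 := mul_ne_zero h5 (pow_ne_zero _ hm)
    exact (mul_eq_zero.1 h4).resolve_left h6

/-- the map `x ↦ (2 x_j^d - x_{j+1}^d)_j` -/
def tB {L : Type*} [CommRing L] (d : ℕ) {N : ℕ} (x : Fin (N + 2) → L) : Fin (N + 1) → L :=
  fun j => 2 * x j.castSucc ^ d - x j.succ ^ d

/-- the form of degree `d ^ N` in `N + 1` variables -/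
def tw {L : Type*} [CommRing L] (d : ℕ) : (N : ℕ) → (Fin (N + 1) → L) → L
  | 0, x => x 0
  | N + 1, x => tw d N (tB d x)

lemma tB_smul {L : Type*} [CommRing L] (d : ℕ) {N : ℕ} (t : L) (x : Fin (N + 2) → L) :
    tB d (t • x) = t ^ d • tB d x := by
  funext j
  simp only [tB, Pi.smul_apply, smul_eq_mul, mul_pow]
  ring

lemma tw_smul {L : Type*} [CommRing L] (d : ℕ) (N : ℕ) (t : L) (x : Fin (N + 1) → L) :
    tw d N (t • x) = t ^ (d ^ N) * tw d N x := by
  induction N generalizing t with
  | zero => simp [tw]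
  | succ N ih => rw [tw, tB_smul, ih, tw, ← pow_mul, ← pow_succ']

lemma tw_map {L M : Type*} [CommRing L] [CommRing M] (f : L →+* M) (d : ℕ) (N : ℕ)
    (x : Fin (N + 1) → L) : tw d N (fun i => f (x i)) = f (tw d N x) := by
  induction N with
  | zero => simp [tw]
  | succ N ih =>
    rw [tw, tw, ← ih]
    congr 1
    funext j
    have h2 : f (2 : L) = 2 := map_ofNat f 2
    simp [tB, h2]

/-- `tB` vanishes only at the origin if two is not a `d`-th power. -/
lemma eq_zero_of_tB {L : Type*} [Field L] {d : ℕ} (hd : d ≠ 0) (h2 : ∀ a : L, a ^ d ≠ 2) {N : ℕ}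
    {x : Fin (N + 2) → L} (hx : tB d x = 0) : x = 0 := by
  have hstep : ∀ j : Fin (N + 1), x j.succ ^ d = 2 * x j.castSucc ^ d := by
    intro j
    have := congrFun hx j
    simp only [tB, Pi.zero_apply] at this
    linear_combination -this
  have h0 : x 0 = 0 := by
    by_contra h
    have h1 := hstep 0
    simp only [Fin.castSucc_zero] at h1
    apply h2 (x (Fin.succ 0) / x 0)
    rw [div_pow, h1]
    field_simp
  funext m
  induction m using Fin.induction with
  | zero => exact h0
  | succ j ih =>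
    have h1 := hstep j
    rw [ih, Pi.zero_apply, zero_pow hd, mul_zero] at h1
    exact pow_eq_zero_iff hd |>.1 h1

/-- the tower forms are anisotropic over fields in which two is not a `d`-th power -/
lemma eq_zero_of_tw {L : Type*} [Field L] {d : ℕ} (hd : d ≠ 0) (h2 : ∀ a : L, a ^ d ≠ 2) {N : ℕ}
    {x : Fin (N + 1) → L} (hx : tw d N x = 0) : x = 0 := by
  induction N with
  | zero =>
    funext m
    obtain rfl : m = 0 := Fin.ext (by omega)
    exact hx
  | succ N ih => exact eq_zero_of_tB hd h2 (ih hx)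

lemma analyticAt_proj (j : ι) (x : ι → ℂ) : AnalyticAt ℂ (fun y : ι → ℂ => y j) x :=
  (ContinuousLinearMap.proj (R := ℂ) (φ := fun _ : ι => ℂ) j).analyticAt x

lemma analyticAt_tB (d : ℕ) {N : ℕ} (x : Fin (N + 2) → ℂ) :
    AnalyticAt ℂ (tB d : (Fin (N + 2) → ℂ) → Fin (N + 1) → ℂ) x := by
  rw [analyticAt_pi_iff]
  intro j
  exact (analyticAt_const.mul ((analyticAt_proj _ x).pow d)).sub ((analyticAt_proj _ x).pow d)

lemma analyticAt_tw (d : ℕ) (N : ℕ) (x : Fin (N + 1) → ℂ) :
    AnalyticAt ℂ (tw d N : (Fin (N + 1) → ℂ) → ℂ) x := by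
  induction N with
  | zero => exact analyticAt_proj 0 x
  | succ N ih => exact (ih (tB d x)).comp (analyticAt_tB d x)

lemma continuous_tw (d : ℕ) (N : ℕ) : Continuous (tw d N : (Fin (N + 1) → ℂ) → ℂ) :=
  continuous_iff_continuousAt.2 fun x => (analyticAt_tw d N x).continuousAt

lemma tw_smul_eq_zero {L : Type*} [Field L] (d : ℕ) (N : ℕ) {t : L} (ht : t ≠ 0)
    (x : Fin (N + 1) → L) : tw d N (t • x) = 0 ↔ tw d N x = 0 := by
  rw [tw_smul]
  simp [ht]

/-- the complex points of the tower hypersurface -/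
def tower (d N : ℕ) : Set (ℙ ℂ (Fin (N + 1) → ℂ)) := {x | tw d N x.rep = 0}

lemma two_ne_pow {d : ℕ} (hd : 2 ≤ d) (a : ℚ) : a ^ d ≠ 2 := by
  intro h
  have ha : a ≠ 0 := by
    rintro rfl
    rw [zero_pow (by omega)] at h
    norm_num at h
  have h1 : padicValRat 2 (a ^ d) = d * padicValRat 2 a := padicValRat.pow a
  rw [h] at h1
  have h2 : padicValRat 2 (2 : ℚ) = 1 := by
    have := padicValRat.self (p := 2) (by norm_num)
    simpa using this
  rw [h2] at h1
  have h3 : (d : ℤ) ∣ 1 := ⟨_, h1⟩
  have h4 := Int.le_of_dvd one_pos h3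
  omega

/-- The tower hypersurfaces are Brody hyperbolic. -/
theorem brodyHyperbolic_tower {e : ℕ} (he : e ≠ 0) (N : ℕ) : BrodyHyperbolic (tower (4 * e) N) := by
  have hd0 : 4 * e ≠ 0 := by omega
  have h2p : ∀ n : ℕ, (2 : ℂ) ^ n ≠ 0 := fun n => pow_ne_zero n two_ne_zero
  induction N with
  | zero =>
    intro φ _ h2 z
    exfalso
    apply (φ z).rep_nonzero
    funext m
    obtain rfl : m = 0 := Fin.ext (by omega)
    exact h2 z
  | succ N ih =>
    intro φ hφ hφT
    by_cases hB : ∀ z, tB (4 * e) (φ z).rep = 0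
    · -- all the forms vanish
      refine const_of_pow_prop hφ hd0 (fun m => 2 ^ (m : ℕ)) fun z => ⟨(φ z).rep 0 ^ (4 * e), ?_⟩
      intro m
      induction m using Fin.induction with
      | zero => simp
      | succ j ihj =>
        have h1 := congrFun (hB z) j
        simp only [tB, Pi.zero_apply] at h1
        have h2 : (φ z).rep j.succ ^ (4 * e) = 2 * (φ z).rep j.castSucc ^ (4 * e) := by
          linear_combination -h1
        rw [h2, ihj]
        simp only [Fin.val_castSucc, Fin.val_succ]
        ring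
    · push Not at hB
      obtain ⟨z₀, hz₀⟩ := hB
      obtain ⟨ψ, hψ, hψ1, hψ2⟩ := exists_division hφ (tB (4 * e)) (analyticAt_tB (4 * e)) (4 * e)
        (tB_smul (4 * e)) hz₀
      have hψT : ∀ z, ψ z ∈ tower (4 * e) N := by
        have hne : ∀ z, tB (4 * e) (φ z).rep ≠ 0 → tw (4 * e) N (ψ z).rep = 0 := by
          intro z hz
          obtain ⟨t, ht, hrep⟩ := exists_rep_eq (hψ1 z hz)
          rw [hrep, tw_smul_eq_zero _ _ ht]
          exact hφT z
        intro z
        refine (hψ z).zero_of_punctured (tw (4 * e) N) (continuous_tw _ _)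
          (fun t x ht => tw_smul_eq_zero _ _ ht x) ?_
        filter_upwards [hψ2 z] with w hw using hne w hw
      have hψc := ih ψ hψ hψT
      set c : Fin (N + 1) → ℂ := (ψ 0).rep with hc
      have hc0 : c ≠ 0 := (ψ 0).rep_nonzero
      have hcT : tw (4 * e) N c = 0 := hψT 0
      have hBt : ∀ z, ∃ t : ℂ, tB (4 * e) (φ z).rep = t • c := by
        intro z
        by_cases hz : tB (4 * e) (φ z).rep = 0
        · exact ⟨0, by rw [hz, zero_smul]⟩
        · obtain ⟨t, ht, hrep⟩ := exists_rep_eq (hψ1 z hz)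
          refine ⟨t⁻¹, ?_⟩
          rw [hc, hψc 0 z, hrep, smul_smul, inv_mul_cancel₀ ht, one_smul]
      choose t ht using hBt
      -- the numbers rho
      set ρ : Fin (N + 2) → ℂ := fun m =>
        -∑ i : Fin (N + 1), if (i : ℕ) < m then c i / 2 ^ ((i : ℕ) + 1) else 0 with hρ
      have hρ0 : ρ 0 = 0 := by simp [hρ]
      have hρs : ∀ j : Fin (N + 1), ρ j.succ = ρ j.castSucc - c j / 2 ^ ((j : ℕ) + 1) := by
        intro j
        have h1 : ∀ i : Fin (N + 1),
            (if (i : ℕ) < j.succ then c i / 2 ^ ((i : ℕ) + 1) else 0) =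
              (if (i : ℕ) < j.castSucc then c i / 2 ^ ((i : ℕ) + 1) else 0) +
                if i = j then c j / 2 ^ ((j : ℕ) + 1) else 0 := by
          intro i
          simp only [Fin.val_succ, Fin.val_castSucc]
          rcases lt_trichotomy (i : ℕ) (j : ℕ) with h | h | h
          · have h3 : i ≠ j := fun h' => by rw [h'] at h; exact lt_irrefl _ h
            simp [h, h3, Nat.lt_succ_of_lt h]
          · have h3 : i = j := Fin.ext h
            subst h3
            simp
          · have h3 : i ≠ j := fun h' => by rw [h'] at h; exact lt_irrefl _ h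
            have h4 : ¬ (i : ℕ) < j := by omega
            have h5 : ¬ (i : ℕ) < (j : ℕ) + 1 := by omega
            simp [h3, h4, h5]
        simp only [hρ]
        rw [Finset.sum_congr rfl fun i _ => h1 i, Finset.sum_add_distrib]
        simp only [Finset.sum_ite_eq', Finset.mem_univ, if_true]
        ring
      have hu : ∀ z m, (φ z).rep m ^ (4 * e) / 2 ^ (m : ℕ) =
          (φ z).rep 0 ^ (4 * e) + t z * ρ m := by
        intro z m
        induction m using Fin.induction with
        | zero => simp [hρ0]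
        | succ j ihj =>
          have h1 := congrFun (ht z) j
          simp only [tB, Pi.smul_apply, smul_eq_mul] at h1
          rw [hρs, mul_sub, ← add_sub_assoc, ← ihj]
          simp only [Fin.val_castSucc, Fin.val_succ]
          have p1 := h2p (j : ℕ)
          have p2 := h2p ((j : ℕ) + 1)
          rw [div_eq_iff p2]
          field_simp
          linear_combination (-(2 : ℂ) ^ (j : ℕ)) * h1
      -- three distinct values
      have h3 : ∃ i l, ρ i ≠ 0 ∧ ρ l ≠ 0 ∧ ρ i ≠ ρ l := by
        by_contra hcon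
        push Not at hcon
        obtain ⟨i, hi⟩ : ∃ i, ρ i ≠ 0 := by
          by_contra h
          push Not at h
          apply hc0
          funext j
          have h1 := hρs j
          rw [h, h, zero_sub, eq_comm, neg_eq_zero, div_eq_zero_iff] at h1
          exact h1.resolve_right (h2p _)
        have hval : ∀ l, ρ l = ρ i * (if ρ l = 0 then 0 else 1) := by
          intro l
          split_ifs with h
          · rw [h, mul_zero]
          · rw [mul_one]
            exact (hcon i l hi h).symm
        set c' : Fin (N + 1) → ℚ := fun j =>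
          2 ^ ((j : ℕ) + 1) * ((if ρ j.castSucc = 0 then 0 else 1) -
            (if ρ j.succ = 0 then 0 else 1)) with hc'
        have hcc' : c = ρ i • fun j => (algebraMap ℚ ℂ) (c' j) := by
          funext j
          have h1 := hρs j
          simp only [hc', Pi.smul_apply, smul_eq_mul, map_mul, map_sub, map_pow, map_ofNat]
          have e1 : (algebraMap ℚ ℂ) (if ρ j.castSucc = 0 then 0 else 1) =
              if ρ j.castSucc = 0 then 0 else 1 := by split_ifs <;> simp
          have e2 : (algebraMap ℚ ℂ) (if ρ j.succ = 0 then 0 else 1) =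
              if ρ j.succ = 0 then 0 else 1 := by split_ifs <;> simp
          rw [e1, e2]
          have h4 : c j = 2 ^ ((j : ℕ) + 1) * (ρ j.castSucc - ρ j.succ) := by
            rw [h1]
            field_simp
            ring
          rw [h4]
          conv_lhs => rw [hval j.castSucc, hval j.succ]
          ring
        rw [hcc', tw_smul_eq_zero _ _ hi, tw_map, map_eq_zero] at hcT
        have h5 := eq_zero_of_tw hd0 (fun a => two_ne_pow (by omega) a) hcT
        apply hc0
        rw [hcc', h5]
        funext j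
        simp
      obtain ⟨i, l, hi, hl, hil⟩ := h3
      set a := ρ i with ha
      set b := ρ l with hb
      have hab : a - b ≠ 0 := sub_ne_zero.2 hil
      obtain ⟨α, hα⟩ := IsAlgClosed.exists_pow_nat_eq (a - b) (n := 4) (by norm_num)
      obtain ⟨β, hβ⟩ := IsAlgClosed.exists_pow_nat_eq (b / 2 ^ (i : ℕ)) (n := 4) (by norm_num)
      obtain ⟨γ, hγ⟩ := IsAlgClosed.exists_pow_nat_eq (-a / 2 ^ (l : ℕ)) (n := 4) (by norm_num)
      have hα0 : α ≠ 0 := by
        rintro rfl
        rw [zero_pow (by norm_num)] at hα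
        exact hab hα.symm
      have hβ0 : β ≠ 0 := by
        rintro rfl
        rw [zero_pow (by norm_num)] at hβ
        exact (div_ne_zero hl (h2p _)) hβ.symm
      let H : (Fin (N + 2) → ℂ) → (Fin 3 → ℂ) := fun x => ![α * x 0 ^ e, β * x i ^ e, γ * x l ^ e]
      have hHan : ∀ x, AnalyticAt ℂ H x := by
        intro x
        rw [analyticAt_pi_iff]
        intro m
        fin_cases m
        · exact analyticAt_const.mul ((analyticAt_proj 0 x).pow e)
        · exact analyticAt_const.mul ((analyticAt_proj i x).pow e)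
        · exact analyticAt_const.mul ((analyticAt_proj l x).pow e)
      have hHhom : ∀ (s : ℂ) x, H (s • x) = s ^ e • H x := by
        intro s x
        funext m
        fin_cases m <;> simp [H, mul_pow] <;> ring
      -- the quartic relation
      have hquart : ∀ z, H (φ z).rep 0 ^ 4 + H (φ z).rep 1 ^ 4 + H (φ z).rep 2 ^ 4 = 0 := by
        intro z
        have e0 := hu z 0
        have e1 := hu z i
        have e2 := hu z l
        have k0 : H (φ z).rep 0 ^ 4 = (a - b) * (φ z).rep 0 ^ (4 * e) := by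
          change (α * (φ z).rep 0 ^ e) ^ 4 = _
          rw [mul_pow, hα, ← pow_mul, mul_comm e 4]
        have k1 : H (φ z).rep 1 ^ 4 = b * ((φ z).rep i ^ (4 * e) / 2 ^ (i : ℕ)) := by
          change (β * (φ z).rep i ^ e) ^ 4 = _
          rw [mul_pow, hβ, ← pow_mul, mul_comm e 4]
          ring
        have k2 : H (φ z).rep 2 ^ 4 = -a * ((φ z).rep l ^ (4 * e) / 2 ^ (l : ℕ)) := by
          change (γ * (φ z).rep l ^ e) ^ 4 = _
          rw [mul_pow, hγ, ← pow_mul, mul_comm e 4]
          ring
        rw [k0, k1, k2, e1, e2]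
        ring
      by_cases hH : ∀ z, H (φ z).rep = 0
      · exfalso
        apply hz₀
        rw [ht z₀]
        have h0 : (φ z₀).rep 0 = 0 := by
          have : α * (φ z₀).rep 0 ^ e = 0 := congrFun (hH z₀) 0
          exact pow_eq_zero_iff he |>.1 ((mul_eq_zero.1 this).resolve_left hα0)
        have h1 : (φ z₀).rep i = 0 := by
          have : β * (φ z₀).rep i ^ e = 0 := congrFun (hH z₀) 1
          exact pow_eq_zero_iff he |>.1 ((mul_eq_zero.1 this).resolve_left hβ0)
        have h2 := hu z₀ i
        rw [h0, h1, zero_pow hd0, zero_div, zero_add, eq_comm, mul_eq_zero] at h2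
        rw [h2.resolve_right hi, zero_smul]
      · push Not at hH
        obtain ⟨z₁, hz₁⟩ := hH
        obtain ⟨θ, hθ, hθ1, hθ2⟩ := exists_division hφ H hHan e hHhom hz₁
        have hsm : ∀ (s : ℂ) (x : Fin 3 → ℂ), s ≠ 0 →
            ((s • x) 0 ^ 4 + (s • x) 1 ^ 4 + (s • x) 2 ^ 4 = 0 ↔
              x 0 ^ 4 + x 1 ^ 4 + x 2 ^ 4 = 0) := by
          intro s x hs
          have : (s • x) 0 ^ 4 + (s • x) 1 ^ 4 + (s • x) 2 ^ 4 =
              s ^ 4 * (x 0 ^ 4 + x 1 ^ 4 + x 2 ^ 4) := by
            simp only [Pi.smul_apply, smul_eq_mul]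
            ring
          rw [this]
          simp [hs]
        have hθF : ∀ z, θ z ∈ fermat4 := by
          intro z
          refine (hθ z).zero_of_punctured (fun x => x 0 ^ 4 + x 1 ^ 4 + x 2 ^ 4) (by fun_prop)
            (fun t x ht => hsm t x ht) ?_
          filter_upwards [hθ2 z] with w hw
          obtain ⟨s, hs, hrep⟩ := exists_rep_eq (hθ1 w hw)
          rw [hrep, hsm s _ hs]
          exact hquart w
        have hθc := brodyHyperbolic_fermat4 θ hθ hθF
        have hHw : ∀ z, ∃ w : ℂ, H (φ z).rep = w • (θ 0).rep := by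
          intro z
          by_cases hz : H (φ z).rep = 0
          · exact ⟨0, by rw [hz, zero_smul]⟩
          · obtain ⟨s, hs, hrep⟩ := exists_rep_eq (hθ1 z hz)
            refine ⟨s⁻¹, ?_⟩
            rw [hθc 0 z, hrep, smul_smul, inv_mul_cancel₀ hs, one_smul]
        set E := (θ 0).rep with hE
        refine const_of_pow_prop hφ hd0 (fun m => 2 ^ (m : ℕ) *
          (E 0 ^ 4 / (a - b) + (E 1 ^ 4 / b - E 0 ^ 4 / (a - b)) / a * ρ m)) fun z => ?_
        obtain ⟨w, hw⟩ := hHw z
        refine ⟨w ^ 4, fun m => ?_⟩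
        have k0 : (a - b) * (φ z).rep 0 ^ (4 * e) = w ^ 4 * E 0 ^ 4 := by
          have : (α * (φ z).rep 0 ^ e) ^ 4 = (w * E 0) ^ 4 :=
            congrArg (fun y => y ^ 4) (congrFun hw 0)
          rw [mul_pow, hα, ← pow_mul, mul_comm e 4, mul_pow] at this
          exact this
        have k1 : b * ((φ z).rep i ^ (4 * e) / 2 ^ (i : ℕ)) = w ^ 4 * E 1 ^ 4 := by
          have : (β * (φ z).rep i ^ e) ^ 4 = (w * E 1) ^ 4 :=
            congrArg (fun y => y ^ 4) (congrFun hw 1)
          rw [mul_pow, hβ, ← pow_mul, mul_comm e 4, mul_pow] at this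
          linear_combination this
        have hui := hu z i
        have hum := hu z m
        have k2 : (φ z).rep 0 ^ (4 * e) = w ^ 4 * (E 0 ^ 4 / (a - b)) := by
          field_simp
          linear_combination k0
        have k3 : (φ z).rep i ^ (4 * e) / 2 ^ (i : ℕ) = w ^ 4 * (E 1 ^ 4 / b) := by
          rw [mul_div_assoc', eq_div_iff hl, mul_comm, k1]
        have k4 : t z = w ^ 4 * ((E 1 ^ 4 / b - E 0 ^ 4 / (a - b)) / a) := by
          rw [k3, k2] at hui
          have : t z * a = w ^ 4 * (E 1 ^ 4 / b) - w ^ 4 * (E 0 ^ 4 / (a - b)) := by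
            linear_combination -hui
          rw [mul_div_assoc', eq_div_iff hi, this]
          ring
        rw [k4, k2] at hum
        rw [div_eq_iff (h2p _)] at hum
        rw [hum]
        ring

end Pool.Agent.Lib.MP_627a61_nt
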